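import Pool.Agent.TH331.RZ.Fin1
import Pool.Agent.TH429.J231
import Pool.Agent.TH73.J238
import Pool.Agent.TH284.J239
import Pool.Agent.TH617.RZ.J240
import Pool.Agent.TH617.RZ.J241
import Pool.Agent.Helper88.SE.P_main

set_option autoImplicit false

open MeasureTheory Set Filter Topology
open scoped ENNReal Real

namespace Pool.Agent.TH331.RZ

open Pool.Agent.Helper88.SE

/-- the constant of the frozen statement -/
noncomputable def Vs (d : ℕ) (s : ℝ) : ℝ :=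
  (2:ℝ) ^ ((d:ℝ) - s - 1) * Real.Gamma (((d:ℝ) + 1) / 2)
              * Real.Gamma (((d:ℝ) - s) / 2)
              / (Real.sqrt Real.pi * Real.Gamma ((d:ℝ) - s / 2))

theorem littleO (g : ℕ → ℝ) (v w C γ c' : ℝ)
    (h : Tendsto (fun N : ℕ => (g N - (N:ℝ) ^ 2 * v) / (N:ℝ) ^ γ) atTop (𝓝 c'))
    (hw : w * C = c') :
    Asymptotics.IsLittleO atTop (fun N : ℕ => g N - (N:ℝ) ^ 2 * v - w * C * (N:ℝ) ^ γ)
      (fun N : ℕ => (N:ℝ) ^ γ) := by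
  rw [Asymptotics.isLittleO_iff_tendsto']
  · have h2 := h.sub_const c'
    rw [sub_self] at h2
    refine h2.congr' ?_
    filter_upwards [eventually_ge_atTop 1] with N hN
    have hpos : (0:ℝ) < (N:ℝ) ^ γ := Real.rpow_pos_of_pos (by exact_mod_cast hN) _
    rw [hw]
    field_simp
  · filter_upwards [eventually_ge_atTop 1] with N hN h0
    have hpos : (0:ℝ) < (N:ℝ) ^ γ := Real.rpow_pos_of_pos (by exact_mod_cast hN) _
    exact absurd h0 hpos.ne'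

theorem om_pos' (d : ℕ) : 0 < om d := by
  unfold om
  have := Real.Gamma_pos_of_pos (show (0:ℝ) < ((d:ℝ) + 1) / 2 by positivity)
  positivity

theorem om_mul (d : ℕ) (s c' : ℝ) :
    om d ^ (-s / (d:ℝ)) * (c' * om d ^ (s / (d:ℝ))) = c' := by
  have h := om_pos' d
  have : om d ^ (-s / (d:ℝ)) * om d ^ (s / (d:ℝ)) = 1 := by
    rw [← Real.rpow_add h]
    rw [neg_div, neg_add_cancel, Real.rpow_zero]
  calc om d ^ (-s / (d:ℝ)) * (c' * om d ^ (s / (d:ℝ)))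
      = c' * (om d ^ (-s / (d:ℝ)) * om d ^ (s / (d:ℝ))) := by ring
    _ = c' := by rw [this, mul_one]

/-- the case `0 < s < d` -/
theorem case_low (d : ℕ) (hd : 2 ≤ d) (s : ℝ) (hs : 0 < s) (hsd : s < d) :
    ∃ c' : ℝ, Tendsto (fun N : ℕ => ((⨅ y : Cs d N, EnS s y.1) - (N:ℝ) ^ 2 * Vs d s) /
      (N:ℝ) ^ (1 + s / (d:ℝ))) atTop (𝓝 c') := by
  obtain ⟨c', hc'⟩ := Pool.Agent.Helper88.SE.main d (by omega) s hs hsd
  refine ⟨c', hc'.congr fun N => ?_⟩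
  rw [inf_Em d (by omega) N s hs.ne']
  unfold F Vs
  rw [Ic_formula d hd s hsd]

/-- the case `s > d` -/
theorem case_high (d : ℕ) (hd : 1 ≤ d) (s : ℝ) (hsd : (d:ℝ) < s) (v C : ℝ)
    (hC : Tendsto (fun N : ℕ => (N:ℝ) ^ (-1 - s / (d:ℝ)) * eC d s N) atTop (𝓝 C)) :
    Tendsto (fun N : ℕ => ((⨅ y : Cs d N, EnS s y.1) - (N:ℝ) ^ 2 * v) /
      (N:ℝ) ^ (1 + s / (d:ℝ))) atTop (𝓝 (om d ^ (-s / (d:ℝ)) * C)) := by
  have hd0 : (0:ℝ) < d := by exact_mod_cast hd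
  have hs0 : 0 < s := by linarith
  have hchart : ∀ (p : S d) (h : ℝ), 0 < h → h ≤ 1 →
      ∃ X : (Fin d → ℝ) → S d, Continuous X ∧
      (∀ v ∈ Icc (0 : Fin d → ℝ) 1, ∀ v' ∈ Icc (0 : Fin d → ℝ) 1,
        h / (1 + d * h ^ 2) * Real.sqrt (∑ k, (v k - v' k) ^ 2) ≤ dist (X v) (X v') ∧
        dist (X v) (X v') ≤ h * Real.sqrt (∑ k, (v k - v' k) ^ 2)) ∧
      X '' (Icc (0 : Fin d → ℝ) 1) ⊆ Metric.closedBall p (d * h) ∧
      Metric.closedBall p (h / 4) ⊆ X '' (Icc (0 : Fin d → ℝ) 1) ∧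
      h ^ d / om d * (1 + d * h ^ 2) ^ (-(((d:ℝ) + 1) / 2)) ≤
        (sg d).real (X '' (Icc (0 : Fin d → ℝ) 1)) ∧
      (sg d).real (X '' (Icc (0 : Fin d → ℝ) 1)) ≤ h ^ d / om d :=
    fun p h hh hh1 => Pool.Agent.TH284.J239.cube_chart d hd p h hh hh1
  -- first the infimum
  have h1 : Tendsto (fun N : ℕ => (⨅ y : Cs d N, EnS s y.1) / (N:ℝ) ^ (1 + s / (d:ℝ))) atTop
      (𝓝 (om d ^ (-s / (d:ℝ)) * C)) := by
    rw [Metric.tendsto_atTop]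
    intro ε hε
    have hl := Pool.Agent.TH617.RZ.sphere_low d hchart hd s hsd C hC (ε / 2) (by positivity)
    have hu := Pool.Agent.TH617.RZ.sphere_up d hchart hd s hsd C hC (ε / 2) (by positivity)
    obtain ⟨N0, hN0⟩ := eventually_atTop.1 ((hl.and hu).and (eventually_ge_atTop 1))
    refine ⟨N0, fun N hN => ?_⟩
    obtain ⟨⟨hl', x, hx, hxu⟩, hN1⟩ := hN0 N hN
    have hpos : (0:ℝ) < (N:ℝ) ^ (1 + s / (d:ℝ)) := Real.rpow_pos_of_pos (by exact_mod_cast hN1) _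
    have k1 : (C * om d ^ (-s / (d:ℝ)) - ε / 2) * (N:ℝ) ^ (1 + s / (d:ℝ)) ≤
        ⨅ y : Cs d N, EnS s y.1 :=
      le_inf d hd N s _ fun y hy => by
        rw [EnS_eq_En s hs0.ne']
        exact hl' y hy
    have k2 : (⨅ y : Cs d N, EnS s y.1) ≤
        (C * om d ^ (-s / (d:ℝ)) + ε / 2) * (N:ℝ) ^ (1 + s / (d:ℝ)) := by
      refine (inf_le d N s x hx).trans ?_
      rw [EnS_eq_En s hs0.ne']
      exact hxu
    rw [Real.dist_eq, abs_lt]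
    have k3 := (le_div_iff₀ hpos).2 k1
    have k4 := (div_le_iff₀ hpos).2 k2
    constructor <;> linarith
  have h2 : Tendsto (fun N : ℕ => (N:ℝ) ^ 2 * v / (N:ℝ) ^ (1 + s / (d:ℝ))) atTop (𝓝 0) := by
    have hexp : 0 < s / (d:ℝ) - 1 := by
      rw [sub_pos, one_lt_div hd0]; exact hsd
    have t1 := (tendsto_rpow_neg_atTop hexp).comp tendsto_natCast_atTop_atTop
    have t2 := t1.const_mul v
    rw [mul_zero] at t2
    refine t2.congr' ?_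
    filter_upwards [eventually_ge_atTop 1] with N hN
    have hpos : (0:ℝ) < N := by exact_mod_cast hN
    simp only [Function.comp]
    have e1 : (N:ℝ) ^ (1 + s / (d:ℝ)) = (N:ℝ) ^ (s / (d:ℝ) - 1) * (N:ℝ) ^ 2 := by
      rw [← Real.rpow_natCast, ← Real.rpow_add hpos]
      congr 1
      push_cast
      ring
    rw [e1, Real.rpow_neg hpos.le]
    have h3 : (N:ℝ) ^ (s / (d:ℝ) - 1) ≠ 0 := (Real.rpow_pos_of_pos hpos _).ne'
    field_simp
  have h3 := h1.sub h2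
  rw [sub_zero] at h3
  refine h3.congr fun N => ?_
  rw [sub_div]

/-- the constant at `s = 0` -/
theorem Vs_zero (d : ℕ) (hd : 2 ≤ d) : Vs d 0 = 1 := by
  unfold Vs
  have hd0 : (0:ℝ) < d := by
    have : 0 < d := by omega
    exact_mod_cast this
  have h1 := Real.Gamma_mul_Gamma_add_half ((d:ℝ) / 2)
  have e1 : (d:ℝ) / 2 + 1 / 2 = ((d:ℝ) + 1) / 2 := by ring
  have e2 : 2 * ((d:ℝ) / 2) = d := by ring
  rw [e1, e2] at h1
  have hG : Real.Gamma (d:ℝ) ≠ 0 := (Real.Gamma_pos_of_pos hd0).ne'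
  have hpi : Real.sqrt Real.pi ≠ 0 := (Real.sqrt_pos.2 Real.pi_pos).ne'
  have e3 : (d:ℝ) - 0 - 1 = (d:ℝ) - 1 := by ring
  have e4 : ((d:ℝ) - 0) / 2 = (d:ℝ) / 2 := by ring
  have e5 : (d:ℝ) - 0 / 2 = d := by ring
  rw [e3, e4, e5, mul_assoc, mul_comm (Real.Gamma (((d:ℝ) + 1) / 2)), h1]
  rw [div_eq_one_iff_eq (mul_ne_zero hpi hG)]
  have e6 : (2:ℝ) ^ ((d:ℝ) - 1) * (2:ℝ) ^ (1 - (d:ℝ)) = 1 := by
    rw [← Real.rpow_add (by norm_num)]
    have : (d:ℝ) - 1 + (1 - d) = 0 := by ring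
    rw [this, Real.rpow_zero]
  calc (2:ℝ) ^ ((d:ℝ) - 1) * (Real.Gamma (d:ℝ) * 2 ^ (1 - (d:ℝ)) * Real.sqrt Real.pi)
      = ((2:ℝ) ^ ((d:ℝ) - 1) * (2:ℝ) ^ (1 - (d:ℝ))) * (Real.Gamma (d:ℝ) * Real.sqrt Real.pi) := by
        ring
    _ = _ := by rw [e6, one_mul, mul_comm]

/-- the case `s = 0` -/
theorem case_zero (d : ℕ) (hd : 2 ≤ d) (N : ℕ) :
    (⨆ y : Cs d N, EnS 0 y.1) = (N:ℝ) ^ 2 - N := by
  haveI := Cs_nonempty d (by omega) N
  have h1 : ∀ y : Cs d N, EnS 0 y.1 = (N:ℝ) ^ 2 - N := by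
    intro y
    unfold EnS
    simp only [neg_zero, Real.rpow_zero, Finset.sum_const, Finset.card_erase_of_mem (Finset.mem_univ _),
      Finset.card_univ, Fintype.card_fin, nsmul_eq_mul, mul_one]
    rcases Nat.eq_zero_or_pos N with h | h
    · subst h; simp
    · rw [Nat.cast_sub h]
      push_cast
      ring
  simp_rw [h1]
  exact ciSup_const

end Pool.Agent.TH331.RZ
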