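import Pool.Agent.TH331.RZ.Fin2
import Pool.Agent.TH331.RZ.Fin3

set_option autoImplicit false

namespace Pool.Agent.TH331.RZ

open Pool.Agent.Helper88.SE

/-- the frozen statement `S06241` -/
theorem main_S06241 :
  ∀ d : ℕ, 2 ≤ d → ∀ s : ℝ, -2 < s → s < (d:ℝ) + 2 → s ≠ (d:ℝ) →
  ∃ C : ℝ,
    ((d:ℝ) < s →
      Filter.Tendsto
        (fun N : ℕ => (N:ℝ) ^ (-1 - s / (d:ℝ)) *
          ⨅ x : {x : Fin N → Fin d → ℝ //
              Function.Injective x ∧ ∀ i k, 0 ≤ x i k ∧ x i k ≤ 1},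
            ∑ i : Fin N, ∑ j ∈ Finset.univ.erase i,
              (Real.sqrt (∑ k : Fin d, (x.1 i k - x.1 j k) ^ 2)) ^ (-s))
        Filter.atTop (nhds C)) ∧
    Asymptotics.IsLittleO Filter.atTop
      (fun N : ℕ =>
        (if 0 < s then
          ⨅ x : {x : Fin N → Fin (d+1) → ℝ //
              Function.Injective x ∧ ∀ i, ∑ k : Fin (d+1), (x i k) ^ 2 = 1},
            ∑ i : Fin N, ∑ j ∈ Finset.univ.erase i,
              (Real.sqrt (∑ k : Fin (d+1), (x.1 i k - x.1 j k) ^ 2)) ^ (-s)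
        else
          ⨆ x : {x : Fin N → Fin (d+1) → ℝ //
              Function.Injective x ∧ ∀ i, ∑ k : Fin (d+1), (x i k) ^ 2 = 1},
            ∑ i : Fin N, ∑ j ∈ Finset.univ.erase i,
              (Real.sqrt (∑ k : Fin (d+1), (x.1 i k - x.1 j k) ^ 2)) ^ (-s))
        - (N:ℝ) ^ 2 *
            ((2:ℝ) ^ ((d:ℝ) - s - 1) * Real.Gamma (((d:ℝ) + 1) / 2)
              * Real.Gamma (((d:ℝ) - s) / 2)
              / (Real.sqrt Real.pi * Real.Gamma ((d:ℝ) - s / 2)))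
        - (2 * Real.pi ^ (((d:ℝ) + 1) / 2) / Real.Gamma (((d:ℝ) + 1) / 2)) ^ (-s / (d:ℝ))
            * C * (N:ℝ) ^ (1 + s / (d:ℝ)))
      (fun N : ℕ => (N:ℝ) ^ (1 + s / (d:ℝ))) := by
  intro d hd s hs2 hsd2 hne
  have hd1 : 1 ≤ d := by omega
  have hd0 : (0:ℝ) < d := by exact_mod_cast hd1
  rcases lt_or_gt_of_ne hne with hlt | hgt
  · -- `s < d`
    rcases lt_trichotomy s 0 with hneg | hzero | hpos
    · -- `-2 < s < 0`
      obtain ⟨c, hc⟩ := neg_limit d hd (-s) (by linarith) (by linarith)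
      refine ⟨c * om d ^ (s / (d:ℝ)), fun h => absurd h (not_lt.2 hlt.le), ?_⟩
      have hc' : Filter.Tendsto (fun N : ℕ => ((⨆ y : Cs d N, EnS s y.1) - (N:ℝ) ^ 2 * Vs d s) /
          (N:ℝ) ^ (1 + s / (d:ℝ))) Filter.atTop (nhds c) := by
        have e1 : 1 - -s / (d:ℝ) = 1 + s / (d:ℝ) := by ring
        have e2 : - -s = s := neg_neg s
        rw [e1, e2, Ic_formula d hd s hlt] at hc
        exact hc
      have key := littleO _ _ _ _ _ _ hc' (om_mul d s c)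
      refine key.congr_left fun N => ?_
      rw [if_neg (not_lt.2 hneg.le), ← sup_eq]
      rfl
    · -- `s = 0`
      subst hzero
      refine ⟨-1, fun h => absurd h (not_lt.2 hlt.le), ?_⟩
      refine (Asymptotics.isLittleO_zero (fun N : ℕ => (N:ℝ) ^ (1 + 0 / (d:ℝ))) Filter.atTop).congr_left
        fun N => ?_
      have h1 : (⨆ x : Cf d N, EnF 0 x.1) = (N:ℝ) ^ 2 - N := by
        rw [sup_eq, case_zero d hd N]
      have h2 := Vs_zero d hd
      have h3 : (N:ℝ) ^ (1 + 0 / (d:ℝ)) = N := by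
        rw [zero_div, add_zero, Real.rpow_one]
      have h4 : (2 * Real.pi ^ (((d:ℝ) + 1) / 2) / Real.Gamma (((d:ℝ) + 1) / 2)) ^ (-0 / (d:ℝ))
          = 1 := by
        rw [neg_zero, zero_div, Real.rpow_zero]
      rw [if_neg (lt_irrefl 0), h3, h4]
      have h5 : (0:ℝ) = (⨆ x : Cf d N, EnF 0 x.1) - (N:ℝ) ^ 2 * Vs d 0 - 1 * (-1) * (N:ℝ) := by
        rw [h1, h2]; ring
      exact h5
    · -- `0 < s < d`
      obtain ⟨c, hc⟩ := case_low d hd s hpos hlt
      refine ⟨c * om d ^ (s / (d:ℝ)), fun h => absurd h (not_lt.2 hlt.le), ?_⟩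
      have key := littleO _ _ _ _ _ _ hc (om_mul d s c)
      refine key.congr_left fun N => ?_
      rw [if_pos hpos, ← inf_eq]
      rfl
  · -- `s > d`
    have hpos : 0 < s := by linarith
    obtain ⟨C, hC⟩ := Pool.Agent.TH73.J238.cube_limit d hd1 s hgt
    refine ⟨C, fun _ => hC, ?_⟩
    have key := littleO _ _ _ _ _ _ (case_high d hd1 s hgt (Vs d s) C hC) rfl
    refine key.congr_left fun N => ?_
    rw [if_pos hpos, ← inf_eq]
    rfl

end Pool.Agent.TH331.RZ
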