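import Pool.Agent.TH331.RZ.Defs
import Pool.Agent.TH966.J251
import Pool.Agent.TH365.J252
import Pool.Agent.TH365.J253

/-!
Lemmas proved in other files, under the names used in this project.
-/

set_option autoImplicit false

namespace Pool.Agent.TH331.RZ

alias radial_shift := Pool.Agent.TH966.J251.radial_shift
alias unfold_cube := Pool.Agent.TH365.J252.unfold_cube
alias cutoff := Pool.Agent.TH365.J253.cutoff
alias inj_dense := Pool.Agent.TH365.J253.inj_dense

end Pool.Agent.TH331.RZ
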