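import Pool.Agent.TH331.RZ.Defs2
import Pool.Agent.TH331.RZ.Stmts2

set_option autoImplicit false

open MeasureTheory Set Filter Topology
open scoped ENNReal Real FourierTransform ContDiff

namespace Pool.Agent.TH331.RZ

open Pool.Agent.Helper88.SE

/-- lattice vector -/
noncomputable def lv {D : ℕ} (j : Fin D → ℤ) : EuclideanSpace ℝ (Fin D) :=
  WithLp.toLp 2 (fun i => (j i : ℝ))

/-- half open unit cube -/
def cub (D : ℕ) : Set (EuclideanSpace ℝ (Fin D)) := {τ | ∀ i, 0 ≤ τ i ∧ τ i < 1}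

theorem cub_meas (D : ℕ) : MeasurableSet (cub D) := by
  have : cub D = ⋂ i, {τ : EuclideanSpace ℝ (Fin D) | 0 ≤ τ i ∧ τ i < 1} := by
    ext τ; simp [cub]
  rw [this]
  refine MeasurableSet.iInter fun i => ?_
  have h1 : Measurable (fun τ : EuclideanSpace ℝ (Fin D) => τ i) := by fun_prop
  exact (measurableSet_le measurable_const h1).inter (measurableSet_lt h1 measurable_const)

theorem cub_vol (D : ℕ) : (volume : Measure (EuclideanSpace ℝ (Fin D))) (cub D) = 1 := by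
  have h := (EuclideanSpace.volume_preserving_symm_measurableEquiv_toLp (Fin D)).symm
  have h2 : cub D = (MeasurableEquiv.toLp 2 (Fin D → ℝ)).symm ⁻¹'
      (Set.pi univ (fun _ : Fin D => Ico (0:ℝ) 1)) := by
    ext τ
    simp [cub, Set.mem_pi]
  rw [h2]
  have h3 := (EuclideanSpace.volume_preserving_symm_measurableEquiv_toLp (Fin D)).measure_preimage
    (MeasurableSet.univ_pi (fun _ : Fin D => (measurableSet_Ico : MeasurableSet (Ico (0:ℝ) 1)))).nullMeasurableSet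
  rw [h3, Real.volume_pi_Ico]
  simp

/-- choice of a good shift -/
theorem exists_theta (D : ℕ) (b m : EuclideanSpace ℝ (Fin D) → ℝ≥0∞) (hb : Measurable b)
    (hm : Measurable m) (n : ℝ≥0∞) (hn : n ≠ ⊤)
    (hmn : ∀ θ, ∑' j : Fin D → ℤ, m (θ + lv j) ≤ n) (κ : ℝ≥0∞) :
    ∃ θ ∈ cub D, (∑' j : Fin D → ℤ, b (θ + lv j)) +
        κ * (n - ∑' j : Fin D → ℤ, m (θ + lv j)) ≤
      (∫⁻ t, b t) + κ * (n - ∫⁻ t, m t) := by
  have hub := unfold_cube D b hb
  have hum := unfold_cube D m hm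
  have hvol : (volume.restrict (cub D)) univ = 1 := by
    rw [Measure.restrict_apply_univ, cub_vol]
  haveI : IsProbabilityMeasure (volume.restrict (cub D)) := ⟨hvol⟩
  have mb : Measurable (fun θ : EuclideanSpace ℝ (Fin D) => ∑' j : Fin D → ℤ, b (θ + lv j)) :=
    Measurable.ennreal_tsum fun j => hb.comp (by fun_prop)
  have mm : Measurable (fun θ : EuclideanSpace ℝ (Fin D) => ∑' j : Fin D → ℤ, m (θ + lv j)) :=
    Measurable.ennreal_tsum fun j => hm.comp (by fun_prop)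
  have hint : ∫⁻ θ in cub D, ((∑' j : Fin D → ℤ, b (θ + lv j)) +
        κ * (n - ∑' j : Fin D → ℤ, m (θ + lv j))) =
      (∫⁻ t, b t) + κ * (n - ∫⁻ t, m t) := by
    have mk : Measurable (fun θ : EuclideanSpace ℝ (Fin D) =>
        n - ∑' j : Fin D → ℤ, m (θ + lv j)) := measurable_const.sub mm
    rw [lintegral_add_left mb, lintegral_const_mul _ mk]
    have hub' : ∫⁻ θ in cub D, ∑' j : Fin D → ℤ, b (θ + lv j) = ∫⁻ t, b t := hub
    have hum' : ∫⁻ θ in cub D, ∑' j : Fin D → ℤ, m (θ + lv j) = ∫⁻ t, m t := hum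
    rw [hub']
    congr 2
    rw [lintegral_sub mm _ (Eventually.of_forall fun θ => hmn θ), hum']
    · rw [lintegral_const, hvol, mul_one]
    · refine ne_top_of_le_ne_top hn ?_
      calc ∫⁻ θ in cub D, ∑' j : Fin D → ℤ, m (θ + lv j) ≤ ∫⁻ θ in cub D, n :=
            lintegral_mono fun θ => hmn θ
        _ = n := by rw [lintegral_const, hvol, mul_one]
  obtain ⟨θ, hθ1, hθ2⟩ : ∃ θ ∈ cub D, (∑' j : Fin D → ℤ, b (θ + lv j)) +
        κ * (n - ∑' j : Fin D → ℤ, m (θ + lv j)) ≤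
      ∫⁻ θ in cub D, ((∑' j : Fin D → ℤ, b (θ + lv j)) +
        κ * (n - ∑' j : Fin D → ℤ, m (θ + lv j))) := by
    have h := exists_le_setLAverage (μ := volume) (s := cub D)
      (f := fun θ => (∑' j : Fin D → ℤ, b (θ + lv j)) +
        κ * (n - ∑' j : Fin D → ℤ, m (θ + lv j)))
      (by rw [cub_vol]; exact one_ne_zero) (by rw [cub_vol]; exact ENNReal.one_ne_top)
      (mb.add (measurable_const.mul (measurable_const.sub mm))).aemeasurable
    obtain ⟨θ, hθ1, hθ2⟩ := h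
    refine ⟨θ, hθ1, hθ2.trans (le_of_eq ?_)⟩
    rw [setLAverage_eq, cub_vol, div_one]
  exact ⟨θ, hθ1, hθ2.trans (le_of_eq hint)⟩

theorem lv_norm_finite (D : ℕ) (θ : EuclideanSpace ℝ (Fin D)) (R : ℝ) :
    {j : Fin D → ℤ | ‖θ + lv j‖ ≤ R}.Finite := by
  have hsub : {j : Fin D → ℤ | ‖θ + lv j‖ ≤ R} ⊆
      Set.pi univ (fun i : Fin D => Icc (-⌈R + ‖θ‖⌉) ⌈R + ‖θ‖⌉) := by
    intro j hj
    rw [Set.mem_ofPred_eq] at hj
    rw [Set.mem_univ_pi]
    intro i
    have h1 : ‖lv j‖ ≤ R + ‖θ‖ := by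
      have : lv j = (θ + lv j) - θ := by abel
      rw [this]
      exact (norm_sub_le _ _).trans (by linarith)
    have h2 : |((j i : ℤ) : ℝ)| ≤ ‖lv j‖ := by
      have := PiLp.norm_apply_le (lv j) i
      simpa [lv] using this
    have h3 : |((j i : ℤ) : ℝ)| ≤ R + ‖θ‖ := h2.trans h1
    rw [abs_le] at h3
    rw [Set.mem_Icc]
    constructor
    · have h4 : (-(⌈R + ‖θ‖⌉ : ℤ) : ℝ) ≤ -(R + ‖θ‖) := by
        have := Int.le_ceil (R + ‖θ‖)
        linarith
      have h5 : (-(⌈R + ‖θ‖⌉ : ℤ) : ℝ) ≤ ((j i : ℤ) : ℝ) := by linarith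
      exact_mod_cast h5
    · have h5 : ((j i : ℤ) : ℝ) ≤ (⌈R + ‖θ‖⌉ : ℝ) := h3.2.trans (Int.le_ceil _)
      exact_mod_cast h5
  exact (Set.Finite.pi (fun i => Set.finite_Icc _ _)).subset hsub

end Pool.Agent.TH331.RZ
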