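import Pool.Agent.TH331.RZ.Avg1
import Pool.Agent.Helper88.SE.P_ball_bound
import Pool.Agent.Helper88.SE.P_sg_prob

set_option autoImplicit false

open MeasureTheory Set Filter Topology
open scoped ENNReal Real FourierTransform ContDiff

namespace Pool.Agent.TH331.RZ

open Pool.Agent.Helper88.SE

/-- the spherical shell -/
def shl (d : ℕ) (l h : ℝ) : Set (E d) := {t | |‖t‖ - l| ≤ h}

theorem shl_meas (d : ℕ) (l h : ℝ) : MeasurableSet (shl d l h) := by
  have : Measurable (fun t : E d => |‖t‖ - l|) :=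
    continuous_abs.measurable.comp (measurable_norm.sub_const l)
  exact measurableSet_le this measurable_const

theorem jac_pt (d : ℕ) (h0 l r n : ℝ) (h1 : 0 ≤ h0) (h2 : h0 < l) (hr : 0 < r) (hr1 : r ≤ 1)
    (hn : |n - l| ≤ h0) :
    (1 - h0 / l) ^ d * r ^ (-(d:ℝ)) ≤ ((n + (l / r - l)) / n) ^ d ∧
    ((n + (l / r - l)) / n) ^ d ≤ ((1 - h0 / l) ^ d)⁻¹ * r ^ (-(d:ℝ)) := by
  have hl : 0 < l := by linarith
  rw [abs_le] at hn
  have hn0 : 0 < n := by linarith [hn.1]
  have hx : 0 < 1 - h0 / l := by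
    rw [sub_pos, div_lt_one hl]; exact h2
  have hx1 : 1 - h0 / l ≤ 1 := by
    have : 0 ≤ h0 / l := by positivity
    linarith
  have hrd : r ^ (-(d:ℝ)) = (r⁻¹) ^ d := by
    rw [Real.rpow_neg hr.le, Real.rpow_natCast, inv_pow]
  have hrinv : 1 ≤ r⁻¹ := (one_le_inv₀ hr).2 hr1
  rw [hrd, ← mul_pow, ← inv_pow, ← mul_pow]
  have e1 : (n + (l / r - l)) / n = (n + l * (r⁻¹ - 1)) / n := by
    congr 1; rw [div_eq_mul_inv]; ring
  rw [e1]
  have hq : 0 ≤ l * (r⁻¹ - 1) := by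
    apply mul_nonneg hl.le; linarith
  constructor
  · apply pow_le_pow_left₀ (by positivity)
    rw [le_div_iff₀ hn0]
    -- (1 - h0/l) r⁻¹ n ≤ n + l (r⁻¹ - 1)
    have h3 : (1 - h0 / l) * n ≤ l := by
      have : (1 - h0 / l) * n ≤ (1 - h0 / l) * (l + h0) := by
        apply mul_le_mul_of_nonneg_left _ hx.le; linarith [hn.2]
      have h4 : (1 - h0 / l) * (l + h0) = l - h0 ^ 2 / l := by field_simp; ring
      have h5 : 0 ≤ h0 ^ 2 / l := by positivity
      linarith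
    have h6 : (1 - h0 / l) * n ≤ n := by nlinarith
    calc (1 - h0 / l) * r⁻¹ * n = (1 - h0 / l) * n + (1 - h0 / l) * n * (r⁻¹ - 1) := by ring
      _ ≤ n + l * (r⁻¹ - 1) := by
          apply add_le_add h6
          exact mul_le_mul_of_nonneg_right h3 (by linarith)
  · apply pow_le_pow_left₀ (by positivity)
    rw [div_le_iff₀ hn0]
    -- n + l (r⁻¹ - 1) ≤ (1-h0/l)⁻¹ r⁻¹ n
    have h3 : l ≤ (1 - h0 / l)⁻¹ * n := by
      rw [← div_eq_inv_mul, le_div_iff₀ hx]
      have : l * (1 - h0 / l) = l - h0 := by field_simp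
      rw [this]; linarith [hn.1]
    have h6 : n ≤ (1 - h0 / l)⁻¹ * n := by
      have : 1 ≤ (1 - h0 / l)⁻¹ := (one_le_inv₀ hx).2 hx1
      nlinarith
    calc n + l * (r⁻¹ - 1) ≤ (1 - h0 / l)⁻¹ * n + (1 - h0 / l)⁻¹ * n * (r⁻¹ - 1) := by
          apply add_le_add h6
          exact mul_le_mul_of_nonneg_right h3 (by linarith)
      _ = _ := by ring

theorem jac (d : ℕ) (h0 l r : ℝ) (h1 : 0 ≤ h0) (h2 : h0 < l) (hr : 0 < r) (hr1 : r ≤ 1)
    (F : E d → ℝ≥0∞) (hF : Measurable F) :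
    (∫⁻ t in shl d (l / r) h0, F (zsh l (l / r) t) ≤
      ENNReal.ofReal (((1 - h0 / l) ^ d)⁻¹ * r ^ (-(d:ℝ))) * ∫⁻ z, F z) ∧
    ENNReal.ofReal ((1 - h0 / l) ^ d * r ^ (-(d:ℝ))) * ∫⁻ z in shl d l h0, F z ≤
      ∫⁻ t in shl d (l / r) h0, F (zsh l (l / r) t) := by
  have hl : 0 < l := by linarith
  have hl' : l ≤ l / r := by
    rw [le_div_iff₀ hr]; nlinarith
  have h := radial_shift d l (l / r) h0 h1 h2 hl' F hF
  have h' : ∫⁻ t in shl d (l / r) h0, F (zsh l (l / r) t) =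
      ∫⁻ z in shl d l h0, F z * ENNReal.ofReal (((‖z‖ + (l / r - l)) / ‖z‖) ^ d) := h
  rw [h']
  constructor
  · calc ∫⁻ z in shl d l h0, F z * ENNReal.ofReal (((‖z‖ + (l / r - l)) / ‖z‖) ^ d)
        ≤ ∫⁻ z in shl d l h0, F z * ENNReal.ofReal (((1 - h0 / l) ^ d)⁻¹ * r ^ (-(d:ℝ))) := by
          refine setLIntegral_mono' (shl_meas d l h0) fun z hz => ?_
          apply mul_le_mul_right
          exact ENNReal.ofReal_le_ofReal (jac_pt d h0 l r ‖z‖ h1 h2 hr hr1 hz).2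
      _ = (∫⁻ z in shl d l h0, F z) * ENNReal.ofReal (((1 - h0 / l) ^ d)⁻¹ * r ^ (-(d:ℝ))) :=
          lintegral_mul_const' _ _ ENNReal.ofReal_ne_top
      _ ≤ (∫⁻ z, F z) * ENNReal.ofReal (((1 - h0 / l) ^ d)⁻¹ * r ^ (-(d:ℝ))) := by
          gcongr
          exact Measure.restrict_le_self
      _ = _ := mul_comm _ _
  · calc ENNReal.ofReal ((1 - h0 / l) ^ d * r ^ (-(d:ℝ))) * ∫⁻ z in shl d l h0, F z
        = ∫⁻ z in shl d l h0, F z * ENNReal.ofReal ((1 - h0 / l) ^ d * r ^ (-(d:ℝ))) := by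
          rw [lintegral_mul_const' _ _ ENNReal.ofReal_ne_top, mul_comm]
      _ ≤ _ := by
          refine setLIntegral_mono' (shl_meas d l h0) fun z hz => ?_
          apply mul_le_mul_right
          exact ENNReal.ofReal_le_ofReal (jac_pt d h0 l r ‖z‖ h1 h2 hr hr1 hz).1

theorem shl_vol (d : ℕ) (h0 : ℝ) (h1 : 0 ≤ h0) :
    ∃ C : ℝ, 0 ≤ C ∧ ∀ l' : ℝ, h0 + 1 ≤ l' →
      (volume : Measure (E d)) (shl d l' h0) ≤ ENNReal.ofReal (C * l' ^ d) := by
  have hfin : (volume : Measure (E d)) (shl d (h0 + 1) h0) ≠ ⊤ := by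
    refine ne_top_of_le_ne_top (measure_closedBall_lt_top (x := (0 : E d)) (r := 2 * h0 + 1)).ne
      (measure_mono ?_)
    intro t ht
    rw [mem_closedBall_zero_iff]
    have h3 := abs_le.1 (show |‖t‖ - (h0 + 1)| ≤ h0 from ht)
    linarith [h3.2]
  refine ⟨(volume : Measure (E d)).real (shl d (h0 + 1) h0) * 2 ^ d, by positivity, ?_⟩
  intro l' hl'
  have h := radial_shift d (h0 + 1) l' h0 h1 (by linarith) hl' (fun _ => 1) measurable_const
  have h' : ∫⁻ t in shl d l' h0, (1:ℝ≥0∞) =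
      ∫⁻ z in shl d (h0 + 1) h0, 1 * ENNReal.ofReal (((‖z‖ + (l' - (h0 + 1))) / ‖z‖) ^ d) := h
  rw [lintegral_const, one_mul, Measure.restrict_apply_univ] at h'
  rw [h']
  calc ∫⁻ z in shl d (h0 + 1) h0, 1 * ENNReal.ofReal (((‖z‖ + (l' - (h0 + 1))) / ‖z‖) ^ d)
      ≤ ∫⁻ z in shl d (h0 + 1) h0, ENNReal.ofReal ((2 * l') ^ d) := by
        refine setLIntegral_mono' (shl_meas d _ h0) fun z hz => ?_
        rw [one_mul]
        apply ENNReal.ofReal_le_ofReal
        have h3 := abs_le.1 (show |‖z‖ - (h0 + 1)| ≤ h0 from hz)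
        have hz1 : 1 ≤ ‖z‖ := by linarith [h3.1]
        apply pow_le_pow_left₀ (by
          apply div_nonneg _ (by linarith)
          linarith)
        rw [div_le_iff₀ (by linarith)]
        have : ‖z‖ + (l' - (h0 + 1)) ≤ ‖z‖ * l' + l' * ‖z‖ := by nlinarith
        linarith
    _ = ENNReal.ofReal ((2 * l') ^ d) * volume (shl d (h0 + 1) h0) := by
        rw [lintegral_const, Measure.restrict_apply_univ]
    _ = _ := by
        rw [← ENNReal.ofReal_toReal hfin, ← ENNReal.ofReal_mul (by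
          have : 0 ≤ l' := by linarith
          positivity)]
        congr 1
        rw [mul_pow, measureReal_def]
        ring

/-- Tonelli and translation -/
theorem shift_int (d : ℕ) (l : ℝ) (φ : E d → ℝ≥0∞) (hφ : Measurable φ) :
    ∫⁻ z : E d, ∫⁻ u : S d, φ (l • (u : E d) - z) ∂(sg d) = ∫⁻ z, φ z := by
  haveI := sg_prob d
  rw [lintegral_lintegral_swap]
  · have h1 : ∀ u : S d, ∫⁻ z : E d, φ (l • (u : E d) - z) = ∫⁻ z, φ z := fun u =>
      lintegral_sub_left_eq_self φ (l • (u : E d))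
    simp_rw [h1]
    rw [lintegral_const, measure_univ, mul_one]
  · apply Measurable.aemeasurable
    exact hφ.comp (by fun_prop)

/-- mean value of the cut-off -/
noncomputable def mf {d : ℕ} (f : E d → ℝ) (l : ℝ) (z : E d) : ℝ :=
  ∫ u : S d, f (l • (u : E d) - z) ∂(sg d)

theorem mf_ofReal {d : ℕ} (f : E d → ℝ) (hf : Measurable f) (hf0 : ∀ x, 0 ≤ f x)
    (hf1 : ∀ x, f x ≤ 1) (l : ℝ) (z : E d) :
    ENNReal.ofReal (mf f l z) = ∫⁻ u : S d, ENNReal.ofReal (f (l • (u : E d) - z)) ∂(sg d) := by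
  haveI := sg_prob d
  unfold mf
  rw [ofReal_integral_eq_lintegral_ofReal]
  · refine Integrable.of_bound (C := 1) ?_ (Eventually.of_forall fun u => ?_)
    · exact (hf.comp (by fun_prop)).aestronglyMeasurable
    · rw [Real.norm_eq_abs, abs_of_nonneg (hf0 _)]; exact hf1 _
  · exact Eventually.of_forall fun u => hf0 _

theorem mf_nonneg {d : ℕ} (f : E d → ℝ) (hf0 : ∀ x, 0 ≤ f x) (l : ℝ) (z : E d) :
    0 ≤ mf f l z := integral_nonneg fun _ => hf0 _

theorem mf_meas {d : ℕ} (f : E d → ℝ) (hf : Measurable f) (l : ℝ) : Measurable (mf f l) := by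
  haveI := sg_prob d
  unfold mf
  apply StronglyMeasurable.measurable
  apply StronglyMeasurable.integral_prod_right (f := fun (z : E d) (u : S d) => f (l • (u : E d) - z))
  exact (hf.comp (by fun_prop)).stronglyMeasurable

theorem mf_int {d : ℕ} (f : E d → ℝ) (hf : Measurable f) (hf0 : ∀ x, 0 ≤ f x)
    (hf1 : ∀ x, f x ≤ 1) (l : ℝ) :
    ∫⁻ z : E d, ENNReal.ofReal (mf f l z) = ∫⁻ z, ENNReal.ofReal (f z) := by
  simp_rw [mf_ofReal f hf hf0 hf1 l]
  exact shift_int d l (fun z => ENNReal.ofReal (f z)) hf.ennreal_ofReal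

theorem mf_bound (d : ℕ) (ρ : ℝ) (hρ : 0 ≤ ρ) : ∃ C : ℝ, 0 ≤ C ∧ ∀ (f : E d → ℝ),
    Measurable f → (∀ x, 0 ≤ f x) → (∀ x, f x ≤ 1) → (∀ x, f x ≠ 0 → ‖x‖ ≤ ρ) →
    ∀ (l : ℝ), 0 < l → ∀ z : E d, mf f l z ≤ C * l ^ (-(d:ℝ)) := by
  obtain ⟨C, hC, hb⟩ := ball_bound d
  haveI := sg_prob d
  refine ⟨C * (2 * ρ) ^ d, by positivity, ?_⟩
  intro f hf hf0 hf1 hfs l hl z
  by_cases hex : ∃ u0 : S d, f (l • (u0 : E d) - z) ≠ 0
  · obtain ⟨u0, hu0⟩ := hex
    have h0 := hfs _ hu0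
    have h1 : ∀ u : S d, f (l • (u : E d) - z) ≤
        (Metric.closedBall u0 (2 * ρ / l)).indicator (fun _ => (1:ℝ)) u := by
      intro u
      by_cases hu : f (l • (u : E d) - z) = 0
      · rw [hu]
        exact Set.indicator_nonneg (fun _ _ => by norm_num) _
      · have h2 := hfs _ hu
        have h3 : dist u u0 ≤ 2 * ρ / l := by
          rw [le_div_iff₀ hl, Subtype.dist_eq, dist_eq_norm]
          have h4 : (l • (u : E d) - z) - (l • (u0 : E d) - z) = l • ((u : E d) - (u0 : E d)) := by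
            rw [smul_sub]; abel
          have h5 : ‖l • ((u : E d) - (u0 : E d))‖ ≤ ρ + ρ := by
            rw [← h4]; exact (norm_sub_le _ _).trans (add_le_add h2 h0)
          rw [norm_smul, Real.norm_of_nonneg hl.le] at h5
          linarith
        rw [Set.indicator_of_mem (Metric.mem_closedBall.2 h3)]
        exact hf1 _
    calc mf f l z ≤ ∫ u : S d, (Metric.closedBall u0 (2 * ρ / l)).indicator (fun _ => (1:ℝ)) u
          ∂(sg d) := by
          unfold mf
          apply integral_mono_of_nonneg (Eventually.of_forall fun u => hf0 _)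
          · exact (integrable_const (1:ℝ)).indicator Metric.isClosed_closedBall.measurableSet
          · exact Eventually.of_forall h1
      _ = (sg d (Metric.closedBall u0 (2 * ρ / l))).toReal := by
          rw [integral_indicator_const _ Metric.isClosed_closedBall.measurableSet]
          simp [measureReal_def]
      _ ≤ C * (2 * ρ / l) ^ d := hb u0 _ (by positivity)
      _ = _ := by
          rw [div_pow, Real.rpow_neg hl.le, Real.rpow_natCast]
          field_simp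
  · push Not at hex
    have : mf f l z = 0 := by
      unfold mf
      simp [hex]
    rw [this]
    positivity

end Pool.Agent.TH331.RZ
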