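import Pool.Agent.TH331.RZ.Avg2
import Pool.Agent.Helper88.SE.P_chart_meas
import Pool.Agent.Helper88.SE.P_lin_change

set_option autoImplicit false

open MeasureTheory Set Filter Topology
open scoped ENNReal Real FourierTransform ContDiff

namespace Pool.Agent.TH331.RZ

open Pool.Agent.Helper88.SE

theorem zsh_meas {d : ℕ} (l l' : ℝ) : Measurable (zsh (d := d) l l') := by
  unfold zsh
  have h1 : Measurable (fun t : E d => (l' - l) / ‖t‖) := measurable_norm.const_div _
  exact measurable_id.sub (h1.smul measurable_id)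

theorem mcell_mass (d N : ℕ) (f : E d → ℝ) (hf : Measurable f) (hf0 : ∀ x, 0 ≤ f x)
    (hf1 : ∀ x, f x ≤ 1) (l r : ℝ) (hr : 0 < r) (t : E d) :
    (mcell d N f l r t) univ = ENNReal.ofReal (N * mf f l (zsh l (l / r) t)) := by
  unfold mcell
  rw [Measure.smul_apply, Measure.map_apply (chart_meas d (nrm t) r 1 hr).1 MeasurableSet.univ,
    preimage_univ, withDensity_apply _ MeasurableSet.univ, Measure.restrict_univ, smul_eq_mul,
    ← mf_ofReal f hf hf0 hf1, ENNReal.ofReal_mul (Nat.cast_nonneg N), ENNReal.ofReal_natCast]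

theorem mcell_real (d N : ℕ) (f : E d → ℝ) (hf : Measurable f) (hf0 : ∀ x, 0 ≤ f x)
    (hf1 : ∀ x, f x ≤ 1) (l r : ℝ) (hr : 0 < r) (t : E d) :
    (mcell d N f l r t).real univ = N * mf f l (zsh l (l / r) t) := by
  rw [measureReal_def, mcell_mass d N f hf hf0 hf1 l r hr t, ENNReal.toReal_ofReal]
  exact mul_nonneg (Nat.cast_nonneg N) (mf_nonneg f hf0 _ _)

/-- the cell of the lattice shifted by `θ` on the sphere -/
def qc {d : ℕ} (l' : ℝ) (t : E d) : Set (S d) := {v : S d | ∀ i, |l' * (v : E d) i - t i| < 1 / 2}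

theorem qc_meas {d : ℕ} (l' : ℝ) (t : E d) : MeasurableSet (qc l' t) := by
  have : qc l' t = ⋂ i, {v : S d | |l' * (v : E d) i - t i| < 1 / 2} := by
    ext v; simp [qc]
  rw [this]
  refine MeasurableSet.iInter fun i => ?_
  refine measurableSet_lt ?_ measurable_const
  apply Continuous.measurable
  fun_prop

theorem qc_disj {d : ℕ} (l' : ℝ) (θ : E d) (j k : Fin (d + 1) → ℤ) (hjk : j ≠ k) :
    Disjoint (qc l' (θ + lv j)) (qc l' (θ + lv k)) := by
  rw [Set.disjoint_left]
  intro v hv1 hv2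
  apply hjk
  funext i
  have h1 := hv1 i
  have h2 := hv2 i
  have e1 : (θ + lv j) i = θ i + (j i : ℝ) := by simp [lv]
  have e2 : (θ + lv k) i = θ i + (k i : ℝ) := by simp [lv]
  rw [e1] at h1
  rw [e2] at h2
  rw [abs_lt] at h1 h2
  have h3 : |((j i - k i : ℤ) : ℝ)| < 1 := by
    rw [abs_lt]
    push_cast
    constructor <;> linarith [h1.1, h1.2, h2.1, h2.2]
  have h4 : |(j i - k i : ℤ)| < 1 := by exact_mod_cast h3
  have h5 : j i - k i = 0 := Int.abs_lt_one_iff.1 h4
  omega

theorem sum_le_sg {d : ℕ} (l' : ℝ) (θ : E d) (c : ℝ≥0∞) (J : Finset (Fin (d + 1) → ℤ))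
    (m : (Fin (d + 1) → ℤ) → Measure (S d))
    (hm : ∀ j ∈ J, m j ≤ c • (sg d).restrict (qc l' (θ + lv j))) :
    ∑ j ∈ J, m j ≤ c • sg d := by
  have h1 : ∑ j ∈ J, m j ≤ ∑ j ∈ J, c • (sg d).restrict (qc l' (θ + lv j)) :=
    Finset.sum_le_sum hm
  refine h1.trans ?_
  rw [Measure.le_iff]
  intro A hA
  rw [Measure.finset_sum_apply]
  calc ∑ j ∈ J, (c • (sg d).restrict (qc l' (θ + lv j))) A
      = c * ∑ j ∈ J, sg d (qc l' (θ + lv j) ∩ A) := by
        rw [Finset.mul_sum]
        refine Finset.sum_congr rfl fun j _ => ?_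
        rw [Measure.smul_apply, Measure.restrict_apply hA, smul_eq_mul, Set.inter_comm]
    _ = c * sg d (⋃ j ∈ J, (qc l' (θ + lv j) ∩ A)) := by
        rw [measure_biUnion_finset]
        · intro j _ k _ hjk
          exact (qc_disj l' θ j k hjk).mono Set.inter_subset_left Set.inter_subset_left
        · exact fun j _ => (qc_meas l' _).inter hA
    _ ≤ c * sg d A := by
        gcongr
        exact Set.iUnion₂_subset fun j _ => Set.inter_subset_right
    _ = (c • sg d) A := by rw [Measure.smul_apply, smul_eq_mul]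

end Pool.Agent.TH331.RZ
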