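import Pool.Agent.TH331.RZ.Avg1
import Pool.Agent.TH331.RZ.Stmts2

set_option autoImplicit false

open MeasureTheory Set Filter Topology
open scoped ENNReal Real FourierTransform ContDiff

namespace Pool.Agent.TH331.RZ

open Pool.Agent.Helper88.SE

theorem cube_vol (D : ℕ) (c : ℝ) (hc : 0 ≤ c) :
    (volume : Measure (EuclideanSpace ℝ (Fin D))) {x | ∀ i, |x i| ≤ c} =
      ENNReal.ofReal ((2 * c) ^ D) := by
  have h2 : {x : EuclideanSpace ℝ (Fin D) | ∀ i, |x i| ≤ c} =
      (MeasurableEquiv.toLp 2 (Fin D → ℝ)).symm ⁻¹'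
      (Set.pi univ (fun _ : Fin D => Icc (-c) c)) := by
    ext τ
    simp [abs_le, Pi.le_def, forall_and]
  rw [h2]
  have h3 := (EuclideanSpace.volume_preserving_symm_measurableEquiv_toLp (Fin D)).measure_preimage
    (MeasurableSet.univ_pi (fun _ : Fin D => (measurableSet_Icc : MeasurableSet (Icc (-c) c)))).nullMeasurableSet
  rw [h3, volume_pi_pi]
  simp only [Real.volume_Icc, Finset.prod_const, Finset.card_univ, Fintype.card_fin]
  rw [← ENNReal.ofReal_pow (by linarith)]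
  congr 1
  ring

theorem cube_meas (D : ℕ) (c : ℝ) :
    MeasurableSet {x : EuclideanSpace ℝ (Fin D) | ∀ i, |x i| ≤ c} := by
  have : {x : EuclideanSpace ℝ (Fin D) | ∀ i, |x i| ≤ c} =
      ⋂ i, {x : EuclideanSpace ℝ (Fin D) | |x i| ≤ c} := by
    ext τ; simp
  rw [this]
  refine MeasurableSet.iInter fun i => ?_
  exact measurableSet_le (by fun_prop) measurable_const

theorem cut_facts (d : ℕ) (η : ℝ) (hη : 0 < η) (hη1 : η ≤ 1) :
    ∃ (δ : ℝ) (f : E d → ℝ), 0 < δ ∧ ContDiff ℝ ∞ f ∧ HasCompactSupport f ∧ (∀ x, 0 ≤ f x) ∧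
      (∀ x, f x ≤ 1) ∧ (∀ x : E d, (∃ i, 1 / 2 - δ ≤ |x i|) → f x = 0) ∧
      ENNReal.ofReal (1 - η) ≤ ∫⁻ z, ENNReal.ofReal (f z) ∧
      ∫⁻ z, ENNReal.ofReal (f z - {v : E d | f v = 1}.indicator (fun _ => (1:ℝ)) z) ≤
        ENNReal.ofReal η ∧
      ∫⁻ z, ENNReal.ofReal (f z) ≤ 1 ∧ ∫ z, f z ^ 2 ≤ 1 := by
  obtain ⟨δ, hδ⟩ : ∃ δ : ℝ, δ = η / (8 * ((d:ℝ) + 1)) := ⟨_, rfl⟩
  have hd1 : (0:ℝ) < (d:ℝ) + 1 := by positivity
  have hδ0 : 0 < δ := by rw [hδ]; positivity
  have hδ8 : δ ≤ 1 / 8 := by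
    rw [hδ, div_le_div_iff₀ (by positivity) (by norm_num)]
    have : (0:ℝ) ≤ d := Nat.cast_nonneg d
    nlinarith
  obtain ⟨f, hf, hf0, hf1, hfz, hfo⟩ := cutoff (d + 1) δ hδ0 (by linarith)
  obtain ⟨Qo, hQo⟩ : ∃ Q : Set (E d), Q = {x | ∀ i, |x i| ≤ 1 / 2} := ⟨_, rfl⟩
  obtain ⟨Qi, hQi⟩ : ∃ Q : Set (E d), Q = {x | ∀ i, |x i| ≤ 1 / 2 - 2 * δ} := ⟨_, rfl⟩
  have vQo : (volume : Measure (E d)) Qo = 1 := by
    rw [hQo, cube_vol (d + 1) (1 / 2) (by norm_num)]
    norm_num
  have vQi : (volume : Measure (E d)) Qi = ENNReal.ofReal ((1 - 4 * δ) ^ (d + 1)) := by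
    rw [hQi, cube_vol (d + 1) (1 / 2 - 2 * δ) (by linarith)]
    congr 2
    ring
  have mQo : MeasurableSet Qo := by rw [hQo]; exact cube_meas _ _
  have mQi : MeasurableSet Qi := by rw [hQi]; exact cube_meas _ _
  have hsub : Qi ⊆ Qo := by
    rw [hQi, hQo]
    intro x hx i
    have := hx i
    linarith
  have hbern : 1 - η ≤ (1 - 4 * δ) ^ (d + 1) := by
    have h := one_add_mul_le_pow (show (-2:ℝ) ≤ -(4 * δ) by linarith) (d + 1)
    have e1 : (1:ℝ) + -(4 * δ) = 1 - 4 * δ := by ring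
    rw [e1] at h
    refine le_trans ?_ h
    rw [hδ]
    push_cast
    have : ((d:ℝ) + 1) * -(4 * (η / (8 * ((d:ℝ) + 1)))) = -(η / 2) := by field_simp; ring
    rw [this]
    linarith
  have hout : ∀ x, x ∉ Qo → f x = 0 := by
    intro x hx
    rw [hQo] at hx
    simp only [Set.mem_ofPred_eq, not_forall, not_le] at hx
    obtain ⟨i, hi⟩ := hx
    exact hfz x ⟨i, by linarith⟩
  have hin : ∀ x, x ∈ Qi → f x = 1 := by
    intro x hx
    rw [hQi] at hx
    exact hfo x hx
  have hle : ∀ z, ENNReal.ofReal (f z) ≤ Qo.indicator (fun _ => (1:ℝ≥0∞)) z := by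
    intro z
    by_cases hz : z ∈ Qo
    · rw [Set.indicator_of_mem hz, ← ENNReal.ofReal_one]
      exact ENNReal.ofReal_le_ofReal (hf1 z)
    · rw [hout z hz]
      simp
  have hge : ∀ z, Qi.indicator (fun _ => (1:ℝ≥0∞)) z ≤ ENNReal.ofReal (f z) := by
    intro z
    by_cases hz : z ∈ Qi
    · rw [Set.indicator_of_mem hz, hin z hz]
      simp
    · rw [Set.indicator_of_notMem hz]
      exact bot_le
  have hI1 : ∫⁻ z, ENNReal.ofReal (f z) ≤ 1 := by
    calc ∫⁻ z, ENNReal.ofReal (f z) ≤ ∫⁻ z, Qo.indicator (fun _ => (1:ℝ≥0∞)) z :=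
          lintegral_mono hle
      _ = 1 := by rw [lintegral_indicator_const mQo, vQo, one_mul]
  refine ⟨δ, f, hδ0, hf, ?_, hf0, hf1, hfz, ?_, ?_, hI1, ?_⟩
  · refine HasCompactSupport.intro (K := Metric.closedBall (0 : E d) ((d:ℝ) + 1))
      (isCompact_closedBall _ _) ?_
    intro x hx
    apply hout
    intro hq
    apply hx
    rw [mem_closedBall_zero_iff, EuclideanSpace.norm_eq]
    rw [hQo] at hq
    have h5 : ∑ i, ‖x i‖ ^ 2 ≤ ((d:ℝ) + 1) ^ 2 := by
      calc ∑ i, ‖x i‖ ^ 2 ≤ ∑ i : Fin (d + 1), (1:ℝ) := by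
            apply Finset.sum_le_sum
            intro i _
            have := hq i
            rw [Real.norm_eq_abs]
            nlinarith [abs_nonneg (x i)]
        _ = (d:ℝ) + 1 := by simp
        _ ≤ ((d:ℝ) + 1) ^ 2 := by
            have : (0:ℝ) ≤ d := Nat.cast_nonneg d
            nlinarith
    calc Real.sqrt (∑ i, ‖x i‖ ^ 2) ≤ Real.sqrt (((d:ℝ) + 1) ^ 2) := Real.sqrt_le_sqrt h5
      _ = (d:ℝ) + 1 := Real.sqrt_sq hd1.le
  · calc ENNReal.ofReal (1 - η) ≤ ENNReal.ofReal ((1 - 4 * δ) ^ (d + 1)) :=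
          ENNReal.ofReal_le_ofReal hbern
      _ = ∫⁻ z, Qi.indicator (fun _ => (1:ℝ≥0∞)) z := by
          rw [lintegral_indicator_const mQi, vQi, one_mul]
      _ ≤ _ := lintegral_mono hge
  · have hle2 : ∀ z, ENNReal.ofReal (f z - {v : E d | f v = 1}.indicator (fun _ => (1:ℝ)) z) ≤
        (Qo \ Qi).indicator (fun _ => (1:ℝ≥0∞)) z := by
      intro z
      by_cases hz : z ∈ Qo \ Qi
      · rw [Set.indicator_of_mem hz, ← ENNReal.ofReal_one]
        apply ENNReal.ofReal_le_ofReal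
        have : 0 ≤ {v : E d | f v = 1}.indicator (fun _ => (1:ℝ)) z :=
          Set.indicator_nonneg (fun _ _ => by norm_num) _
        linarith [hf1 z]
      · have h7 : f z - {v : E d | f v = 1}.indicator (fun _ => (1:ℝ)) z = 0 := by
          by_cases hz2 : z ∈ Qi
          · have h8 := hin z hz2
            rw [Set.indicator_of_mem (show z ∈ {v : E d | f v = 1} from h8), h8, sub_self]
          · have hz3 : z ∉ Qo := fun h => hz ⟨h, hz2⟩
            have h8 := hout z hz3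
            rw [Set.indicator_of_notMem (show z ∉ {v : E d | f v = 1} by
              intro h9
              rw [Set.mem_ofPred_eq, h8] at h9
              norm_num at h9), h8, sub_self]
        rw [h7]
        simp
    calc ∫⁻ z, ENNReal.ofReal (f z - {v : E d | f v = 1}.indicator (fun _ => (1:ℝ)) z)
        ≤ ∫⁻ z, (Qo \ Qi).indicator (fun _ => (1:ℝ≥0∞)) z := lintegral_mono hle2
      _ = volume (Qo \ Qi) := by
          rw [lintegral_indicator_const (mQo.diff mQi), one_mul]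
      _ = 1 - ENNReal.ofReal ((1 - 4 * δ) ^ (d + 1)) := by
          rw [measure_diff hsub mQi.nullMeasurableSet (by rw [vQi]; exact ENNReal.ofReal_ne_top),
            vQo, vQi]
      _ ≤ ENNReal.ofReal η := by
          rw [← ENNReal.ofReal_one, ← ENNReal.ofReal_sub _ (by
            have : 0 ≤ 1 - 4 * δ := by linarith
            positivity)]
          apply ENNReal.ofReal_le_ofReal
          linarith
  · have h9 : ∫ z, f z ^ 2 ≤ ∫ z, Qo.indicator (fun _ => (1:ℝ)) z := by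
      apply integral_mono_of_nonneg
      · exact Eventually.of_forall fun z => by positivity
      · rw [integrable_indicator_iff mQo]
        exact integrableOn_const (by rw [vQo]; exact ENNReal.one_ne_top)
      · refine Eventually.of_forall fun z => ?_
        by_cases hz : z ∈ Qo
        · show f z ^ 2 ≤ Qo.indicator (fun _ => (1:ℝ)) z
          rw [Set.indicator_of_mem hz]
          have := hf0 z
          have := hf1 z
          nlinarith
        · show f z ^ 2 ≤ Qo.indicator (fun _ => (1:ℝ)) z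
          rw [Set.indicator_of_notMem hz, hout z hz]
          norm_num
    refine h9.trans (le_of_eq ?_)
    rw [integral_indicator_const _ mQo, measureReal_def, vQo]
    simp

end Pool.Agent.TH331.RZ
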