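import Mathlib
import Pool.Agent.Helper88.SE.Defs

/-!
# Definitions for the two-term asymptotics of the Riesz energy on spheres (S06241)
-/

set_option autoImplicit false

open MeasureTheory Set Filter Topology
open scoped ENNReal Real FourierTransform

namespace Pool.Agent.TH331.RZ

open Pool.Agent.Helper88.SE

/-- `exp(2 π i ⟨ξ, u⟩)` -/
noncomputable def ex {d : ℕ} (ξ u : E d) : ℂ :=
  Complex.exp (((2 * π * inner ℝ ξ u : ℝ) : ℂ) * Complex.I)

/-- integral against the signed measure `μ - ν` -/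
noncomputable def dI {d : ℕ} {H : Type} [NormedAddCommGroup H] [NormedSpace ℝ H]
    (μ ν : Measure (E d)) (F : E d → H) : H :=
  (∫ u, F u ∂μ) - ∫ u, F u ∂ν

/-- the surface area of `S^d` -/
noncomputable def om (d : ℕ) : ℝ := 2 * π ^ (((d : ℝ) + 1) / 2) / Real.Gamma (((d : ℝ) + 1) / 2)

/-- Riesz energy of a configuration in `ℝ^d` (Euclidean distance in coordinates) -/
noncomputable def EnC (d : ℕ) (s : ℝ) {N : ℕ} (x : Fin N → Fin d → ℝ) : ℝ :=
  ∑ i : Fin N, ∑ j ∈ Finset.univ.erase i,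
    (Real.sqrt (∑ k : Fin d, (x i k - x j k) ^ 2)) ^ (-s)

/-- minimal energy in the unit cube -/
noncomputable def eC (d : ℕ) (s : ℝ) (N : ℕ) : ℝ :=
  ⨅ x : {x : Fin N → Fin d → ℝ // Function.Injective x ∧ ∀ i k, 0 ≤ x i k ∧ x i k ≤ 1},
    EnC d s x.1

end Pool.Agent.TH331.RZ
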