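import Pool.Agent.TH331.RZ.Defs

/-!
# More definitions for S06241 (case `-2 < s < 0`)
-/

set_option autoImplicit false

open MeasureTheory Set Filter Topology
open scoped ENNReal Real FourierTransform

namespace Pool.Agent.TH331.RZ

open Pool.Agent.Helper88.SE

/-- radial shift -/
noncomputable def zsh {d : ℕ} (l l' : ℝ) (t : E d) : E d := t - ((l' - l) / ‖t‖) • t

/-- the counting measure of a configuration, on `E d` -/
noncomputable def muC {d N : ℕ} (y : Fin N → S d) : Measure (E d) :=
  ∑ i, Measure.dirac (y i : E d)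

/-- `N` times the surface measure, on `E d` -/
noncomputable def nuC (d N : ℕ) : Measure (E d) := (N : ℝ≥0∞) • (sg d).map Subtype.val

/-- the mean measure of the cell at `t` -/
noncomputable def mcell (d N : ℕ) (f : E d → ℝ) (l r : ℝ) (t : E d) : Measure (S d) :=
  (N : ℝ≥0∞) • ((sg d).withDensity
    (fun u => ENNReal.ofReal (f (l • (u : E d) - zsh l (l / r) t)))).map (psi (nrm t) r)

/-- the local energy at scale `lam`, position `z` -/
noncomputable def locE {d : ℕ} {H : Type} [NormedAddCommGroup H] [InnerProductSpace ℝ H]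
    (Φ : E d → H) (f : E d → ℝ) (a κ : ℝ) (μ ν : Measure (E d)) (lam : ℝ) (z : E d) : ℝ :=
  2 * ‖dI μ ν (fun u => f (lam • u - z) • (Φ u - Φ (lam⁻¹ • z)))‖ ^ 2
    + κ * lam ^ (-a) * (dI μ ν (fun u => f (lam • u - z))) ^ 2

end Pool.Agent.TH331.RZ
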