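import Pool.Agent.TH331.RZ.Defs

set_option autoImplicit false

open MeasureTheory Set Filter Topology
open scoped ENNReal Real FourierTransform ContDiff

namespace Pool.Agent.TH331.RZ

open Pool.Agent.Helper88.SE

theorem geo_le {x : ℝ} (hx0 : 0 ≤ x) (hx1 : x < 1) (n : ℕ) :
    ∑ k ∈ Finset.range n, x ^ k ≤ 1 / (1 - x) := by
  have h := geom_sum_lt_of_lt_one_aux hx0 hx1 n
  exact h
where
  geom_sum_lt_of_lt_one_aux {x : ℝ} (hx0 : 0 ≤ x) (hx1 : x < 1) (n : ℕ) :
      ∑ k ∈ Finset.range n, x ^ k ≤ 1 / (1 - x) := by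
    have h1 : Summable (fun k : ℕ => x ^ k) := summable_geometric_of_lt_one hx0 hx1
    have h2 := h1.sum_le_tsum (Finset.range n) (fun k _ => pow_nonneg hx0 k)
    rw [tsum_geometric_of_lt_one hx0 hx1] at h2
    rw [one_div]
    exact h2

/-- dyadic sum -/
theorem dyad (q r : ℝ) (hq : 0 < q) (hr : 0 < r) (s : ℝ) (hs : 0 < s) (K : ℕ) :
    ∑ k ∈ Finset.range K, min ((s / 2 ^ k) ^ q) ((s / 2 ^ k) ^ (-r)) ≤
      1 / (1 - (2:ℝ) ^ (-q)) + 1 / (1 - (2:ℝ) ^ (-r)) := by
  have hq1 : (2:ℝ) ^ (-q) < 1 := Real.rpow_lt_one_of_one_lt_of_neg (by norm_num) (by linarith)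
  have hr1 : (2:ℝ) ^ (-r) < 1 := Real.rpow_lt_one_of_one_lt_of_neg (by norm_num) (by linarith)
  have hq0 : 0 < (2:ℝ) ^ (-q) := by positivity
  have hr0 : 0 < (2:ℝ) ^ (-r) := by positivity
  -- first index with s / 2^k ≤ 1
  have hex : ∃ k : ℕ, s / 2 ^ k ≤ 1 := by
    obtain ⟨k, hk⟩ := pow_unbounded_of_one_lt s (by norm_num : (1:ℝ) < 2)
    exact ⟨k, by rw [div_le_one (by positivity)]; exact hk.le⟩
  classical
  set j := Nat.find hex with hj
  have hj1 : s / 2 ^ j ≤ 1 := Nat.find_spec hex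
  have hj2 : ∀ k < j, 1 < s / 2 ^ k := fun k hk => not_le.1 (Nat.find_min hex hk)
  have hterm : ∀ k : ℕ, 0 < s / 2 ^ k := fun k => by positivity
  -- split
  have hsplit : ∑ k ∈ Finset.range K, min ((s / 2 ^ k) ^ q) ((s / 2 ^ k) ^ (-r)) ≤
      ∑ k ∈ Finset.range j, (s / 2 ^ k) ^ (-r) +
      ∑ k ∈ Finset.Ico j (max K j), (s / 2 ^ k) ^ q := by
    calc ∑ k ∈ Finset.range K, min ((s / 2 ^ k) ^ q) ((s / 2 ^ k) ^ (-r))
        ≤ ∑ k ∈ Finset.range (max K j), min ((s / 2 ^ k) ^ q) ((s / 2 ^ k) ^ (-r)) := by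
          apply Finset.sum_le_sum_of_subset_of_nonneg
          · intro k hk
            rw [Finset.mem_range] at hk ⊢
            exact lt_of_lt_of_le hk (le_max_left _ _)
          · intro k _ _
            have := hterm k
            positivity
      _ = ∑ k ∈ Finset.range j, min ((s / 2 ^ k) ^ q) ((s / 2 ^ k) ^ (-r)) +
          ∑ k ∈ Finset.Ico j (max K j), min ((s / 2 ^ k) ^ q) ((s / 2 ^ k) ^ (-r)) :=
          (Finset.sum_range_add_sum_Ico _ (le_max_right _ _)).symm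
      _ ≤ _ := by
          apply add_le_add
          · exact Finset.sum_le_sum fun k _ => min_le_right _ _
          · exact Finset.sum_le_sum fun k _ => min_le_left _ _
  refine hsplit.trans ?_
  rw [add_comm]
  apply add_le_add
  · calc ∑ k ∈ Finset.Ico j (max K j), (s / 2 ^ k) ^ q
        = ∑ k ∈ Finset.range (max K j - j), (s / 2 ^ (j + k)) ^ q := by
          rw [Finset.sum_Ico_eq_sum_range]
      _ ≤ ∑ k ∈ Finset.range (max K j - j), ((2:ℝ) ^ (-q)) ^ k := by
          apply Finset.sum_le_sum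
          intro k _
          have e1 : s / 2 ^ (j + k) = (s / 2 ^ j) * (1 / 2 ^ k) := by
            rw [pow_add]; field_simp
          rw [e1, Real.mul_rpow (hterm j).le (by positivity)]
          have e2 : ((1:ℝ) / 2 ^ k) ^ q = ((2:ℝ) ^ (-q)) ^ k := by
            rw [one_div, Real.inv_rpow (by positivity), ← Real.rpow_natCast, ← Real.rpow_natCast,
              ← Real.rpow_mul (by norm_num), ← Real.rpow_mul (by norm_num),
              ← Real.rpow_neg (by norm_num)]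
            congr 1; ring
          rw [e2]
          have e3 : (s / 2 ^ j) ^ q ≤ 1 := Real.rpow_le_one (hterm j).le hj1 hq.le
          calc (s / 2 ^ j) ^ q * ((2:ℝ) ^ (-q)) ^ k ≤ 1 * ((2:ℝ) ^ (-q)) ^ k :=
                mul_le_mul_of_nonneg_right e3 (by positivity)
            _ = _ := one_mul _
      _ ≤ _ := geo_le hq0.le hq1 _
  · calc ∑ k ∈ Finset.range j, (s / 2 ^ k) ^ (-r)
        ≤ ∑ k ∈ Finset.range j, ((2:ℝ) ^ (-r)) ^ (j - 1 - k) := by
          apply Finset.sum_le_sum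
          intro k hk
          rw [Finset.mem_range] at hk
          have hk1 : 1 < s / 2 ^ (j - 1) := hj2 (j - 1) (by omega)
          have e1 : s / 2 ^ k = (s / 2 ^ (j - 1)) * 2 ^ (j - 1 - k) := by
            have : (2:ℝ) ^ (j - 1) = 2 ^ k * 2 ^ (j - 1 - k) := by
              rw [← pow_add]; congr 1; omega
            rw [this]; field_simp
          rw [e1, Real.mul_rpow (hterm _).le (by positivity)]
          have e2 : ((2:ℝ) ^ (j - 1 - k)) ^ (-r) = ((2:ℝ) ^ (-r)) ^ (j - 1 - k) := by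
            rw [← Real.rpow_natCast, ← Real.rpow_natCast, ← Real.rpow_mul (by norm_num),
              ← Real.rpow_mul (by norm_num)]
            congr 1; ring
          rw [e2]
          have e3 : (s / 2 ^ (j - 1)) ^ (-r) ≤ 1 :=
            Real.rpow_le_one_of_one_le_of_nonpos hk1.le (by linarith)
          calc (s / 2 ^ (j - 1)) ^ (-r) * ((2:ℝ) ^ (-r)) ^ (j - 1 - k)
              ≤ 1 * ((2:ℝ) ^ (-r)) ^ (j - 1 - k) :=
                mul_le_mul_of_nonneg_right e3 (by positivity)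
            _ = _ := one_mul _
      _ = ∑ k ∈ Finset.range j, ((2:ℝ) ^ (-r)) ^ k :=
          Finset.sum_range_reflect (fun k => ((2:ℝ) ^ (-r)) ^ k) j
      _ ≤ _ := geo_le hr0.le hr1 _

theorem dyad2 (d : ℕ) (a : ℝ) (ha : 0 < a) (ha2 : a < 2) :
    ∃ C : ℝ, 0 ≤ C ∧ ∀ (l0 : ℝ), 0 < l0 → ∀ (K : ℕ) (t : ℝ), 0 < t →
      ∑ k ∈ Finset.range K, (2 ^ k * l0) ^ (-((d:ℝ) + 1) - a) *
        (1 + (2 ^ k * l0)⁻¹ * t) ^ (-(((d + 3 : ℕ) : ℝ))) ≤ C * t ^ (-((d:ℝ) + 1) - a) := by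
  have hd : (0:ℝ) ≤ d := Nat.cast_nonneg d
  have hq : 0 < (d:ℝ) + 1 + a := by linarith
  have hr : 0 < 2 - a := by linarith
  refine ⟨1 / (1 - (2:ℝ) ^ (-((d:ℝ) + 1 + a))) + 1 / (1 - (2:ℝ) ^ (-(2 - a))), ?_, ?_⟩
  · have hq1 : (2:ℝ) ^ (-((d:ℝ) + 1 + a)) < 1 :=
      Real.rpow_lt_one_of_one_lt_of_neg (by norm_num) (by linarith)
    have hr1 : (2:ℝ) ^ (-(2 - a)) < 1 :=
      Real.rpow_lt_one_of_one_lt_of_neg (by norm_num) (by linarith)
    have h1 : 0 < 1 - (2:ℝ) ^ (-((d:ℝ) + 1 + a)) := by linarith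
    have h2 : 0 < 1 - (2:ℝ) ^ (-(2 - a)) := by linarith
    positivity
  · intro l0 hl0 K t ht
    have h := dyad ((d:ℝ) + 1 + a) (2 - a) hq hr (t / l0) (by positivity) K
    calc ∑ k ∈ Finset.range K, (2 ^ k * l0) ^ (-((d:ℝ) + 1) - a) *
        (1 + (2 ^ k * l0)⁻¹ * t) ^ (-(((d + 3 : ℕ) : ℝ)))
        ≤ ∑ k ∈ Finset.range K, t ^ (-((d:ℝ) + 1) - a) *
          min ((t / l0 / 2 ^ k) ^ ((d:ℝ) + 1 + a)) ((t / l0 / 2 ^ k) ^ (-(2 - a))) := by
          apply Finset.sum_le_sum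
          intro k _
          set x : ℝ := t / l0 / 2 ^ k with hx
          have hx0 : 0 < x := by positivity
          have e1 : (2 ^ k * l0)⁻¹ * t = x := by
            rw [hx]; field_simp
          have e2 : (2 ^ k * l0 : ℝ) = t * x⁻¹ := by
            rw [hx]; field_simp
          rw [e1, e2, Real.mul_rpow ht.le (by positivity), mul_assoc]
          apply mul_le_mul_of_nonneg_left _ (by positivity)
          have e3 : x⁻¹ ^ (-((d:ℝ) + 1) - a) = x ^ ((d:ℝ) + 1 + a) := by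
            rw [Real.inv_rpow hx0.le, ← Real.rpow_neg hx0.le]
            congr 1; ring
          rw [e3]
          apply le_min
          · have : (1 + x) ^ (-(((d + 3 : ℕ) : ℝ))) ≤ 1 :=
              Real.rpow_le_one_of_one_le_of_nonpos (by linarith) (by
                have : (0:ℝ) ≤ ((d + 3 : ℕ) : ℝ) := Nat.cast_nonneg _
                linarith)
            calc x ^ ((d:ℝ) + 1 + a) * (1 + x) ^ (-(((d + 3 : ℕ) : ℝ)))
                ≤ x ^ ((d:ℝ) + 1 + a) * 1 := mul_le_mul_of_nonneg_left this (by positivity)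
              _ = _ := mul_one _
          · have : (1 + x) ^ (-(((d + 3 : ℕ) : ℝ))) ≤ x ^ (-(((d + 3 : ℕ) : ℝ))) :=
              Real.rpow_le_rpow_of_nonpos hx0 (by linarith) (by
                have : (0:ℝ) ≤ ((d + 3 : ℕ) : ℝ) := Nat.cast_nonneg _
                linarith)
            calc x ^ ((d:ℝ) + 1 + a) * (1 + x) ^ (-(((d + 3 : ℕ) : ℝ)))
                ≤ x ^ ((d:ℝ) + 1 + a) * x ^ (-(((d + 3 : ℕ) : ℝ))) :=
                  mul_le_mul_of_nonneg_left this (by positivity)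
              _ = x ^ (-(2 - a)) := by
                  rw [← Real.rpow_add hx0]
                  congr 1
                  push_cast
                  ring
      _ = t ^ (-((d:ℝ) + 1) - a) * ∑ k ∈ Finset.range K,
          min ((t / l0 / 2 ^ k) ^ ((d:ℝ) + 1 + a)) ((t / l0 / 2 ^ k) ^ (-(2 - a))) := by
          rw [Finset.mul_sum]
      _ ≤ t ^ (-((d:ℝ) + 1) - a) * _ := mul_le_mul_of_nonneg_left h (by positivity)
      _ = _ := mul_comm _ _

end Pool.Agent.TH331.RZ
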