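import Pool.Agent.TH331.RZ.Loc2
import Pool.Agent.TH331.RZ.Loc3

set_option autoImplicit false

open MeasureTheory Set Filter Topology
open scoped ENNReal Real FourierTransform ContDiff

namespace Pool.Agent.TH331.RZ

open Pool.Agent.Helper88.SE

theorem feat_cont {d : ℕ} {a : ℝ} (ha : 0 < a)
    {H : Type} [NormedAddCommGroup H] [InnerProductSpace ℝ H]
    (Φ : E d → H) (hΦ : ∀ u v, ‖Φ u - Φ v‖ ^ 2 = ‖u - v‖ ^ a) : Continuous Φ := by
  rw [continuous_iff_continuousAt]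
  intro u
  rw [ContinuousAt, tendsto_iff_norm_sub_tendsto_zero]
  have h1 : ∀ v, ‖Φ v - Φ u‖ = Real.sqrt (‖v - u‖ ^ a) := by
    intro v
    rw [← hΦ, Real.sqrt_sq (norm_nonneg _)]
  simp_rw [h1]
  have h2 : Continuous (fun v : E d => Real.sqrt (‖v - u‖ ^ a)) := by
    apply Real.continuous_sqrt.comp
    exact (Real.continuous_rpow_const ha.le).comp (by fun_prop)
  have h3 := h2.tendsto u
  simp only [sub_self, norm_zero, Real.zero_rpow ha.ne', Real.sqrt_zero] at h3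
  exact h3

theorem schwartz_sq_decay {d : ℕ} (F : SchwartzMap (E d) ℂ) (k : ℕ) :
    ∃ C : ℝ, 0 ≤ C ∧ ∀ x : E d, ‖F x‖ ^ 2 ≤ C * (1 + ‖x‖) ^ (-(k:ℝ)) := by
  have h := SchwartzMap.one_add_le_sup_seminorm_apply (𝕜 := ℝ) (m := (k, 0)) (k := k) (n := 0)
    le_rfl le_rfl F
  obtain ⟨C, hC⟩ : ∃ C : ℝ, ∀ x : E d, (1 + ‖x‖) ^ k * ‖F x‖ ≤ C := by
    obtain ⟨C, hC⟩ : ∃ C : ℝ, ∀ x : E d, (1 + ‖x‖) ^ k * ‖iteratedFDeriv ℝ 0 F x‖ ≤ C := ⟨_, h⟩
    refine ⟨C, fun x => ?_⟩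
    have := hC x
    rw [norm_iteratedFDeriv_zero] at this
    exact this
  have hC0 : 0 ≤ C := le_trans (by positivity) (hC 0)
  refine ⟨C * C, by positivity, fun x => ?_⟩
  have h1 : 0 < (1 + ‖x‖) := by positivity
  have h2 : ‖F x‖ ≤ C * (1 + ‖x‖) ^ (-(k:ℝ)) := by
    rw [Real.rpow_neg h1.le, Real.rpow_natCast, ← div_eq_mul_inv, le_div_iff₀ (by positivity)]
    have := hC x
    linarith
  have h3 : ‖F x‖ ≤ C := by
    have h4 : (1:ℝ) ≤ (1 + ‖x‖) ^ k := one_le_pow₀ (by linarith [norm_nonneg x])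
    have := hC x
    nlinarith [norm_nonneg (F x)]
  calc ‖F x‖ ^ 2 = ‖F x‖ * ‖F x‖ := by ring
    _ ≤ C * (C * (1 + ‖x‖) ^ (-(k:ℝ))) := by
        apply mul_le_mul h3 h2 (norm_nonneg _) hC0
    _ = _ := by ring

theorem num_scale (d : ℕ)
    (f : E d → ℝ) (fC F : SchwartzMap (E d) ℂ) (hF : 𝓕 fC = F) (hfC : ∀ x, fC x = (f x : ℂ))
    (μ ν : Measure (E d)) [IsFiniteMeasure μ] [IsFiniteMeasure ν]
    (lam : ℝ) (hl : 0 < lam) :
    ∫⁻ z : E d, ENNReal.ofReal ((dI μ ν (fun u => f (lam • u - z))) ^ 2) =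
      ∫⁻ ζ : E d, ENNReal.ofReal (lam ^ (-((d:ℝ) + 1)) * ‖F (-(lam⁻¹ • ζ))‖ ^ 2 *
        ‖dI μ ν (fun u => ex ζ u)‖ ^ 2) := by
  have h := fixed_freq d fC μ ν lam hl 0 1 0
  rw [hF] at h
  have hex0 : ∀ u : E d, ex 0 u = 1 := by
    intro u
    simp [ex]
  have h1 : ∀ z : E d, ‖dI μ ν (fun u => fC (lam • u - z) * (1 * ex 0 u - 0 * ex 0 (lam⁻¹ • z)))‖ ^ 2
      = (dI μ ν (fun u => f (lam • u - z))) ^ 2 := by
    intro z
    have e1 : dI μ ν (fun u => fC (lam • u - z) * (1 * ex 0 u - 0 * ex 0 (lam⁻¹ • z))) =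
        ((dI μ ν (fun u => f (lam • u - z)) : ℝ) : ℂ) := by
      unfold dI
      simp only [hfC, hex0, mul_one, one_mul, zero_mul, sub_zero]
      rw [integral_complex_ofReal, integral_complex_ofReal]
      push_cast
      rfl
    rw [e1, Complex.norm_real, Real.norm_eq_abs, sq_abs]
  simp_rw [h1] at h
  rw [h]
  have hex := ex_cont d
  have hnum : Measurable (fun ζ : E d => ‖dI μ ν (fun u => ex ζ u)‖ ^ 2) := by
    apply Measurable.pow_const
    apply Measurable.norm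
    apply StronglyMeasurable.measurable
    apply dI_meas μ ν (fun (ζ : E d) (u : E d) => ex ζ u)
    exact hex.stronglyMeasurable
  have hFc : Continuous F := F.continuous
  set G : E d → ℝ≥0∞ := fun η => ENNReal.ofReal
      (‖F (-η)‖ ^ 2 * ‖dI μ ν (fun u => ex (lam • η) u)‖ ^ 2) with hG
  have hGm : Measurable G := by
    apply Measurable.ennreal_ofReal
    apply Measurable.mul
    · have : Continuous (fun η : E d => ‖F (-η)‖ ^ 2) := by fun_prop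
      exact this.measurable
    · exact hnum.comp (by fun_prop : Measurable (fun η : E d => lam • η))
  have h2 : ∀ η : E d, ENNReal.ofReal
      (‖1 * F (-η) - 0 * F (lam⁻¹ • (0 : E d) - η)‖ ^ 2 *
        ‖dI μ ν (fun u => ex (lam • η - 0) u)‖ ^ 2) = G η := by
    intro η
    simp only [hG, one_mul, zero_mul, sub_zero]
  simp_rw [h2]
  have e2 := lint_smul d lam⁻¹ (inv_pos.2 hl) G hGm
  have e3 : ∀ ζ : E d, G (lam⁻¹ • ζ) = ENNReal.ofReal
      (‖F (-(lam⁻¹ • ζ))‖ ^ 2 * ‖dI μ ν (fun u => ex ζ u)‖ ^ 2) := by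
    intro ζ
    simp only [hG]
    rw [smul_smul, mul_inv_cancel₀ hl.ne', one_smul]
  have e4 : ∫⁻ η : E d, G η = ENNReal.ofReal (lam ^ (-((d:ℝ) + 1))) *
      ∫⁻ ζ : E d, G (lam⁻¹ • ζ) := by
    rw [e2, ← mul_assoc, ← ENNReal.ofReal_mul (by positivity)]
    have : lam ^ (-((d:ℝ) + 1)) * lam⁻¹ ^ (-((d:ℝ) + 1)) = 1 := by
      rw [Real.inv_rpow hl.le, mul_inv_cancel₀]
      exact (Real.rpow_pos_of_pos hl _).ne'
    rw [this, ENNReal.ofReal_one, one_mul]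
  rw [e4, ← lintegral_const_mul' _ _ ENNReal.ofReal_ne_top]
  refine lintegral_congr fun ζ => ?_
  rw [e3, ← ENNReal.ofReal_mul (by positivity)]
  congr 1
  ring


end Pool.Agent.TH331.RZ
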