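import Pool.Agent.TH331.RZ.Defs2
import Pool.Agent.TH331.RZ.Loc4
import Pool.Agent.Helper88.SE.P_radial
import Pool.Agent.Helper88.SE.P_sg_prob

set_option autoImplicit false

open MeasureTheory Set Filter Topology
open scoped ENNReal Real FourierTransform ContDiff

namespace Pool.Agent.TH331.RZ

open Pool.Agent.Helper88.SE

section
variable {d : ℕ} {H : Type} [NormedAddCommGroup H] [InnerProductSpace ℝ H] [CompleteSpace H]

theorem muC_int {N : ℕ} (y : Fin N → S d) (F : E d → H) :
    ∫ u, F u ∂(muC y) = ∑ i, F (y i) := by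
  unfold muC
  rw [integral_finset_sum_measure]
  · refine Finset.sum_congr rfl fun i _ => ?_
    rw [integral_dirac]
  · intro i _
    exact integrable_dirac (by simp)

theorem nuC_int (N : ℕ) (F : E d → H) :
    ∫ u, F u ∂(nuC d N) = (N:ℝ) • ∫ u : S d, F u ∂(sg d) := by
  unfold nuC
  rw [integral_smul_measure]
  rw [(MeasurableEmbedding.subtype_coe
    (Metric.isClosed_sphere (x := (0 : E d)) (ε := 1)).measurableSet).integral_map]
  simp

theorem dI_mn {N : ℕ} (y : Fin N → S d) (F : E d → H) :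
    dI (muC y) (nuC d N) F = (∑ i, F (y i)) - (N:ℝ) • ∫ u : S d, F u ∂(sg d) := by
  unfold dI
  rw [muC_int, nuC_int]

instance muC_fin {N : ℕ} (y : Fin N → S d) : IsFiniteMeasure (muC y) := by
  unfold muC
  infer_instance

instance nuC_fin (N : ℕ) : IsFiniteMeasure (nuC d N) := by
  have := sg_prob d
  have h1 : IsFiniteMeasure ((sg d).map (Subtype.val : S d → E d)) :=
    Measure.isFiniteMeasure_map _ _
  constructor
  unfold nuC
  rw [Measure.smul_apply, smul_eq_mul]
  exact ENNReal.mul_lt_top (ENNReal.natCast_lt_top N) (measure_lt_top _ _)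

theorem muC_univ {N : ℕ} (y : Fin N → S d) : muC y univ = N := by
  unfold muC
  rw [Measure.finset_sum_apply]
  simp

theorem nuC_univ (N : ℕ) : nuC d N univ = N := by
  have := sg_prob d
  unfold nuC
  rw [Measure.smul_apply, Measure.map_apply measurable_subtype_coe MeasurableSet.univ]
  simp

theorem muC_ball {N : ℕ} (y : Fin N → S d) : muC y (Metric.closedBall 0 1)ᶜ = 0 := by
  unfold muC
  rw [Measure.finset_sum_apply]
  refine Finset.sum_eq_zero fun i _ => ?_
  rw [Measure.dirac_apply' _ Metric.isClosed_closedBall.measurableSet.compl]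
  apply Set.indicator_of_notMem
  simp

theorem nuC_ball (N : ℕ) : nuC d N (Metric.closedBall 0 1)ᶜ = 0 := by
  unfold nuC
  rw [Measure.smul_apply, Measure.map_apply measurable_subtype_coe
    Metric.isClosed_closedBall.measurableSet.compl]
  have : (Subtype.val ⁻¹' (Metric.closedBall (0 : E d) 1)ᶜ : Set (S d)) = ∅ := by
    ext u
    simp
  rw [this]
  simp

/-- the kernel form of the energy -/
theorem energy_kernel {a : ℝ} (ha : 0 < a) (Φ : E d → H)
    (hΦ : ∀ u v, ‖Φ u - Φ v‖ ^ 2 = ‖u - v‖ ^ a) {N : ℕ} (y : Fin N → S d) :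
    2 * ‖(∑ i, Φ (y i)) - (N:ℝ) • ∫ u : S d, Φ u ∂(sg d)‖ ^ 2 =
      (N:ℝ) ^ 2 * Ic d (-a) - ∑ i, ∑ j, dist (y i) (y j) ^ a := by
  have hsg := sg_prob d
  have hΦc : Continuous Φ := feat_cont ha Φ hΦ
  have hΦs : Continuous (fun u : S d => Φ u) := hΦc.comp continuous_subtype_val
  have hint : Integrable (fun u : S d => Φ u) (sg d) := hΦs.integrable_of_hasCompactSupport
    (HasCompactSupport.of_compactSpace _)
  set g : S d → ℝ := fun u => ‖Φ u‖ ^ 2 with hg
  have hgc : Continuous g := by fun_prop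
  have hgi : Integrable g (sg d) := hgc.integrable_of_hasCompactSupport
    (HasCompactSupport.of_compactSpace _)
  have hin : ∀ u v : S d, 2 * inner ℝ (Φ u) (Φ v) = g u + g v - dist u v ^ a := by
    intro u v
    have h1 := hΦ (u : E d) (v : E d)
    rw [@norm_sub_sq_real] at h1
    have h2 : dist u v = ‖(u : E d) - (v : E d)‖ := by rw [Subtype.dist_eq, dist_eq_norm]
    rw [h2, ← h1]
    simp only [hg]
    ring
  have hdc : ∀ u : S d, Integrable (fun v : S d => dist u v ^ a) (sg d) := by
    intro u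
    have : Continuous (fun v : S d => dist u v ^ a) :=
      (Real.continuous_rpow_const ha.le).comp (by fun_prop)
    exact this.integrable_of_hasCompactSupport (HasCompactSupport.of_compactSpace _)
  have hI : ∀ u : S d, ∫ v : S d, dist u v ^ a ∂(sg d) = Ic d (-a) := by
    intro u
    have h1 : ∀ w : S d, ∫ v : S d, dist w v ^ a ∂(sg d) = ∫ v : S d, dist u v ^ a ∂(sg d) := by
      intro w
      have hr := radial d (fun t => ENNReal.ofReal (t ^ a))
        ((Real.continuous_rpow_const ha.le).measurable.ennreal_ofReal) w u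
      rw [← ofReal_integral_eq_lintegral_ofReal (hdc w)
          (Eventually.of_forall fun v => by positivity),
        ← ofReal_integral_eq_lintegral_ofReal (hdc u)
          (Eventually.of_forall fun v => by positivity)] at hr
      have n1 : 0 ≤ ∫ v : S d, dist w v ^ a ∂(sg d) := integral_nonneg fun v => by positivity
      have n2 : 0 ≤ ∫ v : S d, dist u v ^ a ∂(sg d) := integral_nonneg fun v => by positivity
      exact (ENNReal.ofReal_eq_ofReal_iff n1 n2).1 hr
    unfold Ic K
    simp only [neg_neg]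
    simp_rw [h1]
    simp
  -- inner products with the mean
  set m : H := ∫ u : S d, Φ u ∂(sg d) with hm
  set gb : ℝ := ∫ u : S d, g u ∂(sg d) with hgb
  have hm1 : ∀ u : S d, 2 * inner ℝ (Φ u) m = g u + gb - Ic d (-a) := by
    intro u
    have h1 : inner ℝ (Φ u) m = ∫ v : S d, inner ℝ (Φ u) (Φ v) ∂(sg d) := by
      rw [hm, ← integral_inner hint]
    rw [h1, ← integral_const_mul]
    simp_rw [hin]
    have i1 : Integrable (fun v : S d => g u + g v) (sg d) := (integrable_const _).add hgi
    rw [integral_sub i1 (hdc u), integral_add (integrable_const _) hgi, hI]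
    simp [hgb]
  have hm2 : 2 * inner ℝ m m = 2 * gb - Ic d (-a) := by
    have h1 : inner ℝ m m = ∫ v : S d, inner ℝ m (Φ v) ∂(sg d) := by
      rw [← integral_inner hint]
    rw [h1, ← integral_const_mul]
    have h2 : ∀ v : S d, 2 * inner ℝ m (Φ v) = g v + gb - Ic d (-a) := by
      intro v
      rw [real_inner_comm, hm1]
    simp_rw [h2]
    have i1 : Integrable (fun v : S d => g v + gb) (sg d) := hgi.add (integrable_const _)
    rw [integral_sub i1 (integrable_const _), integral_add hgi (integrable_const _)]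
    simp
    ring
  have e1 : ‖∑ i, Φ (y i)‖ ^ 2 = ∑ i, ∑ j, inner ℝ (Φ (y i)) (Φ (y j)) := by
    rw [← real_inner_self_eq_norm_sq, sum_inner]
    refine Finset.sum_congr rfl fun i _ => ?_
    rw [inner_sum]
  have e2 : 2 * ‖∑ i, Φ (y i)‖ ^ 2 =
      2 * (N:ℝ) * (∑ i, g (y i)) - ∑ i, ∑ j, dist (y i) (y j) ^ a := by
    have k1 : ∀ i, 2 * ∑ j, inner ℝ (Φ (y i)) (Φ (y j)) =
        N * g (y i) + ∑ j, g (y j) - ∑ j, dist (y i) (y j) ^ a := by
      intro i
      rw [Finset.mul_sum]
      simp_rw [hin]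
      rw [Finset.sum_sub_distrib, Finset.sum_add_distrib]
      simp only [Finset.sum_const, Finset.card_univ, Fintype.card_fin, nsmul_eq_mul]
    rw [e1, Finset.mul_sum]
    simp_rw [k1]
    rw [Finset.sum_sub_distrib, Finset.sum_add_distrib]
    simp only [Finset.sum_const, Finset.card_univ, Fintype.card_fin, nsmul_eq_mul]
    rw [← Finset.mul_sum]
    ring
  have e3 : 2 * inner ℝ (∑ i, Φ (y i)) m = (∑ i, g (y i)) + N * (gb - Ic d (-a)) := by
    rw [sum_inner, Finset.mul_sum]
    simp_rw [hm1]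
    rw [Finset.sum_sub_distrib, Finset.sum_add_distrib]
    simp only [Finset.sum_const, Finset.card_univ, Fintype.card_fin, nsmul_eq_mul]
    ring
  rw [@norm_sub_sq_real, inner_smul_right, norm_smul, mul_pow]
  have e4 : ‖m‖ ^ 2 = inner ℝ m m := (real_inner_self_eq_norm_sq m).symm
  rw [e4]
  have e5 : ‖(N:ℝ)‖ ^ 2 = (N:ℝ) ^ 2 := by rw [Real.norm_eq_abs, sq_abs]
  rw [e5]
  linear_combination e2 - 2 * N * e3 + (N:ℝ) ^ 2 * hm2

theorem energy_rot {a : ℝ} (ha : 0 < a) (Φ : E d → H)
    (hΦ : ∀ u v, ‖Φ u - Φ v‖ ^ 2 = ‖u - v‖ ^ a) {N : ℕ} (y : Fin N → S d) (g : Iso d) :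
    ‖dI (muC (fun i => rot g (y i))) (nuC d N) Φ‖ ^ 2 = ‖dI (muC y) (nuC d N) Φ‖ ^ 2 := by
  rw [dI_mn, dI_mn]
  have h1 := energy_kernel ha Φ hΦ y
  have h2 := energy_kernel ha Φ hΦ (fun i => rot g (y i))
  have h3 : ∀ i j, dist (rot g (y i)) (rot g (y j)) = dist (y i) (y j) := by
    intro i j
    rw [Subtype.dist_eq, Subtype.dist_eq]
    exact g.dist_map _ _
  simp_rw [h3] at h2
  linarith

end

end Pool.Agent.TH331.RZ
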