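import Pool.Agent.TH331.RZ.Defs
import Pool.Agent.Helper88.SE.P_inj_exists

set_option autoImplicit false

open MeasureTheory Set Filter Topology
open scoped ENNReal Real

namespace Pool.Agent.TH331.RZ

open Pool.Agent.Helper88.SE

/-- off-diagonal energy on the sphere -/
noncomputable def EnS {d : ℕ} (s : ℝ) {N : ℕ} (y : Fin N → S d) : ℝ :=
  ∑ i, ∑ j ∈ Finset.univ.erase i, dist (y i) (y j) ^ (-s)

/-- the configurations of the frozen statement -/
abbrev Cf (d N : ℕ) := {x : Fin N → Fin (d+1) → ℝ //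
              Function.Injective x ∧ ∀ i, ∑ k : Fin (d+1), (x i k) ^ 2 = 1}

/-- injective configurations on the sphere -/
abbrev Cs (d N : ℕ) := {y : Fin N → S d // Function.Injective y}

/-- the energy of the frozen statement -/
noncomputable def EnF {d : ℕ} (s : ℝ) {N : ℕ} (x : Fin N → Fin (d+1) → ℝ) : ℝ :=
  ∑ i : Fin N, ∑ j ∈ Finset.univ.erase i,
    (Real.sqrt (∑ k : Fin (d+1), (x i k - x j k) ^ 2)) ^ (-s)

theorem mem_sph {d : ℕ} (v : Fin (d+1) → ℝ) (hv : ∑ k, (v k) ^ 2 = 1) :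
    (WithLp.toLp 2 v : E d) ∈ Metric.sphere (0 : E d) 1 := by
  rw [mem_sphere_zero_iff_norm, EuclideanSpace.norm_eq]
  simp [hv]

theorem sph_sum {d : ℕ} (u : S d) : ∑ k, ((u : E d) k) ^ 2 = 1 := by
  have h := mem_sphere_zero_iff_norm.1 u.2
  rw [EuclideanSpace.norm_eq] at h
  have h2 : ∑ k, ‖(u : E d) k‖ ^ 2 = 1 := by
    have := congrArg (fun t => t ^ 2) h
    simp only [one_pow] at this
    rw [Real.sq_sqrt (Finset.sum_nonneg fun _ _ => by positivity)] at this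
    exact this
  simpa using h2

/-- the equivalence -/
noncomputable def cfEquiv (d N : ℕ) : Cf d N ≃ Cs d N where
  toFun x := ⟨fun i => ⟨WithLp.toLp 2 (x.1 i), mem_sph _ (x.2.2 i)⟩, by
    intro i j h
    apply x.2.1
    have h1 := congrArg Subtype.val h
    exact (WithLp.toLp_injective 2) h1⟩
  invFun y := ⟨fun i => WithLp.ofLp (y.1 i : E d), by
    constructor
    · intro i j h
      apply y.2
      apply Subtype.ext
      exact (WithLp.ofLp_injective 2) h
    · intro i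
      exact sph_sum (y.1 i)⟩
  left_inv x := by
    apply Subtype.ext
    rfl
  right_inv y := by
    apply Subtype.ext
    rfl

theorem EnF_eq {d N : ℕ} (s : ℝ) (x : Cf d N) : EnF s x.1 = EnS s (cfEquiv d N x).1 := by
  unfold EnF EnS
  refine Finset.sum_congr rfl fun i _ => Finset.sum_congr rfl fun j _ => ?_
  congr 1
  rw [Subtype.dist_eq, EuclideanSpace.dist_eq]
  congr 1
  refine Finset.sum_congr rfl fun k _ => ?_
  rw [Real.dist_eq, sq_abs]
  rfl

theorem inf_eq (d N : ℕ) (s : ℝ) :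
    (⨅ x : Cf d N, EnF s x.1) = ⨅ y : Cs d N, EnS s y.1 := by
  apply (cfEquiv d N).iInf_congr
  intro x
  exact (EnF_eq s x).symm

theorem sup_eq (d N : ℕ) (s : ℝ) :
    (⨆ x : Cf d N, EnF s x.1) = ⨆ y : Cs d N, EnS s y.1 := by
  apply (cfEquiv d N).iSup_congr
  intro x
  exact (EnF_eq s x).symm

theorem Cs_nonempty (d : ℕ) (hd : 1 ≤ d) (N : ℕ) : Nonempty (Cs d N) := by
  obtain ⟨y, hy⟩ := inj_exists d hd N
  exact ⟨⟨y, hy⟩⟩

theorem EnS_nonneg {d N : ℕ} (s : ℝ) (y : Fin N → S d) : 0 ≤ EnS s y :=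
  Finset.sum_nonneg fun _ _ => Finset.sum_nonneg fun _ _ => by positivity

theorem EnS_eq_En {d N : ℕ} (s : ℝ) (hs : s ≠ 0) (y : Fin N → S d) : EnS s y = En s y := by
  unfold EnS En K
  refine Finset.sum_congr rfl fun i _ => ?_
  rw [← Finset.add_sum_erase Finset.univ _ (Finset.mem_univ i), dist_self,
    Real.zero_rpow (neg_ne_zero.2 hs), zero_add]

theorem inf_le (d N : ℕ) (s : ℝ) (y : Fin N → S d) (hy : Function.Injective y) :
    (⨅ y : Cs d N, EnS s y.1) ≤ EnS s y := by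
  apply ciInf_le (f := fun y : Cs d N => EnS s y.1) _ (⟨y, hy⟩ : Cs d N)
  exact ⟨0, by rintro _ ⟨z, rfl⟩; exact EnS_nonneg s z.1⟩

theorem le_inf (d : ℕ) (hd : 1 ≤ d) (N : ℕ) (s c : ℝ)
    (h : ∀ y : Fin N → S d, Function.Injective y → c ≤ EnS s y) :
    c ≤ ⨅ y : Cs d N, EnS s y.1 := by
  haveI := Cs_nonempty d hd N
  exact le_ciInf fun y => h y.1 y.2

theorem inf_Em (d : ℕ) (hd : 1 ≤ d) (N : ℕ) (s : ℝ) (hs : s ≠ 0) :
    (⨅ y : Cs d N, EnS s y.1) = Em d s N := by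
  unfold Em iInf
  congr 1
  ext e
  constructor
  · rintro ⟨y, rfl⟩
    exact ⟨y.1, y.2, EnS_eq_En s hs y.1⟩
  · rintro ⟨x, hx, rfl⟩
    exact ⟨⟨x, hx⟩, EnS_eq_En s hs x⟩

theorem dist_le_two {d : ℕ} (u v : S d) : dist u v ≤ 2 := by
  rw [Subtype.dist_eq]
  calc dist (u : E d) (v : E d) ≤ dist (u : E d) 0 + dist 0 (v : E d) := dist_triangle _ _ _
    _ = 2 := by
        rw [dist_zero_right, dist_zero_left, mem_sphere_zero_iff_norm.1 u.2,
          mem_sphere_zero_iff_norm.1 v.2]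
        norm_num

theorem EnS_le {d N : ℕ} (a : ℝ) (ha : 0 < a) (y : Fin N → S d) :
    EnS (-a) y ≤ (N:ℝ) * (N * 2 ^ a) := by
  unfold EnS
  calc ∑ i, ∑ j ∈ Finset.univ.erase i, dist (y i) (y j) ^ (- -a)
      ≤ ∑ i : Fin N, ∑ j : Fin N, (2:ℝ) ^ a := by
        apply Finset.sum_le_sum
        intro i _
        calc ∑ j ∈ Finset.univ.erase i, dist (y i) (y j) ^ (- -a)
            ≤ ∑ j ∈ Finset.univ.erase i, (2:ℝ) ^ a := by
              apply Finset.sum_le_sum
              intro j _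
              rw [neg_neg]
              exact Real.rpow_le_rpow dist_nonneg (dist_le_two _ _) ha.le
          _ ≤ ∑ j : Fin N, (2:ℝ) ^ a :=
              Finset.sum_le_sum_of_subset_of_nonneg (Finset.subset_univ _)
                (fun _ _ _ => by positivity)
    _ = _ := by simp

theorem le_sup (d N : ℕ) (a : ℝ) (ha : 0 < a) (y : Fin N → S d) (hy : Function.Injective y) :
    EnS (-a) y ≤ ⨆ y : Cs d N, EnS (-a) y.1 := by
  apply le_ciSup (f := fun y : Cs d N => EnS (-a) y.1) _ (⟨y, hy⟩ : Cs d N)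
  exact ⟨(N:ℝ) * (N * 2 ^ a), by rintro _ ⟨z, rfl⟩; exact EnS_le a ha z.1⟩

theorem sup_le' (d : ℕ) (hd : 1 ≤ d) (N : ℕ) (s c : ℝ)
    (h : ∀ y : Fin N → S d, Function.Injective y → EnS s y ≤ c) :
    (⨆ y : Cs d N, EnS s y.1) ≤ c := by
  haveI := Cs_nonempty d hd N
  exact ciSup_le fun y => h y.1 y.2

end Pool.Agent.TH331.RZ
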