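import Pool.Agent.TH331.RZ.Step4
import Pool.Agent.TH331.RZ.Fin1
import Pool.Agent.Helper88.SE.P_conv

set_option autoImplicit false

open MeasureTheory Set Filter Topology
open scoped ENNReal Real

namespace Pool.Agent.TH331.RZ

open Pool.Agent.Helper88.SE

theorem ms_fin {α : Type} {H : Type} [AddCommMonoid H] (F : α → H) (n : ℕ) (s : Multiset α)
    (hs : Multiset.card s = n) : ∃ y : Fin n → α, (s.map F).sum = ∑ i, F (y i) := by
  induction s using Quotient.inductionOn with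
  | h l =>
    have hs' : l.length = n := hs
    subst hs'
    refine ⟨l.get, ?_⟩
    show ((l : Multiset α).map F).sum = _
    rw [Multiset.map_coe, Multiset.sum_coe, ← List.sum_ofFn]
    congr 1
    conv_lhs => rw [← List.ofFn_get l]
    rw [List.map_ofFn]
    rfl

theorem EnS_cont {d N : ℕ} (a : ℝ) (ha : 0 < a) :
    Continuous (fun y : Fin N → S d => EnS (-a) y) := by
  unfold EnS
  refine continuous_finset_sum _ fun i _ => continuous_finset_sum _ fun j _ => ?_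
  rw [neg_neg]
  exact (Real.continuous_rpow_const ha.le).comp
    ((continuous_apply i).dist (continuous_apply j))

theorem EnS_le_sup (d : ℕ) (hd : 1 ≤ d) (N : ℕ) (a : ℝ) (ha : 0 < a) (y : Fin N → S d) :
    EnS (-a) y ≤ ⨆ y : Cs d N, EnS (-a) y.1 := by
  have hdense : Dense {y : Fin N → S d | Function.Injective y} := by
    rw [Metric.dense_iff]
    intro y r hr
    obtain ⟨y', hy1, hy2⟩ := inj_dense d hd N y r hr
    refine ⟨y', ?_, hy1⟩
    rw [Metric.mem_ball, dist_comm, dist_pi_lt_iff hr]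
    exact hy2
  have hcl : IsClosed {y : Fin N → S d | EnS (-a) y ≤ ⨆ y : Cs d N, EnS (-a) y.1} :=
    isClosed_le (EnS_cont a ha) continuous_const
  have hsub : {y : Fin N → S d | Function.Injective y} ⊆
      {y : Fin N → S d | EnS (-a) y ≤ ⨆ y : Cs d N, EnS (-a) y.1} :=
    fun y hy => le_sup d N a ha y hy
  have := hcl.closure_subset_iff.2 hsub
  rw [hdense.closure_eq] at this
  exact this (mem_univ y)

theorem neg_limit (d : ℕ) (hd : 2 ≤ d) (a : ℝ) (ha : 0 < a) (ha2 : a < 2) :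
    ∃ c : ℝ, Tendsto (fun N : ℕ => ((⨆ y : Cs d N, EnS (-a) y.1) - (N:ℝ) ^ 2 * Ic d (-a)) /
      (N:ℝ) ^ (1 - a / d)) atTop (𝓝 c) := by
  have hd1 : 1 ≤ d := by omega
  have hd0 : (0:ℝ) < d := by exact_mod_cast hd1
  have had : a < d := by
    have : (2:ℝ) ≤ d := by exact_mod_cast hd
    linarith
  obtain ⟨H, i1, i2, i3, Φ, hΦ⟩ := exists_feat d a ha ha2
  obtain ⟨U, hU⟩ : ∃ U : ℕ → ℝ, U = fun N => ⨆ y : Cs d N, EnS (-a) y.1 := ⟨_, rfl⟩
  obtain ⟨β, hβ⟩ : ∃ β : ℝ, β = 1 - a / d := ⟨_, rfl⟩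
  have hker : ∀ (N : ℕ) (y : Fin N → S d),
      2 * ‖(∑ i, Φ (y i)) - (N:ℝ) • ∫ u : S d, Φ u ∂(sg d)‖ ^ 2 =
        (N:ℝ) ^ 2 * Ic d (-a) - EnS (-a) y := by
    intro N y
    rw [energy_kernel ha Φ hΦ y]
    congr 1
    unfold EnS
    refine Finset.sum_congr rfl fun i _ => ?_
    rw [← Finset.add_sum_erase Finset.univ _ (Finset.mem_univ i), dist_self,
      Real.zero_rpow ha.ne', zero_add]
    simp only [neg_neg]
  obtain ⟨A, hA⟩ : ∃ A : ℕ → ℝ, A = fun N : ℕ => ((N:ℝ) ^ 2 * Ic d (-a) - U N) / (N:ℝ) ^ β := ⟨_, rfl⟩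
  have hUle : ∀ N (y : Fin N → S d), EnS (-a) y ≤ U N := by
    intro N y; rw [hU]; exact EnS_le_sup d hd1 N a ha y
  have hUge : ∀ N, U N ≤ (N:ℝ) ^ 2 * Ic d (-a) := by
    intro N
    rw [hU]
    apply sup_le' d hd1 N (-a)
    intro y _
    have h1 := hker N y
    have h2 : 0 ≤ 2 * ‖(∑ i, Φ (y i)) - (N:ℝ) • ∫ u : S d, Φ u ∂(sg d)‖ ^ 2 := by positivity
    linarith
  have hA0 : ∀ N, 0 ≤ A N := by
    intro N
    rw [hA]
    exact div_nonneg (by linarith [hUge N]) (by positivity)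
  have hstep : ∀ ε : ℝ, 0 < ε → ε ≤ 1 → ∃ N0 : ℕ, 1 ≤ N0 ∧ ∀ N : ℕ, N0 ≤ N → ∀ n : ℕ, N ≤ n →
      A n ≤ (1 + ε) * A N + 2 * ε := by
    intro ε hε hε1
    obtain ⟨N0, hN01, hN0⟩ := step_neg d hd1 a ha ha2 had Φ hΦ ε hε hε1
    refine ⟨N0, hN01, ?_⟩
    intro N hN n hn
    have hNpos : (0:ℝ) < N := by exact_mod_cast lt_of_lt_of_le hN01 hN
    have hnpos : (0:ℝ) < n := by exact_mod_cast lt_of_lt_of_le (lt_of_lt_of_le hN01 hN) hn
    have hNβ : (0:ℝ) < (N:ℝ) ^ β := Real.rpow_pos_of_pos hNpos _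
    have hnβ : (0:ℝ) < (n:ℝ) ^ β := Real.rpow_pos_of_pos hnpos _
    -- for every small η
    have key : ∀ η : ℝ, 0 < η → A n ≤ (1 + ε) * (A N + η) + 2 * ε := by
      intro η hη
      obtain ⟨x, hx⟩ : ∃ x : Fin N → S d, U N - η * (N:ℝ) ^ β < EnS (-a) x := by
        haveI := Cs_nonempty d hd1 N
        have h1 : U N - η * (N:ℝ) ^ β < ⨆ y : Cs d N, EnS (-a) y.1 := by
          rw [hU]
          have : 0 < η * (N:ℝ) ^ β := by positivity
          linarith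
        obtain ⟨y, hy⟩ := exists_lt_of_lt_ciSup h1
        exact ⟨y.1, hy⟩
      obtain ⟨s, hs1, hs2⟩ := hN0 N hN x n hn
      obtain ⟨y, hy⟩ := ms_fin (fun x : S d => Φ x) n s hs1
      rw [hy, dI_mn] at hs2
      have k1 := hker n y
      have k2 := hker N x
      have k3 := hUle n y
      obtain ⟨v, hv⟩ : ∃ v : ℝ, v = ‖(∑ i, Φ (x i)) - (N:ℝ) • ∫ u : S d, Φ u ∂(sg d)‖ ^ 2 :=
        ⟨_, rfl⟩
      obtain ⟨w, hw⟩ : ∃ w : ℝ, w = ‖(∑ i, Φ (y i)) - (n:ℝ) • ∫ u : S d, Φ u ∂(sg d)‖ ^ 2 :=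
        ⟨_, rfl⟩
      rw [← hv, ← hw, ← hβ] at hs2
      rw [← hw] at k1
      rw [← hv] at k2
      have h5 : A n ≤ 2 * w / (n:ℝ) ^ β := by
        rw [hA]
        apply div_le_div_of_nonneg_right _ hnβ.le
        linarith
      have h6 : 2 * v / (N:ℝ) ^ β ≤ A N + η := by
        rw [hA, div_le_iff₀ hNβ, add_mul, div_mul_cancel₀ _ hNβ.ne']
        linarith
      have h7 : 2 * w / (n:ℝ) ^ β ≤ (1 + ε) * (2 * v / (N:ℝ) ^ β) + 2 * ε := by
        rw [div_le_iff₀ hnβ]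
        calc 2 * w ≤ 2 * (((1 + ε) * (v / (N:ℝ) ^ β) + ε) * (n:ℝ) ^ β) := by linarith
          _ = _ := by ring
      have h8 := mul_le_mul_of_nonneg_left h6 (show 0 ≤ 1 + ε by linarith)
      linarith
    by_contra hcon
    push Not at hcon
    obtain ⟨η, hη, hη2⟩ : ∃ η : ℝ, 0 < η ∧ (1 + ε) * (A N + η) + 2 * ε < A n := by
      refine ⟨(A n - ((1 + ε) * A N + 2 * ε)) / (2 * (1 + ε)), ?_, ?_⟩
      · apply div_pos (by linarith) (by linarith)
      · have : (1 + ε) * ((A n - ((1 + ε) * A N + 2 * ε)) / (2 * (1 + ε))) =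
            (A n - ((1 + ε) * A N + 2 * ε)) / 2 := by field_simp
        rw [mul_add, this]
        linarith
    exact absurd (key η hη) (not_le.2 hη2)
  -- boundedness
  obtain ⟨N1, hN11, hN1⟩ := hstep 1 one_pos le_rfl
  obtain ⟨Bd, hBd⟩ : ∃ Bd : ℝ, Bd = (1 + 1) * A N1 + 2 * 1 := ⟨_, rfl⟩
  have hbd : ∀ n, N1 ≤ n → A n ≤ Bd := fun n hn => by rw [hBd]; exact hN1 N1 le_rfl n hn
  have hBd0 : 0 ≤ Bd := (hA0 N1).trans (hbd N1 le_rfl)
  obtain ⟨c, hc⟩ := conv A 0 Bd (Eventually.of_forall hA0)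
    (eventually_atTop.2 ⟨N1, hbd⟩) (by
      intro ε hε
      obtain ⟨ε', hε'⟩ : ∃ ε' : ℝ, ε' = min 1 (ε / (Bd + 2)) := ⟨_, rfl⟩
      have h1 : 0 < ε' := by rw [hε']; positivity
      have h2 : ε' ≤ 1 := by rw [hε']; exact min_le_left _ _
      have h3 : ε' * (Bd + 2) ≤ ε := by
        have : ε' ≤ ε / (Bd + 2) := by rw [hε']; exact min_le_right _ _
        rw [le_div_iff₀ (by linarith)] at this
        exact this
      obtain ⟨N0, hN01, hN0⟩ := hstep ε' h1 h2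
      refine ⟨max N0 N1, fun N hN => ?_⟩
      have h4 : N0 ≤ N := (le_max_left _ _).trans hN
      have h5 : N1 ≤ N := (le_max_right _ _).trans hN
      filter_upwards [eventually_ge_atTop N] with n hn
      have h6 := hN0 N h4 n hn
      have h7 := hbd N h5
      have h8 : ε' * A N ≤ ε' * Bd := mul_le_mul_of_nonneg_left h7 h1.le
      nlinarith)
  refine ⟨-c, ?_⟩
  have := hc.neg
  refine this.congr fun N => ?_
  rw [hA, hU, hβ]
  ring

end Pool.Agent.TH331.RZ
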