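import Pool.Agent.TH331.RZ.Stmts

set_option autoImplicit false

open MeasureTheory Set Filter Topology
open scoped ENNReal Real FourierTransform ContDiff

namespace Pool.Agent.TH331.RZ

open Pool.Agent.Helper88.SE

theorem lint_smul (d : ℕ) (r : ℝ) (hr : 0 < r) (G : E d → ℝ≥0∞) (hG : Measurable G) :
    ∫⁻ x : E d, G (r • x) = ENNReal.ofReal (r ^ (-((d:ℝ) + 1))) * ∫⁻ x : E d, G x := by
  have h1 : ∫⁻ x : E d, G (r • x) = ∫⁻ x : E d, G x ∂(Measure.map (fun x => r • x) volume) := by
    rw [lintegral_map hG (measurable_const_smul r)]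
  rw [h1, Measure.map_addHaar_smul _ hr.ne', lintegral_smul_measure, smul_eq_mul]
  congr 2
  rw [finrank_euclideanSpace, Fintype.card_fin, abs_of_pos (by positivity),
    Real.rpow_neg hr.le]
  congr 1
  rw [← Real.rpow_natCast]
  push_cast
  rfl

theorem ex_cont (d : ℕ) : Continuous (fun p : E d × E d => ex p.1 p.2) := by
  unfold ex
  fun_prop

theorem ex_norm {d : ℕ} (ξ u : E d) : ‖ex ξ u‖ = 1 := by
  unfold ex
  exact Complex.norm_exp_ofReal_mul_I _

theorem dI_meas {d : ℕ} {H : Type} [NormedAddCommGroup H] [NormedSpace ℝ H]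
    {X : Type} [MeasurableSpace X]
    (μ ν : Measure (E d)) [IsFiniteMeasure μ] [IsFiniteMeasure ν] (G : X → E d → H)
    (hG : StronglyMeasurable (Function.uncurry G)) :
    StronglyMeasurable (fun x => dI μ ν (G x)) := by
  unfold dI
  exact (hG.integral_prod_right).sub (hG.integral_prod_right)

end Pool.Agent.TH331.RZ
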