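import Pool.Agent.TH331.RZ.Loc1

set_option autoImplicit false

open MeasureTheory Set Filter Topology
open scoped ENNReal Real FourierTransform ContDiff

namespace Pool.Agent.TH331.RZ

open Pool.Agent.Helper88.SE

noncomputable def mF {d : ℕ} (a : ℝ) (F : E d → ℂ) (ζ : E d) : ℝ :=
  ∫ ξ : E d, ‖F (ζ - ξ) - F ζ‖ ^ 2 * ‖ξ‖ ^ (-((d:ℝ) + 1) - a)

theorem mF_nonneg {d : ℕ} (a : ℝ) (F : E d → ℂ) (ζ : E d) : 0 ≤ mF a F ζ := by
  unfold mF
  exact integral_nonneg fun ξ => by positivity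

theorem pow_meas (d : ℕ) (p : ℝ) : Measurable (fun ξ : E d => ‖ξ‖ ^ p) :=
  measurable_norm.pow_const _

/-- the inner integral in frequency -/
theorem inner_freq {d : ℕ} (a : ℝ) (F : E d → ℂ) (hF : Continuous F)
    (hint : ∀ ζ : E d, Integrable (fun ξ : E d => ‖F (ζ - ξ) - F ζ‖ ^ 2 * ‖ξ‖ ^ (-((d:ℝ) + 1) - a)))
    (c : ℝ) (hc : 0 < c) (lam : ℝ) (hl : 0 < lam) (w : E d) :
    ∫⁻ ξ : E d, ENNReal.ofReal (c * ‖ξ‖ ^ (-((d:ℝ) + 1) - a) * ‖F (w - lam⁻¹ • ξ) - F w‖ ^ 2) =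
      ENNReal.ofReal (lam ^ ((d:ℝ) + 1)) *
        ENNReal.ofReal (c * lam ^ (-((d:ℝ) + 1) - a) * mF a F w) := by
  set p : ℝ := -((d:ℝ) + 1) - a with hp
  set G : E d → ℝ≥0∞ := fun ξ =>
    ENNReal.ofReal (c * lam ^ p * (‖F (w - ξ) - F w‖ ^ 2 * ‖ξ‖ ^ p)) with hG
  have hGm : Measurable G := by
    apply Measurable.ennreal_ofReal
    apply Measurable.const_mul
    apply Measurable.mul
    · have : Continuous (fun ξ : E d => ‖F (w - ξ) - F w‖ ^ 2) := by fun_prop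
      exact this.measurable
    · exact pow_meas d p
  have h1 : ∀ ξ : E d, ENNReal.ofReal (c * ‖ξ‖ ^ p * ‖F (w - lam⁻¹ • ξ) - F w‖ ^ 2) =
      G (lam⁻¹ • ξ) := by
    intro ξ
    simp only [hG]
    congr 1
    have : ‖lam⁻¹ • ξ‖ ^ p = lam ^ (-p) * ‖ξ‖ ^ p := by
      rw [norm_smul, Real.norm_of_nonneg (by positivity),
        Real.mul_rpow (by positivity) (norm_nonneg _), Real.inv_rpow hl.le, Real.rpow_neg hl.le]
    rw [this]
    have h2 : lam ^ p * lam ^ (-p) = 1 := by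
      rw [← Real.rpow_add hl, add_neg_cancel, Real.rpow_zero]
    calc c * ‖ξ‖ ^ p * ‖F (w - lam⁻¹ • ξ) - F w‖ ^ 2
        = c * (lam ^ p * lam ^ (-p)) * ‖ξ‖ ^ p * ‖F (w - lam⁻¹ • ξ) - F w‖ ^ 2 := by
          rw [h2, mul_one]
      _ = _ := by ring
  simp_rw [h1]
  rw [lint_smul d lam⁻¹ (inv_pos.2 hl) G hGm]
  congr 1
  · congr 1
    rw [Real.inv_rpow hl.le, Real.rpow_neg hl.le, inv_inv]
  · rw [← ofReal_integral_eq_lintegral_ofReal]
    · congr 1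
      unfold mF
      rw [← integral_const_mul]
    · exact (hint w).const_mul _
    · exact Eventually.of_forall fun ξ => by
        have : 0 < lam ^ p := Real.rpow_pos_of_pos hl _
        positivity

theorem one_scale (d : ℕ) (a : ℝ) (ha : 0 < a) (ha2 : a < 2)
    {H : Type} [NormedAddCommGroup H] [InnerProductSpace ℝ H] [CompleteSpace H]
    (Φ : E d → H) (hΦ : ∀ u v, ‖Φ u - Φ v‖ ^ 2 = ‖u - v‖ ^ a)
    (c : ℝ) (hc : 0 < c) (hc2 : ∀ w : E d,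
      Integrable (fun ξ : E d =>
        (1 - Real.cos (2 * π * inner ℝ ξ w)) * ‖ξ‖ ^ (-((d:ℝ) + 1) - a)) ∧
      c * ∫ ξ : E d, (1 - Real.cos (2 * π * inner ℝ ξ w)) * ‖ξ‖ ^ (-((d:ℝ) + 1) - a) = ‖w‖ ^ a)
    (f : E d → ℝ) (fC F : SchwartzMap (E d) ℂ) (hFdef : 𝓕 fC = F)
    (hfC : ∀ x, fC x = (f x : ℂ)) (hfcont : Continuous f)
    (Mf : ℝ) (hMf : ∀ x, |f x| ≤ Mf)
    (μ ν : Measure (E d)) [IsFiniteMeasure μ] [IsFiniteMeasure ν]
    (hμ : μ (Metric.closedBall 0 1)ᶜ = 0) (hν : ν (Metric.closedBall 0 1)ᶜ = 0)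
    (lam : ℝ) (hl : 0 < lam) :
    ∫⁻ z : E d, ENNReal.ofReal
        (2 * ‖dI μ ν (fun u => f (lam • u - z) • (Φ u - Φ (lam⁻¹ • z)))‖ ^ 2) =
      ∫⁻ ζ : E d, ENNReal.ofReal (c * lam ^ (-((d:ℝ) + 1) - a) * mF a F (-(lam⁻¹ • ζ)) *
        ‖dI μ ν (fun u => ex ζ u)‖ ^ 2) := by
  set p : ℝ := -((d:ℝ) + 1) - a with hp
  have hFc : Continuous F := F.continuous
  have hint := (mult_est d a ha ha2 F).1
  have hex := ex_cont d
  -- step 1
  have h1 : ∀ z : E d, ENNReal.ofReal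
        (2 * ‖dI μ ν (fun u => f (lam • u - z) • (Φ u - Φ (lam⁻¹ • z)))‖ ^ 2) =
      ∫⁻ ξ : E d, ENNReal.ofReal (c * ‖ξ‖ ^ p *
        ‖dI μ ν (fun u => fC (lam • u - z) * (1 * ex ξ u - 1 * ex ξ (lam⁻¹ • z)))‖ ^ 2) := by
    intro z
    rw [feat_fourier d a ha ha2 Φ hΦ c hc hc2 μ ν 1 hμ hν (fun u => f (lam • u - z))
      (by fun_prop) Mf (fun u => hMf _) (lam⁻¹ • z)]
    simp only [hfC, one_mul]
    rfl
  simp_rw [h1]
  -- step 2
  have hm1 : Measurable (fun q : E d × E d => ENNReal.ofReal (c * ‖q.2‖ ^ p *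
        ‖dI μ ν (fun u => fC (lam • u - q.1) * (1 * ex q.2 u - 1 * ex q.2 (lam⁻¹ • q.1)))‖ ^ 2)) := by
    apply Measurable.ennreal_ofReal
    apply Measurable.mul
    · exact (pow_meas d p).comp measurable_snd |>.const_mul c
    · apply Measurable.pow_const
      apply Measurable.norm
      apply StronglyMeasurable.measurable
      apply dI_meas μ ν (fun (q : E d × E d) (u : E d) =>
        fC (lam • u - q.1) * (1 * ex q.2 u - 1 * ex q.2 (lam⁻¹ • q.1)))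
      apply Continuous.stronglyMeasurable
      have e1 : Continuous (fun q : (E d × E d) × E d => ex q.1.2 q.2) :=
        hex.comp (by fun_prop : Continuous (fun q : (E d × E d) × E d => (q.1.2, q.2)))
      have e2 : Continuous (fun q : (E d × E d) × E d => ex q.1.2 (lam⁻¹ • q.1.1)) :=
        hex.comp (by fun_prop : Continuous (fun q : (E d × E d) × E d => (q.1.2, lam⁻¹ • q.1.1)))
      have e3 : Continuous (fun q : (E d × E d) × E d => fC (lam • q.2 - q.1.1)) :=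
        fC.continuous.comp (by fun_prop)
      exact e3.mul ((continuous_const.mul e1).sub (continuous_const.mul e2))
  rw [lintegral_lintegral_swap hm1.aemeasurable]
  -- step 3, 4
  have h3 : ∀ ξ : E d, ∫⁻ z : E d, ENNReal.ofReal (c * ‖ξ‖ ^ p *
        ‖dI μ ν (fun u => fC (lam • u - z) * (1 * ex ξ u - 1 * ex ξ (lam⁻¹ • z)))‖ ^ 2) =
      ENNReal.ofReal (c * ‖ξ‖ ^ p) * ∫⁻ η : E d, ENNReal.ofReal
      (‖1 * F (-η) - 1 * F (lam⁻¹ • ξ - η)‖ ^ 2 *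
        ‖dI μ ν (fun u => ex (lam • η - ξ) u)‖ ^ 2) := by
    intro ξ
    have hff := fixed_freq d fC μ ν lam hl ξ 1 1
    rw [hFdef] at hff
    rw [← hff, ← lintegral_const_mul' _ _ ENNReal.ofReal_ne_top]
    refine lintegral_congr fun z => ?_
    rw [ENNReal.ofReal_mul (by positivity)]
  simp_rw [h3]
  -- step 5
  have hnum : Measurable (fun ζ : E d => ‖dI μ ν (fun u => ex ζ u)‖ ^ 2) := by
    apply Measurable.pow_const
    apply Measurable.norm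
    apply StronglyMeasurable.measurable
    apply dI_meas μ ν (fun (ζ : E d) (u : E d) => ex ζ u)
    exact hex.stronglyMeasurable
  have h5 : ∀ ξ : E d, ∫⁻ η : E d, ENNReal.ofReal
      (‖1 * F (-η) - 1 * F (lam⁻¹ • ξ - η)‖ ^ 2 *
        ‖dI μ ν (fun u => ex (lam • η - ξ) u)‖ ^ 2) =
      ENNReal.ofReal (lam ^ (-((d:ℝ) + 1))) * ∫⁻ ζ : E d, ENNReal.ofReal
        (‖F (-(lam⁻¹ • ζ) - lam⁻¹ • ξ) - F (-(lam⁻¹ • ζ))‖ ^ 2 *
          ‖dI μ ν (fun u => ex ζ u)‖ ^ 2) := by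
    intro ξ
    set G : E d → ℝ≥0∞ := fun η => ENNReal.ofReal
      (‖1 * F (-η) - 1 * F (lam⁻¹ • ξ - η)‖ ^ 2 *
        ‖dI μ ν (fun u => ex (lam • η - ξ) u)‖ ^ 2) with hG
    have hGm : Measurable G := by
      apply Measurable.ennreal_ofReal
      apply Measurable.mul
      · have : Continuous (fun η : E d => ‖1 * F (-η) - 1 * F (lam⁻¹ • ξ - η)‖ ^ 2) := by
          fun_prop
        exact this.measurable
      · exact hnum.comp (by fun_prop : Measurable (fun η : E d => lam • η - ξ))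
    have e1 : ∫⁻ ζ : E d, G (lam⁻¹ • (ζ + ξ)) = ∫⁻ ζ : E d, G (lam⁻¹ • ζ) :=
      lintegral_add_right_eq_self (fun ζ => G (lam⁻¹ • ζ)) ξ
    have e2 := lint_smul d lam⁻¹ (inv_pos.2 hl) G hGm
    have e3 : ∀ ζ : E d, G (lam⁻¹ • (ζ + ξ)) = ENNReal.ofReal
        (‖F (-(lam⁻¹ • ζ) - lam⁻¹ • ξ) - F (-(lam⁻¹ • ζ))‖ ^ 2 *
          ‖dI μ ν (fun u => ex ζ u)‖ ^ 2) := by
      intro ζ
      have a1 : -(lam⁻¹ • (ζ + ξ)) = -(lam⁻¹ • ζ) - lam⁻¹ • ξ := by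
        rw [smul_add]; abel
      have a2 : lam⁻¹ • ξ - lam⁻¹ • (ζ + ξ) = -(lam⁻¹ • ζ) := by
        rw [smul_add]; abel
      have a3 : lam • lam⁻¹ • (ζ + ξ) - ξ = ζ := by
        rw [smul_smul, mul_inv_cancel₀ hl.ne', one_smul]; abel
      simp only [hG]
      rw [a1, a2, a3, one_mul, one_mul]
    simp_rw [e3] at e1
    rw [e1, e2, ← mul_assoc, ← ENNReal.ofReal_mul (by positivity)]
    have : lam ^ (-((d:ℝ) + 1)) * lam⁻¹ ^ (-((d:ℝ) + 1)) = 1 := by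
      rw [Real.inv_rpow hl.le, mul_inv_cancel₀]
      exact (Real.rpow_pos_of_pos hl _).ne'
    rw [this, ENNReal.ofReal_one, one_mul]
  simp_rw [h5]
  -- step 6
  have h6 : ∀ ξ : E d, ENNReal.ofReal (c * ‖ξ‖ ^ p) *
      (ENNReal.ofReal (lam ^ (-((d:ℝ) + 1))) * ∫⁻ ζ : E d, ENNReal.ofReal
        (‖F (-(lam⁻¹ • ζ) - lam⁻¹ • ξ) - F (-(lam⁻¹ • ζ))‖ ^ 2 *
          ‖dI μ ν (fun u => ex ζ u)‖ ^ 2)) =
      ∫⁻ ζ : E d, (ENNReal.ofReal (lam ^ (-((d:ℝ) + 1))) *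
        ENNReal.ofReal (‖dI μ ν (fun u => ex ζ u)‖ ^ 2)) *
        ENNReal.ofReal (c * ‖ξ‖ ^ p * ‖F (-(lam⁻¹ • ζ) - lam⁻¹ • ξ) - F (-(lam⁻¹ • ζ))‖ ^ 2) := by
    intro ξ
    rw [← lintegral_const_mul' _ _ ENNReal.ofReal_ne_top,
      ← lintegral_const_mul' _ _ ENNReal.ofReal_ne_top]
    refine lintegral_congr fun ζ => ?_
    rw [← ENNReal.ofReal_mul (by positivity), ← ENNReal.ofReal_mul (by positivity),
      ← ENNReal.ofReal_mul (by positivity), ← ENNReal.ofReal_mul (by positivity)]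
    congr 1
    ring
  simp_rw [h6]
  have hm2 : Measurable (fun q : E d × E d => (ENNReal.ofReal (lam ^ (-((d:ℝ) + 1))) *
        ENNReal.ofReal (‖dI μ ν (fun u => ex q.2 u)‖ ^ 2)) *
        ENNReal.ofReal (c * ‖q.1‖ ^ p *
          ‖F (-(lam⁻¹ • q.2) - lam⁻¹ • q.1) - F (-(lam⁻¹ • q.2))‖ ^ 2)) := by
    have k1 : Measurable (fun q : E d × E d => ENNReal.ofReal (lam ^ (-((d:ℝ) + 1))) *
        ENNReal.ofReal (‖dI μ ν (fun u => ex q.2 u)‖ ^ 2)) :=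
      (hnum.comp measurable_snd).ennreal_ofReal.const_mul _
    have k2 : Measurable (fun q : E d × E d => ENNReal.ofReal (c * ‖q.1‖ ^ p *
          ‖F (-(lam⁻¹ • q.2) - lam⁻¹ • q.1) - F (-(lam⁻¹ • q.2))‖ ^ 2)) := by
      apply Measurable.ennreal_ofReal
      apply Measurable.mul
      · exact (pow_meas d p).comp measurable_fst |>.const_mul c
      · have : Continuous (fun q : E d × E d =>
          ‖F (-(lam⁻¹ • q.2) - lam⁻¹ • q.1) - F (-(lam⁻¹ • q.2))‖ ^ 2) := by fun_prop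
        exact this.measurable
    exact k1.mul k2
  rw [lintegral_lintegral_swap hm2.aemeasurable]
  refine lintegral_congr fun ζ => ?_
  rw [lintegral_const_mul' _ _ (ENNReal.mul_ne_top ENNReal.ofReal_ne_top ENNReal.ofReal_ne_top)]
  rw [inner_freq a F hFc hint c hc lam hl (-(lam⁻¹ • ζ))]
  rw [← ENNReal.ofReal_mul (by positivity), ← ENNReal.ofReal_mul (by positivity),
    ← ENNReal.ofReal_mul (by positivity)]
  congr 1
  have : lam ^ (-((d:ℝ) + 1)) * lam ^ ((d:ℝ) + 1) = 1 := by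
    rw [← Real.rpow_add hl, neg_add_cancel, Real.rpow_zero]
  calc lam ^ (-((d:ℝ) + 1)) * ‖dI μ ν (fun u => ex ζ u)‖ ^ 2 *
        (lam ^ ((d:ℝ) + 1) * (c * lam ^ p * mF a F (-(lam⁻¹ • ζ))))
      = (lam ^ (-((d:ℝ) + 1)) * lam ^ ((d:ℝ) + 1)) *
        (c * lam ^ p * mF a F (-(lam⁻¹ • ζ)) * ‖dI μ ν (fun u => ex ζ u)‖ ^ 2) := by ring
    _ = _ := by rw [this, one_mul]

end Pool.Agent.TH331.RZ
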