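import Pool.Agent.TH331.RZ.Loc4
import Pool.Agent.TH331.RZ.Defs2

set_option autoImplicit false

open MeasureTheory Set Filter Topology
open scoped ENNReal Real FourierTransform ContDiff

namespace Pool.Agent.TH331.RZ

open Pool.Agent.Helper88.SE

theorem loc_pt (c lam p a q mm κ C1 C2 ε X Dk z Fn I2 : ℝ) (hlp : 0 < lam) (hc : 0 < c)
    (hκ : 0 ≤ κ) (hz : 0 < z) (hX : 0 ≤ X) (hε : 0 < ε) (hDk : 0 ≤ Dk)
    (hpq : p = q - a)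
    (hI2 : I2 ≤ 1)
    (hmm : mm ≤ (1 + ε) * I2 * (lam⁻¹ * z) ^ p + C1 * Dk)
    (hFn : Fn ≤ C2 * Dk) :
    c * lam ^ p * mm * X + κ * lam ^ (-a) * (lam ^ q * Fn * X) ≤
      ((1 + ε) * (c * z ^ p) + (c * C1 + κ * C2) * (lam ^ p * Dk)) * X := by
  have h5 : 0 ≤ (lam⁻¹ * z) ^ p := by positivity
  have h6 : (1 + ε) * I2 * (lam⁻¹ * z) ^ p ≤ (1 + ε) * (lam⁻¹ * z) ^ p := by
    have : (1 + ε) * I2 ≤ (1 + ε) * 1 := mul_le_mul_of_nonneg_left hI2 (by linarith)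
    calc _ ≤ (1 + ε) * 1 * (lam⁻¹ * z) ^ p := mul_le_mul_of_nonneg_right this h5
      _ = _ := by ring
  have e1 : lam ^ p * (lam⁻¹ * z) ^ p = z ^ p := by
    rw [← Real.mul_rpow hlp.le (by positivity)]
    congr 1
    field_simp
  have e2 : lam ^ (-a) * lam ^ q = lam ^ p := by
    rw [← Real.rpow_add hlp]
    congr 1
    rw [hpq]; ring
  have hlp' : 0 < lam ^ p := Real.rpow_pos_of_pos hlp _
  have e3 : c * lam ^ p * mm ≤ (1 + ε) * (c * z ^ p) + c * C1 * (lam ^ p * Dk) := by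
    calc c * lam ^ p * mm
        ≤ c * lam ^ p * ((1 + ε) * (lam⁻¹ * z) ^ p + C1 * Dk) :=
          mul_le_mul_of_nonneg_left (by linarith) (by positivity)
      _ = (1 + ε) * (c * (lam ^ p * (lam⁻¹ * z) ^ p)) + c * C1 * (lam ^ p * Dk) := by ring
      _ = _ := by rw [e1]
  have e4 : κ * lam ^ (-a) * (lam ^ q * Fn) ≤ κ * C2 * (lam ^ p * Dk) := by
    calc κ * lam ^ (-a) * (lam ^ q * Fn)
        = κ * (lam ^ (-a) * lam ^ q) * Fn := by ring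
      _ = κ * lam ^ p * Fn := by rw [e2]
      _ ≤ κ * lam ^ p * (C2 * Dk) := mul_le_mul_of_nonneg_left hFn (by positivity)
      _ = _ := by ring
  calc c * lam ^ p * mm * X + κ * lam ^ (-a) * (lam ^ q * Fn * X)
      = (c * lam ^ p * mm + κ * lam ^ (-a) * (lam ^ q * Fn)) * X := by ring
    _ ≤ ((1 + ε) * (c * z ^ p) + c * C1 * (lam ^ p * Dk) + κ * C2 * (lam ^ p * Dk)) * X := by
        apply mul_le_mul_of_nonneg_right _ hX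
        linarith
    _ = _ := by ring

theorem nu_meas {d : ℕ} (μ ν : Measure (E d)) [IsFiniteMeasure μ] [IsFiniteMeasure ν] :
    Measurable (fun ζ : E d => ‖dI μ ν (fun u => ex ζ u)‖ ^ 2) := by
  apply Measurable.pow_const
  apply Measurable.norm
  apply StronglyMeasurable.measurable
  apply dI_meas μ ν (fun (ζ : E d) (u : E d) => ex ζ u)
  exact (ex_cont d).stronglyMeasurable

theorem ae_ne_zero' (d : ℕ) : ∀ᵐ ζ : E d, ζ ≠ 0 := by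
  have : (volume : Measure (E d)) {0} = 0 := measure_singleton 0
  rw [ae_iff]
  simp

theorem loc_one (d : ℕ) (a : ℝ) (ha : 0 < a) (ha2 : a < 2)
    {H : Type} [NormedAddCommGroup H] [InnerProductSpace ℝ H] [CompleteSpace H]
    (Φ : E d → H) (hΦ : ∀ u v, ‖Φ u - Φ v‖ ^ 2 = ‖u - v‖ ^ a)
    (f : E d → ℝ) (hfcont : Continuous f)
    (fC F : SchwartzMap (E d) ℂ) (hFdef : 𝓕 fC = F) (hfC : ∀ x, fC x = (f x : ℂ))
    (Mf : ℝ) (hMf : ∀ x, |f x| ≤ Mf)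
    (hF2 : ∫ ξ : E d, ‖F ξ‖ ^ 2 ≤ 1)
    (c : ℝ) (hc : 0 < c) (hc2 : ∀ w : E d,
      Integrable (fun ξ : E d =>
        (1 - Real.cos (2 * π * inner ℝ ξ w)) * ‖ξ‖ ^ (-((d:ℝ) + 1) - a)) ∧
      c * ∫ ξ : E d, (1 - Real.cos (2 * π * inner ℝ ξ w)) * ‖ξ‖ ^ (-((d:ℝ) + 1) - a) = ‖w‖ ^ a)
    (ε : ℝ) (hε : 0 < ε) (κ : ℝ) (hκ : 0 ≤ κ) (C1 C2 : ℝ)
    (hm : ∀ ζ : E d, ζ ≠ 0 →
      ∫ ξ : E d, ‖F (ζ - ξ) - F ζ‖ ^ 2 * ‖ξ‖ ^ (-((d:ℝ) + 1) - a) ≤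
        (1 + ε) * (∫ ξ : E d, ‖F ξ‖ ^ 2) * ‖ζ‖ ^ (-((d:ℝ) + 1) - a)
          + C1 * (1 + ‖ζ‖) ^ (-((d + 3 : ℕ):ℝ)))
    (hF3 : ∀ x : E d, ‖F x‖ ^ 2 ≤ C2 * (1 + ‖x‖) ^ (-((d + 3 : ℕ):ℝ)))
    (μ ν : Measure (E d)) [IsFiniteMeasure μ] [IsFiniteMeasure ν]
    (hμ : μ (Metric.closedBall 0 1)ᶜ = 0) (hν : ν (Metric.closedBall 0 1)ᶜ = 0)
    (lam : ℝ) (hl : 0 < lam) :
    ∫⁻ z : E d, ENNReal.ofReal (locE Φ f a κ μ ν lam z) ≤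
      ∫⁻ ζ : E d, ENNReal.ofReal (((1 + ε) * (c * ‖ζ‖ ^ (-((d:ℝ) + 1) - a)) +
        (c * C1 + κ * C2) * (lam ^ (-((d:ℝ) + 1) - a) *
          (1 + lam⁻¹ * ‖ζ‖) ^ (-((d + 3 : ℕ):ℝ)))) *
        ‖dI μ ν (fun u => ex ζ u)‖ ^ 2) := by
  have hΦc := feat_cont ha Φ hΦ
  have hnum := nu_meas μ ν
  have hmeas1 : Measurable (fun z : E d => ENNReal.ofReal
      (2 * ‖dI μ ν (fun u => f (lam • u - z) • (Φ u - Φ (lam⁻¹ • z)))‖ ^ 2)) := by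
    have h1 : StronglyMeasurable
        (fun z : E d => dI μ ν (fun u => f (lam • u - z) • (Φ u - Φ (lam⁻¹ • z)))) := by
      apply dI_meas μ ν (fun (z : E d) (u : E d) => f (lam • u - z) • (Φ u - Φ (lam⁻¹ • z)))
      apply Continuous.stronglyMeasurable
      have e1 : Continuous (fun q : E d × E d => f (lam • q.2 - q.1)) :=
        hfcont.comp (by fun_prop)
      have e2 : Continuous (fun q : E d × E d => Φ q.2 - Φ (lam⁻¹ • q.1)) :=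
        (hΦc.comp continuous_snd).sub (hΦc.comp (by fun_prop))
      exact e1.smul e2
    exact ((h1.norm.measurable.pow_const 2).const_mul 2).ennreal_ofReal
  have hsplit : ∫⁻ z : E d, ENNReal.ofReal (locE Φ f a κ μ ν lam z) =
      (∫⁻ z : E d, ENNReal.ofReal
        (2 * ‖dI μ ν (fun u => f (lam • u - z) • (Φ u - Φ (lam⁻¹ • z)))‖ ^ 2)) +
      ENNReal.ofReal (κ * lam ^ (-a)) *
        ∫⁻ z : E d, ENNReal.ofReal ((dI μ ν (fun u => f (lam • u - z))) ^ 2) := by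
    rw [← lintegral_const_mul' _ _ ENNReal.ofReal_ne_top, ← lintegral_add_left hmeas1]
    refine lintegral_congr fun z => ?_
    unfold locE
    rw [ENNReal.ofReal_add (by positivity) (by positivity),
      ENNReal.ofReal_mul (p := κ * lam ^ (-a)) (by positivity)]
  rw [hsplit, one_scale d a ha ha2 Φ hΦ c hc hc2 f fC F hFdef hfC hfcont Mf hMf μ ν hμ hν lam hl,
    num_scale d f fC F hFdef hfC μ ν lam hl, ← lintegral_const_mul' _ _ ENNReal.ofReal_ne_top]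
  have hmeas2 : Measurable (fun ζ : E d => ENNReal.ofReal (κ * lam ^ (-a)) *
      ENNReal.ofReal (lam ^ (-((d:ℝ) + 1)) * ‖F (-(lam⁻¹ • ζ))‖ ^ 2 *
        ‖dI μ ν (fun u => ex ζ u)‖ ^ 2)) := by
    have hFc : Continuous F := F.continuous
    have h2 : Measurable (fun ζ : E d => lam ^ (-((d:ℝ) + 1)) * ‖F (-(lam⁻¹ • ζ))‖ ^ 2) := by
      have : Continuous (fun ζ : E d => lam ^ (-((d:ℝ) + 1)) * ‖F (-(lam⁻¹ • ζ))‖ ^ 2) := by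
        fun_prop
      exact this.measurable
    exact (h2.mul hnum).ennreal_ofReal.const_mul _
  rw [← lintegral_add_right _ hmeas2]
  refine lintegral_mono_ae ?_
  filter_upwards [ae_ne_zero' d] with ζ hζ
  have hm' := hm (-(lam⁻¹ • ζ)) (by
    rw [neg_ne_zero]
    exact smul_ne_zero (inv_pos.2 hl).ne' hζ)
  have hF3' := hF3 (-(lam⁻¹ • ζ))
  have hnorm : ‖-(lam⁻¹ • ζ)‖ = lam⁻¹ * ‖ζ‖ := by
    rw [norm_neg, norm_smul, Real.norm_of_nonneg (by positivity)]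
  rw [hnorm] at hm' hF3'
  have hz : 0 < ‖ζ‖ := norm_pos_iff.2 hζ
  have hmF0 : 0 ≤ mF a F (-(lam⁻¹ • ζ)) := mF_nonneg _ _ _
  have hX0 : 0 ≤ ‖dI μ ν (fun u => ex ζ u)‖ ^ 2 := by positivity
  have hDk0 : 0 ≤ (1 + lam⁻¹ * ‖ζ‖) ^ (-((d + 3 : ℕ):ℝ)) := by positivity
  have hA : 0 ≤ c * lam ^ (-((d:ℝ) + 1) - a) * mF a F (-(lam⁻¹ • ζ)) *
      ‖dI μ ν (fun u => ex ζ u)‖ ^ 2 := by
    have : 0 ≤ lam ^ (-((d:ℝ) + 1) - a) := (Real.rpow_pos_of_pos hl _).le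
    positivity
  have hB : 0 ≤ κ * lam ^ (-a) * (lam ^ (-((d:ℝ) + 1)) * ‖F (-(lam⁻¹ • ζ))‖ ^ 2 *
      ‖dI μ ν (fun u => ex ζ u)‖ ^ 2) := by
    positivity
  rw [← ENNReal.ofReal_mul (by positivity), ← ENNReal.ofReal_add hA hB]
  apply ENNReal.ofReal_le_ofReal
  exact loc_pt c lam (-((d:ℝ) + 1) - a) a (-((d:ℝ) + 1)) (mF a F (-(lam⁻¹ • ζ))) κ C1 C2 ε
    (‖dI μ ν (fun u => ex ζ u)‖ ^ 2) ((1 + lam⁻¹ * ‖ζ‖) ^ (-((d + 3 : ℕ):ℝ))) ‖ζ‖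
    (‖F (-(lam⁻¹ • ζ))‖ ^ 2) (∫ ξ : E d, ‖F ξ‖ ^ 2) hl hc hκ hz hX0 hε hDk0 rfl hF2 hm' hF3'

end Pool.Agent.TH331.RZ
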