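import Pool.Agent.TH331.RZ.Loc5

set_option autoImplicit false

open MeasureTheory Set Filter Topology
open scoped ENNReal Real FourierTransform ContDiff

namespace Pool.Agent.TH331.RZ

open Pool.Agent.Helper88.SE

theorem feat_integrable {d : ℕ} {H : Type} [NormedAddCommGroup H] [InnerProductSpace ℝ H]
    (Φ : E d → H) (hΦc : Continuous Φ) (ρ : Measure (E d)) [IsFiniteMeasure ρ]
    (hρ : ρ (Metric.closedBall 0 1)ᶜ = 0) : Integrable Φ ρ := by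
  obtain ⟨B, hB⟩ := (isCompact_closedBall (0 : E d) 1).exists_bound_of_continuousOn
    hΦc.continuousOn
  refine Integrable.of_bound hΦc.aestronglyMeasurable B ?_
  have : ∀ᵐ x ∂ρ, x ∈ Metric.closedBall (0 : E d) 1 := by
    rw [ae_iff]
    exact hρ
  filter_upwards [this] with x hx using hB x hx

theorem energy_fourier (d : ℕ) (a : ℝ) (ha : 0 < a) (ha2 : a < 2)
    {H : Type} [NormedAddCommGroup H] [InnerProductSpace ℝ H] [CompleteSpace H]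
    (Φ : E d → H) (hΦ : ∀ u v, ‖Φ u - Φ v‖ ^ 2 = ‖u - v‖ ^ a)
    (c : ℝ) (hc : 0 < c) (hc2 : ∀ w : E d,
      Integrable (fun ξ : E d =>
        (1 - Real.cos (2 * π * inner ℝ ξ w)) * ‖ξ‖ ^ (-((d:ℝ) + 1) - a)) ∧
      c * ∫ ξ : E d, (1 - Real.cos (2 * π * inner ℝ ξ w)) * ‖ξ‖ ^ (-((d:ℝ) + 1) - a) = ‖w‖ ^ a)
    (μ ν : Measure (E d)) [IsFiniteMeasure μ] [IsFiniteMeasure ν]
    (hμ : μ (Metric.closedBall 0 1)ᶜ = 0) (hν : ν (Metric.closedBall 0 1)ᶜ = 0)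
    (hmass : μ univ = ν univ) :
    ENNReal.ofReal (2 * ‖dI μ ν Φ‖ ^ 2) =
      ∫⁻ ζ : E d, ENNReal.ofReal (c * ‖ζ‖ ^ (-((d:ℝ) + 1) - a) *
        ‖dI μ ν (fun u => ex ζ u)‖ ^ 2) := by
  have hΦc := feat_cont ha Φ hΦ
  have hex := ex_cont d
  have h7 := feat_fourier d a ha ha2 Φ hΦ c hc hc2 μ ν 1 hμ hν (fun _ => 1) measurable_const 1
    (fun _ => by simp) 0
  have hmr : μ.real univ = ν.real univ := by
    rw [measureReal_def, measureReal_def, hmass]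
  have h8 : dI μ ν (fun u => (1:ℝ) • (Φ u - Φ 0)) = dI μ ν Φ := by
    unfold dI
    simp only [one_smul]
    rw [integral_sub (feat_integrable Φ hΦc μ hμ) (integrable_const _),
      integral_sub (feat_integrable Φ hΦc ν hν) (integrable_const _),
      integral_const, integral_const, hmr]
    abel
  have hexi : ∀ (ρ : Measure (E d)) [IsFiniteMeasure ρ] (ξ : E d),
      Integrable (fun u => ex ξ u) ρ := by
    intro ρ _ ξ
    refine Integrable.of_bound ?_ 1 (Eventually.of_forall fun u => (ex_norm ξ u).le)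
    exact (hex.comp (by fun_prop : Continuous (fun u : E d => (ξ, u)))).aestronglyMeasurable
  have h9 : ∀ ξ : E d, dI μ ν (fun u => ((1:ℝ) : ℂ) * (ex ξ u - ex ξ 0)) =
      dI μ ν (fun u => ex ξ u) := by
    intro ξ
    unfold dI
    simp only [Complex.ofReal_one, one_mul]
    rw [integral_sub (hexi μ ξ) (integrable_const _), integral_sub (hexi ν ξ) (integrable_const _),
      integral_const, integral_const, hmr]
    abel
  rw [h8] at h7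
  rw [h7]
  refine lintegral_congr fun ξ => ?_
  rw [← h9 ξ]

theorem loc (d : ℕ) (a : ℝ) (ha : 0 < a) (ha2 : a < 2)
    {H : Type} [NormedAddCommGroup H] [InnerProductSpace ℝ H] [CompleteSpace H]
    (Φ : E d → H) (hΦ : ∀ u v, ‖Φ u - Φ v‖ ^ 2 = ‖u - v‖ ^ a)
    (f : E d → ℝ) (hf : ContDiff ℝ ∞ f) (hfc : HasCompactSupport f) (hf1 : ∫ x, f x ^ 2 ≤ 1)
    (ε : ℝ) (hε : 0 < ε) (κ : ℝ) (hκ : 0 ≤ κ) :
    ∃ C : ℝ, 0 ≤ C ∧ ∀ (K : ℕ) (l0 : ℝ), 0 < l0 → ∀ (μ ν : Measure (E d)) [IsFiniteMeasure μ]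
      [IsFiniteMeasure ν],
      μ (Metric.closedBall 0 1)ᶜ = 0 → ν (Metric.closedBall 0 1)ᶜ = 0 → μ univ = ν univ →
      ∑ k ∈ Finset.range K, ∫⁻ z : E d, ENNReal.ofReal (locE Φ f a κ μ ν (2 ^ k * l0) z) ≤
      ENNReal.ofReal (((1 + ε) * K + C) * (2 * ‖dI μ ν Φ‖ ^ 2)) := by
  obtain ⟨c, hc, hc2⟩ := riesz_const d a ha ha2
  have hfC1 : HasCompactSupport (fun x => (f x : ℂ)) :=
    hfc.comp_left (g := fun t : ℝ => (t : ℂ)) Complex.ofReal_zero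
  have hfC2 : ContDiff ℝ ∞ (fun x => (f x : ℂ)) := Complex.ofRealCLM.contDiff.comp hf
  obtain ⟨fC, hfC⟩ : ∃ fC : SchwartzMap (E d) ℂ, ∀ x, fC x = (f x : ℂ) :=
    ⟨hfC1.toSchwartzMap hfC2, fun x => rfl⟩
  obtain ⟨Mf, hMf⟩ : ∃ M : ℝ, ∀ x, |f x| ≤ M := by
    obtain ⟨M, hM⟩ := hfc.exists_bound_of_continuous hf.continuous
    exact ⟨M, fun x => by simpa [Real.norm_eq_abs] using hM x⟩
  obtain ⟨F, hFdef⟩ : ∃ F : SchwartzMap (E d) ℂ, 𝓕 fC = F := ⟨_, rfl⟩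
  have hF2 : ∫ ξ : E d, ‖F ξ‖ ^ 2 ≤ 1 := by
    rw [← hFdef, SchwartzMap.integral_norm_sq_fourier]
    refine le_trans (le_of_eq ?_) hf1
    refine integral_congr_ae (Eventually.of_forall fun x => ?_)
    simp only [hfC, Complex.norm_real, Real.norm_eq_abs, sq_abs]
  obtain ⟨C1, hC1, hm⟩ := (mult_est d a ha ha2 F).2 ε hε (d + 3)
  obtain ⟨C2, hC2, hF3⟩ := schwartz_sq_decay F (d + 3)
  obtain ⟨C4, hC4, hdy⟩ := dyad2 d a ha ha2
  obtain ⟨C3, hC3⟩ : ∃ C3 : ℝ, C3 = c * C1 + κ * C2 := ⟨_, rfl⟩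
  have hC30 : 0 ≤ C3 := by rw [hC3]; positivity
  refine ⟨C3 * C4 / c, by positivity, ?_⟩
  intro K l0 hl0 μ ν _ _ hμ hν hmass
  have hnum := nu_meas μ ν
  have hone : ∀ k : ℕ, ∫⁻ z : E d, ENNReal.ofReal (locE Φ f a κ μ ν (2 ^ k * l0) z) ≤
      ∫⁻ ζ : E d, ENNReal.ofReal (((1 + ε) * (c * ‖ζ‖ ^ (-((d:ℝ) + 1) - a)) +
        C3 * ((2 ^ k * l0) ^ (-((d:ℝ) + 1) - a) *
          (1 + (2 ^ k * l0)⁻¹ * ‖ζ‖) ^ (-((d + 3 : ℕ):ℝ)))) *
        ‖dI μ ν (fun u => ex ζ u)‖ ^ 2) := by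
    intro k
    rw [hC3]
    exact loc_one d a ha ha2 Φ hΦ f hf.continuous fC F hFdef hfC Mf hMf hF2 c hc hc2 ε hε κ hκ
      C1 C2 hm hF3 μ ν hμ hν (2 ^ k * l0) (by positivity)
  refine (Finset.sum_le_sum fun k _ => hone k).trans ?_
  have hmk : ∀ k : ℕ, Measurable (fun ζ : E d => ENNReal.ofReal
      (((1 + ε) * (c * ‖ζ‖ ^ (-((d:ℝ) + 1) - a)) +
        C3 * ((2 ^ k * l0) ^ (-((d:ℝ) + 1) - a) *
          (1 + (2 ^ k * l0)⁻¹ * ‖ζ‖) ^ (-((d + 3 : ℕ):ℝ)))) *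
        ‖dI μ ν (fun u => ex ζ u)‖ ^ 2)) := by
    intro k
    have m1 : Measurable (fun ζ : E d => (1 + ε) * (c * ‖ζ‖ ^ (-((d:ℝ) + 1) - a))) :=
      ((pow_meas d _).const_mul c).const_mul _
    have m2 : Measurable (fun ζ : E d => C3 * ((2 ^ k * l0) ^ (-((d:ℝ) + 1) - a) *
          (1 + (2 ^ k * l0)⁻¹ * ‖ζ‖) ^ (-((d + 3 : ℕ):ℝ)))) :=
      (((measurable_norm.const_mul _).const_add 1).pow_const _ |>.const_mul _).const_mul _
    exact ((m1.add m2).mul hnum).ennreal_ofReal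
  rw [← lintegral_finset_sum _ (fun k _ => hmk k)]
  have hfin : ENNReal.ofReal (((1 + ε) * K + C3 * C4 / c) * (2 * ‖dI μ ν Φ‖ ^ 2)) =
      ∫⁻ ζ : E d, ENNReal.ofReal (((1 + ε) * K + C3 * C4 / c) *
        (c * ‖ζ‖ ^ (-((d:ℝ) + 1) - a) * ‖dI μ ν (fun u => ex ζ u)‖ ^ 2)) := by
    have hk : 0 ≤ (1 + ε) * K + C3 * C4 / c := by positivity
    rw [ENNReal.ofReal_mul hk, energy_fourier d a ha ha2 Φ hΦ c hc hc2 μ ν hμ hν hmass,
      ← lintegral_const_mul' _ _ ENNReal.ofReal_ne_top]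
    refine lintegral_congr fun ζ => ?_
    rw [← ENNReal.ofReal_mul hk]
  rw [hfin]
  refine lintegral_mono_ae ?_
  filter_upwards [ae_ne_zero' d] with ζ hζ
  have hz : 0 < ‖ζ‖ := norm_pos_iff.2 hζ
  obtain ⟨X, hX⟩ : ∃ X : ℝ, X = ‖dI μ ν (fun u => ex ζ u)‖ ^ 2 := ⟨_, rfl⟩
  have hX0 : 0 ≤ X := by rw [hX]; positivity
  rw [← hX]
  have hpos : ∀ k ∈ Finset.range K, 0 ≤ ((1 + ε) * (c * ‖ζ‖ ^ (-((d:ℝ) + 1) - a)) +
        C3 * ((2 ^ k * l0) ^ (-((d:ℝ) + 1) - a) *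
          (1 + (2 ^ k * l0)⁻¹ * ‖ζ‖) ^ (-((d + 3 : ℕ):ℝ)))) * X := fun k _ => by positivity
  rw [← ENNReal.ofReal_sum_of_nonneg hpos]
  apply ENNReal.ofReal_le_ofReal
  rw [← Finset.sum_mul, Finset.sum_add_distrib, Finset.sum_const, Finset.card_range,
    nsmul_eq_mul, ← Finset.mul_sum]
  have h10 := hdy l0 hl0 K ‖ζ‖ hz
  have h11 := mul_le_mul_of_nonneg_left h10 hC30
  have h12 := mul_le_mul_of_nonneg_right
    (add_le_add_right h11 (↑K * ((1 + ε) * (c * ‖ζ‖ ^ (-((d:ℝ) + 1) - a))))) hX0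
  refine h12.trans (le_of_eq ?_)
  field_simp

end Pool.Agent.TH331.RZ
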