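import Pool.Agent.TH331.RZ.En1

set_option autoImplicit false

open MeasureTheory Set Filter Topology
open scoped ENNReal Real FourierTransform

namespace Pool.Agent.TH331.RZ

open Pool.Agent.Helper88.SE

theorem young (C β η : ℝ) (hC : 0 ≤ C) (hβ : 0 < β) (hβ1 : β < 1) (hη : 0 < η) :
    ∃ κ0 : ℝ, 0 ≤ κ0 ∧ ∀ t : ℝ, 0 ≤ t → C * t ^ β ≤ κ0 * t + η := by
  set t0 : ℝ := (η / (C + 1)) ^ (1 / β) with ht0
  have ht0' : 0 < t0 := by positivity
  refine ⟨C * t0 ^ (β - 1), by positivity, ?_⟩
  intro t ht
  rcases le_or_gt t t0 with h | h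
  · have h1 : t ^ β ≤ η / (C + 1) := by
      calc t ^ β ≤ t0 ^ β := Real.rpow_le_rpow ht h hβ.le
        _ = η / (C + 1) := by
            rw [ht0, ← Real.rpow_mul (by positivity), one_div, inv_mul_cancel₀ hβ.ne', Real.rpow_one]
    have h2 : C * t ^ β ≤ η := by
      calc C * t ^ β ≤ (C + 1) * t ^ β := by
            have : 0 ≤ t ^ β := by positivity
            nlinarith
        _ ≤ (C + 1) * (η / (C + 1)) := mul_le_mul_of_nonneg_left h1 (by positivity)
        _ = η := by field_simp
    have h3 : 0 ≤ C * t0 ^ (β - 1) * t := by positivity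
    linarith
  · have htp : 0 < t := ht0'.trans h
    have h1 : t ^ (β - 1) ≤ t0 ^ (β - 1) :=
      Real.rpow_le_rpow_of_nonpos ht0' h.le (by linarith)
    have h2 : t ^ β = t ^ (β - 1) * t := by
      nth_rewrite 3 [← Real.rpow_one t]
      rw [← Real.rpow_add htp]
      congr 1; ring
    rw [h2]
    have h3 : C * (t ^ (β - 1) * t) ≤ C * (t0 ^ (β - 1) * t) :=
      mul_le_mul_of_nonneg_left (mul_le_mul_of_nonneg_right h1 ht) hC
    linarith

theorem ofReal_int_le {Ω : Type} [MeasurableSpace Ω] (P : Measure Ω) (g : Ω → ℝ)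
    (hg : ∀ ω, 0 ≤ g ω) : ENNReal.ofReal (∫ ω, g ω ∂P) ≤ ∫⁻ ω, ENNReal.ofReal (g ω) ∂P := by
  by_cases h : Integrable g P
  · rw [ofReal_integral_eq_lintegral_ofReal h (Eventually.of_forall hg)]
  · rw [integral_undef h]
    simp

theorem locE_nonneg {d : ℕ} {H : Type} [NormedAddCommGroup H] [InnerProductSpace ℝ H]
    (Φ : E d → H) (f : E d → ℝ) (a κ : ℝ) (hκ : 0 ≤ κ) (μ ν : Measure (E d)) (lam : ℝ)
    (hl : 0 < lam) (z : E d) : 0 ≤ locE Φ f a κ μ ν lam z := by
  unfold locE
  positivity

theorem locE_meas {d : ℕ} {H : Type} [NormedAddCommGroup H] [InnerProductSpace ℝ H]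
    [CompleteSpace H] (Φ : E d → H) (hΦc : Continuous Φ) (f : E d → ℝ) (hf : Continuous f)
    (a κ : ℝ) {Ω : Type} [MeasurableSpace Ω] (G : Ω → Iso d)
    (hG : Measurable (fun p : Ω × S d => rot (G p.1) p.2)) {N : ℕ} (x : Fin N → S d) (l : ℝ) :
    Measurable (fun p : Ω × E d =>
      locE Φ f a κ (muC (fun i => rot (G p.1) (x i))) (nuC d N) l p.2) := by
  have hsg := sg_prob d
  unfold locE
  simp_rw [dI_mn]
  have hy : ∀ i, Measurable (fun p : Ω × E d => ((rot (G p.1) (x i) : S d) : E d)) := fun i =>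
    measurable_subtype_coe.comp (hG.comp (measurable_fst.prodMk measurable_const))
  have m1 : StronglyMeasurable (fun p : Ω × E d => (∑ i, f (l • ((rot (G p.1) (x i) : S d) : E d) - p.2) •
      (Φ ((rot (G p.1) (x i) : S d) : E d) - Φ (l⁻¹ • p.2))) -
      (N:ℝ) • ∫ u : S d, f (l • (u : E d) - p.2) • (Φ u - Φ (l⁻¹ • p.2)) ∂(sg d)) := by
    apply StronglyMeasurable.sub
    · apply Finset.stronglyMeasurable_fun_sum
      intro i _
      have hc : Continuous (fun q : E d × E d => f (l • q.1 - q.2) • (Φ q.1 - Φ (l⁻¹ • q.2))) := by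
        have e1 : Continuous (fun q : E d × E d => f (l • q.1 - q.2)) := hf.comp (by fun_prop)
        have e2 : Continuous (fun q : E d × E d => Φ q.1 - Φ (l⁻¹ • q.2)) :=
          (hΦc.comp continuous_fst).sub (hΦc.comp (by fun_prop))
        exact e1.smul e2
      exact hc.stronglyMeasurable.comp_measurable ((hy i).prodMk measurable_snd)
    · apply StronglyMeasurable.const_smul
      have h2 : StronglyMeasurable (fun z : E d =>
          ∫ u : S d, f (l • (u : E d) - z) • (Φ u - Φ (l⁻¹ • z)) ∂(sg d)) := by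
        apply StronglyMeasurable.integral_prod_right
          (f := fun (z : E d) (u : S d) => f (l • (u : E d) - z) • (Φ u - Φ (l⁻¹ • z)))
        apply Continuous.stronglyMeasurable
        have e1 : Continuous (fun q : E d × S d => f (l • (q.2 : E d) - q.1)) :=
          hf.comp (by fun_prop)
        have e2 : Continuous (fun q : E d × S d => Φ q.2 - Φ (l⁻¹ • q.1)) :=
          (hΦc.comp (by fun_prop)).sub (hΦc.comp (by fun_prop))
        exact e1.smul e2
      exact h2.comp_measurable measurable_snd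
  have m2 : Measurable (fun p : Ω × E d => (∑ i, f (l • ((rot (G p.1) (x i) : S d) : E d) - p.2)) -
      (N:ℝ) • ∫ u : S d, f (l • (u : E d) - p.2) ∂(sg d)) := by
    apply Measurable.sub
    · apply Finset.measurable_fun_sum
      intro i _
      exact hf.measurable.comp (((hy i).const_smul l).sub measurable_snd)
    · have h2 : Measurable (fun z : E d => ∫ u : S d, f (l • (u : E d) - z) ∂(sg d)) := by
        apply StronglyMeasurable.measurable
        apply StronglyMeasurable.integral_prod_right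
          (f := fun (z : E d) (u : S d) => f (l • (u : E d) - z))
        apply Continuous.stronglyMeasurable
        exact hf.comp (by fun_prop)
      exact (h2.comp measurable_snd).const_smul (N:ℝ)
  exact ((m1.norm.measurable.pow_const 2).const_mul 2).add ((m2.pow_const 2).const_mul _)

end Pool.Agent.TH331.RZ
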