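import Pool.Agent.TH331.RZ.Step0
import Pool.Agent.TH331.RZ.Avg3

set_option autoImplicit false

open MeasureTheory Set Filter Topology
open scoped ENNReal Real FourierTransform

namespace Pool.Agent.TH331.RZ

open Pool.Agent.Helper88.SE

theorem norm_le_h0 {d : ℕ} (x : E d) (hx : ∀ i, |x i| < 1 / 2) : ‖x‖ ≤ Real.sqrt ((d:ℝ) + 1) := by
  rw [EuclideanSpace.norm_eq]
  apply Real.sqrt_le_sqrt
  calc ∑ i, ‖x i‖ ^ 2 ≤ ∑ i : Fin (d + 1), (1:ℝ) := by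
        apply Finset.sum_le_sum
        intro i _
        have := hx i
        rw [Real.norm_eq_abs]
        nlinarith [abs_nonneg (x i)]
    _ = (d:ℝ) + 1 := by simp

theorem supp_norm {d : ℕ} (f : E d → ℝ) (δ : ℝ) (hδ : 0 < δ)
    (hfδ : ∀ x : E d, (∃ i, 1 / 2 - δ ≤ |x i|) → f x = 0) (x : E d) (hx : f x ≠ 0) :
    ‖x‖ ≤ Real.sqrt ((d:ℝ) + 1) := by
  apply norm_le_h0
  intro i
  by_contra h
  push Not at h
  exact hx (hfδ x ⟨i, by linarith⟩)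

theorem mf_zero {d : ℕ} (f : E d → ℝ) (δ : ℝ) (hδ : 0 < δ)
    (hfδ : ∀ x : E d, (∃ i, 1 / 2 - δ ≤ |x i|) → f x = 0) (l : ℝ) (hl : 0 < l) (z : E d)
    (hz : z ∉ shl d l (Real.sqrt ((d:ℝ) + 1))) : mf f l z = 0 := by
  unfold mf
  have : ∀ u : S d, f (l • (u : E d) - z) = 0 := by
    intro u
    by_contra h
    apply hz
    have h1 := supp_norm f δ hδ hfδ _ h
    have h2 : ‖l • (u : E d)‖ = l := by
      rw [norm_smul, Real.norm_of_nonneg hl.le, mem_sphere_zero_iff_norm.1 u.2, mul_one]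
    show |‖z‖ - l| ≤ _
    rw [abs_sub_comm]
    have h3 := abs_norm_sub_norm_le (l • (u : E d)) z
    rw [h2] at h3
    exact h3.trans h1
  simp [this]

theorem int_b3 {d : ℕ} (g : E d → ℝ) (hg : Measurable g) (hg0 : ∀ x, 0 ≤ g x) (hg1 : ∀ x, g x ≤ 1)
    (δ' : ℝ) (hi2 : ∫⁻ z, ENNReal.ofReal (g z) ≤ ENNReal.ofReal δ')
    (l r κ : ℝ) (hl : Real.sqrt ((d:ℝ) + 1) < l) (hr : 0 < r) (hr1 : r ≤ 1)
    (hκ : 0 ≤ κ) (N : ℕ) :
    ∫⁻ t in shl d (l / r) (Real.sqrt ((d:ℝ) + 1)),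
        ENNReal.ofReal (κ * (N * mf g l (zsh l (l / r) t))) ≤
      ENNReal.ofReal (κ * (N * (((1 - Real.sqrt ((d:ℝ) + 1) / l) ^ d)⁻¹ * r ^ (-(d:ℝ)) * δ'))) := by
  have h0 : 0 ≤ Real.sqrt ((d:ℝ) + 1) := Real.sqrt_nonneg _
  have hl0 : 0 < l := h0.trans_lt hl
  have hx : 0 < 1 - Real.sqrt ((d:ℝ) + 1) / l := by
    rw [sub_pos, div_lt_one hl0]; exact hl
  have h1 : ∀ t : E d, ENNReal.ofReal (κ * (N * mf g l (zsh l (l / r) t))) =
      ENNReal.ofReal (κ * N) * ENNReal.ofReal (mf g l (zsh l (l / r) t)) := by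
    intro t
    rw [← ENNReal.ofReal_mul (by positivity)]
    congr 1; ring
  simp_rw [h1]
  rw [lintegral_const_mul' _ _ ENNReal.ofReal_ne_top]
  have hj := (jac d _ l r h0 hl hr hr1 (fun z => ENNReal.ofReal (mf g l z))
    (mf_meas g hg l).ennreal_ofReal).1
  rw [mf_int g hg hg0 hg1 l] at hj
  calc ENNReal.ofReal (κ * N) * ∫⁻ t in shl d (l / r) (Real.sqrt ((d:ℝ) + 1)),
        ENNReal.ofReal (mf g l (zsh l (l / r) t))
      ≤ ENNReal.ofReal (κ * N) * (ENNReal.ofReal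
        (((1 - Real.sqrt ((d:ℝ) + 1) / l) ^ d)⁻¹ * r ^ (-(d:ℝ))) * ENNReal.ofReal δ') := by
        gcongr
        exact hj.trans (by gcongr)
    _ = _ := by
        rw [← ENNReal.ofReal_mul (by positivity), ← ENNReal.ofReal_mul (by positivity)]
        congr 1; ring

theorem int_b2 {d : ℕ} (f : E d → ℝ) (hf : Measurable f) (hf0 : ∀ x, 0 ≤ f x) (hf1 : ∀ x, f x ≤ 1)
    (hi3 : ∫⁻ z, ENNReal.ofReal (f z) ≤ 1)
    (Cm : ℝ) (hCm : 0 ≤ Cm) (C3 : ℝ) (hC3 : 0 ≤ C3)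
    (l r : ℝ) (hl : Real.sqrt ((d:ℝ) + 1) + 1 ≤ l) (hr : 0 < r) (hr1 : r ≤ 1)
    (hm : ∀ z, mf f l z ≤ Cm * l ^ (-(d:ℝ)))
    (hs : (volume : Measure (E d)) (shl d (l / r) (Real.sqrt ((d:ℝ) + 1))) ≤
      ENNReal.ofReal (C3 * (l / r) ^ d))
    (c b : ℝ) (hc : 0 ≤ c) (hb : 0 ≤ b) (N : ℕ) :
    ∫⁻ t in shl d (l / r) (Real.sqrt ((d:ℝ) + 1)),
        ENNReal.ofReal (c * (1 + b * (N * mf f l (zsh l (l / r) t)) ^ 2)) ≤
      ENNReal.ofReal (c * (C3 * (l / r) ^ d + b * (N ^ 2 *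
        (((1 - Real.sqrt ((d:ℝ) + 1) / l) ^ d)⁻¹ * r ^ (-(d:ℝ)) * (Cm * l ^ (-(d:ℝ))))))) := by
  have h0 : 0 ≤ Real.sqrt ((d:ℝ) + 1) := Real.sqrt_nonneg _
  have hl0 : 0 < l := by linarith
  have hl1 : Real.sqrt ((d:ℝ) + 1) < l := by linarith
  have hx : 0 < 1 - Real.sqrt ((d:ℝ) + 1) / l := by
    rw [sub_pos, div_lt_one hl0]; exact hl1
  have h1 : ∀ t : E d, ENNReal.ofReal (c * (1 + b * (N * mf f l (zsh l (l / r) t)) ^ 2)) =
      ENNReal.ofReal c + ENNReal.ofReal (c * b * N ^ 2) *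
        ENNReal.ofReal (mf f l (zsh l (l / r) t) ^ 2) := by
    intro t
    rw [← ENNReal.ofReal_mul (by positivity), ← ENNReal.ofReal_add hc (by positivity)]
    congr 1; ring
  simp_rw [h1]
  rw [lintegral_add_left measurable_const, lintegral_const_mul' _ _ ENNReal.ofReal_ne_top,
    lintegral_const, Measure.restrict_apply_univ]
  have hj := (jac d _ l r h0 hl1 hr hr1 (fun z => ENNReal.ofReal (mf f l z ^ 2))
    ((mf_meas f hf l).pow_const 2).ennreal_ofReal).1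
  have h2 : ∫⁻ z : E d, ENNReal.ofReal (mf f l z ^ 2) ≤ ENNReal.ofReal (Cm * l ^ (-(d:ℝ))) := by
    calc ∫⁻ z : E d, ENNReal.ofReal (mf f l z ^ 2)
        ≤ ∫⁻ z : E d, ENNReal.ofReal (Cm * l ^ (-(d:ℝ))) * ENNReal.ofReal (mf f l z) := by
          apply lintegral_mono
          intro z
          show ENNReal.ofReal (mf f l z ^ 2) ≤ ENNReal.ofReal (Cm * l ^ (-(d:ℝ))) *
            ENNReal.ofReal (mf f l z)
          rw [← ENNReal.ofReal_mul (by positivity)]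
          apply ENNReal.ofReal_le_ofReal
          have := mf_nonneg f hf0 l z
          nlinarith [hm z]
      _ = ENNReal.ofReal (Cm * l ^ (-(d:ℝ))) * ∫⁻ z : E d, ENNReal.ofReal (f z) := by
          rw [lintegral_const_mul' _ _ ENNReal.ofReal_ne_top, mf_int f hf hf0 hf1 l]
      _ ≤ ENNReal.ofReal (Cm * l ^ (-(d:ℝ))) * 1 := by gcongr
      _ = _ := mul_one _
  calc ENNReal.ofReal c * volume (shl d (l / r) (Real.sqrt ((d:ℝ) + 1))) +
        ENNReal.ofReal (c * b * N ^ 2) * ∫⁻ t in shl d (l / r) (Real.sqrt ((d:ℝ) + 1)),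
          ENNReal.ofReal (mf f l (zsh l (l / r) t) ^ 2)
      ≤ ENNReal.ofReal c * ENNReal.ofReal (C3 * (l / r) ^ d) +
        ENNReal.ofReal (c * b * N ^ 2) * (ENNReal.ofReal
        (((1 - Real.sqrt ((d:ℝ) + 1) / l) ^ d)⁻¹ * r ^ (-(d:ℝ))) *
          ENNReal.ofReal (Cm * l ^ (-(d:ℝ)))) := by
        gcongr
        exact hj.trans (by gcongr)
    _ = _ := by
        rw [← ENNReal.ofReal_mul (by positivity), ← ENNReal.ofReal_mul (by positivity),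
          ← ENNReal.ofReal_mul (by positivity), ← ENNReal.ofReal_add (by positivity) (by positivity)]
        congr 1; ring

theorem int_m {d : ℕ} (f : E d → ℝ) (hf : Measurable f) (hf0 : ∀ x, 0 ≤ f x) (hf1 : ∀ x, f x ≤ 1)
    (δ : ℝ) (hδ : 0 < δ) (hfδ : ∀ x : E d, (∃ i, 1 / 2 - δ ≤ |x i|) → f x = 0)
    (δ' : ℝ) (hδ1 : δ' ≤ 1)
    (hi1 : ENNReal.ofReal (1 - δ') ≤ ∫⁻ z, ENNReal.ofReal (f z))
    (l r : ℝ) (hl : Real.sqrt ((d:ℝ) + 1) < l) (hr : 0 < r) (hr1 : r ≤ 1) (N : ℕ) :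
    ENNReal.ofReal ((1 - Real.sqrt ((d:ℝ) + 1) / l) ^ d * r ^ (-(d:ℝ)) * (N * (1 - δ'))) ≤
    ∫⁻ t in shl d (l / r) (Real.sqrt ((d:ℝ) + 1)),
        ENNReal.ofReal (N * mf f l (zsh l (l / r) t)) := by
  have h0 : 0 ≤ Real.sqrt ((d:ℝ) + 1) := Real.sqrt_nonneg _
  have hl0 : 0 < l := h0.trans_lt hl
  have hx : 0 < 1 - Real.sqrt ((d:ℝ) + 1) / l := by
    rw [sub_pos, div_lt_one hl0]; exact hl
  have hj := (jac d _ l r h0 hl hr hr1 (fun z => ENNReal.ofReal (N * mf f l z))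
    ((mf_meas f hf l).const_mul _).ennreal_ofReal).2
  refine le_trans ?_ hj
  have h1 : ∫⁻ z in shl d l (Real.sqrt ((d:ℝ) + 1)), ENNReal.ofReal (N * mf f l z) =
      ∫⁻ z, ENNReal.ofReal (N * mf f l z) := by
    rw [← lintegral_indicator (shl_meas d l _)]
    refine lintegral_congr fun z => ?_
    by_cases hz : z ∈ shl d l (Real.sqrt ((d:ℝ) + 1))
    · rw [Set.indicator_of_mem hz]
    · rw [Set.indicator_of_notMem hz, mf_zero f δ hδ hfδ l hl0 z hz]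
      simp
  have h2 : ∫⁻ z, ENNReal.ofReal (N * mf f l z) =
      ENNReal.ofReal N * ∫⁻ z, ENNReal.ofReal (f z) := by
    rw [← mf_int f hf hf0 hf1 l, ← lintegral_const_mul' _ _ ENNReal.ofReal_ne_top]
    refine lintegral_congr fun z => ?_
    rw [ENNReal.ofReal_mul (Nat.cast_nonneg N)]
  rw [h1, h2]
  calc ENNReal.ofReal ((1 - Real.sqrt ((d:ℝ) + 1) / l) ^ d * r ^ (-(d:ℝ)) * (N * (1 - δ')))
      = ENNReal.ofReal ((1 - Real.sqrt ((d:ℝ) + 1) / l) ^ d * r ^ (-(d:ℝ))) *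
        (ENNReal.ofReal N * ENNReal.ofReal (1 - δ')) := by
        rw [ENNReal.ofReal_mul (by positivity), ENNReal.ofReal_mul (Nat.cast_nonneg N)]
    _ ≤ _ := by gcongr

end Pool.Agent.TH331.RZ
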