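import Pool.Agent.TH331.RZ.Defs2
import Pool.Agent.TH73.J499
import Pool.Agent.TH286.J500
import Pool.Agent.TH286.J501

/-!
Lemmas proved in other files, under the names used in this project.
-/

set_option autoImplicit false

namespace Pool.Agent.TH331.RZ

alias mcell_le := Pool.Agent.TH73.J499.mcell_le
alias cell_t := Pool.Agent.TH286.J500.cell_t
alias assemble := Pool.Agent.TH286.J501.assemble

end Pool.Agent.TH331.RZ
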