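import Pool.Agent.TH331.RZ.Step1
import Pool.Agent.TH331.RZ.Stmts3

set_option autoImplicit false

open MeasureTheory Set Filter Topology
open scoped ENNReal Real FourierTransform

namespace Pool.Agent.TH331.RZ

open Pool.Agent.Helper88.SE

/-- the bound for the construction, before normalisation -/
noncomputable def TT (d : ℕ) (a τ A κ δ' Cm C3 c1 V l r : ℝ) (N n : ℕ) : ℝ :=
  (1 + τ) ^ 3 * r ^ a / 2 * (((1 - Real.sqrt ((d:ℝ) + 1) / l) ^ d)⁻¹ * r ^ (-(d:ℝ)) *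
      (c1 * (2 * V)))
    + A * (l / r) ^ (-a) * (C3 * (l / r) ^ d + l ^ (-a) * (N ^ 2 *
        (((1 - Real.sqrt ((d:ℝ) + 1) / l) ^ d)⁻¹ * r ^ (-(d:ℝ)) * (Cm * l ^ (-(d:ℝ))))))
    + κ * (N * (((1 - Real.sqrt ((d:ℝ) + 1) / l) ^ d)⁻¹ * r ^ (-(d:ℝ)) * δ'))
    + κ * (n - (1 - Real.sqrt ((d:ℝ) + 1) / l) ^ d * r ^ (-(d:ℝ)) * (N * (1 - δ')))

theorem step_fixed (d : ℕ) (hd : 1 ≤ d) (a : ℝ) (ha : 0 < a) (ha2 : a < 2) (had : a < d)
    {H : Type} [NormedAddCommGroup H] [InnerProductSpace ℝ H] [CompleteSpace H]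
    (Φ : E d → H) (hΦ : ∀ u v, ‖Φ u - Φ v‖ ^ 2 = ‖u - v‖ ^ a)
    (f : E d → ℝ) (hf : Continuous f) (hf0 : ∀ x, 0 ≤ f x) (hf1 : ∀ x, f x ≤ 1)
    (δ : ℝ) (hδ : 0 < δ) (hfδ : ∀ x : E d, (∃ i, 1 / 2 - δ ≤ |x i|) → f x = 0)
    (δ' : ℝ) (hδ0 : 0 ≤ δ') (hδ1 : δ' ≤ 1)
    (hi1 : ENNReal.ofReal (1 - δ') ≤ ∫⁻ z, ENNReal.ofReal (f z))
    (hi2 : ∫⁻ z, ENNReal.ofReal (f z - {v : E d | f v = 1}.indicator (fun _ => (1:ℝ)) z) ≤
      ENNReal.ofReal δ')
    (hi3 : ∫⁻ z, ENNReal.ofReal (f z) ≤ 1)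
    (Cm : ℝ) (hCm : 0 ≤ Cm) (C3 : ℝ) (hC3 : 0 ≤ C3)
    (τ A κ1 : ℝ) (hτ : 0 < τ) (hA : 0 ≤ A) (hκ1 : 0 ≤ κ1)
    (Cp : ℝ) (hpool : ∀ (ρ : Measure (S d)) (m : ℕ), ρ univ = m → ∀ e : H,
      ∃ t : Multiset (S d), Multiset.card t = m ∧
        ‖e + (t.map (fun x : S d => Φ x)).sum - ∫ x : S d, Φ x ∂ρ‖ ^ 2 ≤
          ‖e‖ ^ 2 + Cp * (m:ℝ) ^ (1 - a / d))
    {Ω : Type} [MeasurableSpace Ω] (P : Measure Ω) [IsProbabilityMeasure P] (G : Ω → Iso d)
    (hG : Measurable (fun p : Ω × S d => rot (G p.1) p.2))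
    (N : ℕ) (x : Fin N → S d) (l r : ℝ)
    (hl : Real.sqrt ((d:ℝ) + 1) + 1 ≤ l) (hr : 0 < r) (hr1 : r ≤ 1)
    (hm : ∀ z, mf f l z ≤ Cm * l ^ (-(d:ℝ)))
    (hs : (volume : Measure (E d)) (shl d (l / r) (Real.sqrt ((d:ℝ) + 1))) ≤
      ENNReal.ofReal (C3 * (l / r) ^ d))
    (n : ℕ) (hn : (N:ℝ) * r ^ (-(d:ℝ)) = n)
    (κ : ℝ) (hκ : 0 ≤ κ)
    (hmle : ∀ t : E d, |‖t‖ - l / r| ≤ Real.sqrt ((d:ℝ) + 1) →
      mcell d N f l r t ≤ ENNReal.ofReal (N * r ^ (-(d:ℝ))) •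
        (sg d).restrict {v : S d | ∀ i, |(l / r) * (v : E d) i - t i| < 1 / 2})
    (hcell : ∀ t : E d, |‖t‖ - l / r| ≤ Real.sqrt ((d:ℝ) + 1) → ∀ e : H,
      ∃ (s : Multiset (S d)) (ρ : Measure (S d)), IsFiniteMeasure ρ ∧
        (Multiset.card s : ℝ) + ρ.real univ = (mcell d N f l r t).real univ ∧
        ‖e + (s.map (fun x : S d => Φ x)).sum + (∫ x : S d, Φ x ∂ρ) -
            ∫ x : S d, Φ x ∂(mcell d N f l r t)‖ ^ 2 + κ * ρ.real univ ≤
          ‖e‖ ^ 2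
          + (1 + τ) ^ 3 * r ^ a / 2 * ∫ ω, locE Φ f a κ1 (muC (fun i => rot (G ω) (x i)))
              (nuC d N) l (zsh l (l / r) t) ∂P
          + A * (l / r) ^ (-a) * (1 + l ^ (-a) * ((mcell d N f l r t).real univ) ^ 2)
          + κ * (N * ∫ u : S d, (f (l • (u : E d) - zsh l (l / r) t) -
              {v : E d | f v = 1}.indicator (fun _ => (1:ℝ))
                (l • (u : E d) - zsh l (l / r) t)) ∂(sg d)))
    (c1 V : ℝ) (hc1 : 0 ≤ c1) (hV : 0 ≤ V)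
    (hloc : ∫⁻ ω, (∫⁻ z : E d, ENNReal.ofReal (locE Φ f a κ1 (muC (fun i => rot (G ω) (x i)))
              (nuC d N) l z)) ∂P ≤ ENNReal.ofReal (c1 * (2 * V)))
    (X : ℝ) (hX : ∀ k : ℕ, Cp * (k:ℝ) ^ (1 - a / d) ≤ κ * k + X) :
    ∃ s : Multiset (S d), Multiset.card s = n ∧
      ‖(s.map (fun x : S d => Φ x)).sum - (n:ℝ) • ∫ x : S d, Φ x ∂(sg d)‖ ^ 2 ≤
        TT d a τ A κ δ' Cm C3 c1 V l r N n + X := by
  classical
  have h0 : 0 ≤ Real.sqrt ((d:ℝ) + 1) := Real.sqrt_nonneg _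
  obtain ⟨h, hh⟩ : ∃ h : ℝ, h = Real.sqrt ((d:ℝ) + 1) := ⟨_, rfl⟩
  have hl0 : 0 < l := by linarith
  have hl1 : Real.sqrt ((d:ℝ) + 1) < l := by linarith
  have hΦc : Continuous Φ := feat_cont ha Φ hΦ
  obtain ⟨g, hg⟩ : ∃ g : E d → ℝ, g = fun z =>
    f z - {v : E d | f v = 1}.indicator (fun _ => (1:ℝ)) z := ⟨_, rfl⟩
  have hgm : Measurable g := by
    rw [hg]
    apply hf.measurable.sub
    exact measurable_const.indicator (hf.measurable (measurableSet_singleton 1))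
  have hg0 : ∀ z, 0 ≤ g z := by
    intro z
    rw [hg]
    by_cases hz : f z = 1
    · simp [hz]
    · simp [hz, hf0 z]
  have hg1 : ∀ z, g z ≤ 1 := by
    intro z
    rw [hg]
    by_cases hz : f z = 1
    · simp [hz]
    · simp [hz, hf1 z]
  have hi2' : ∫⁻ z, ENNReal.ofReal (g z) ≤ ENNReal.ofReal δ' := by rw [hg]; exact hi2
  have hmr : ∀ t : E d, (mcell d N f l r t).real univ = N * mf f l (zsh l (l / r) t) :=
    fun t => mcell_real d N f hf.measurable hf0 hf1 l r hr t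
  -- the local energy averaged over the rotations
  obtain ⟨LE, hLE⟩ : ∃ LE : E d → ℝ≥0∞, LE = fun z => ∫⁻ ω, ENNReal.ofReal
    (locE Φ f a κ1 (muC (fun i => rot (G ω) (x i))) (nuC d N) l z) ∂P := ⟨_, rfl⟩
  have hjm : Measurable (fun p : Ω × E d => ENNReal.ofReal
      (locE Φ f a κ1 (muC (fun i => rot (G p.1) (x i))) (nuC d N) l p.2)) :=
    (locE_meas Φ hΦc f hf a κ1 G hG x l).ennreal_ofReal
  have hLEm : Measurable LE := by
    rw [hLE]
    exact hjm.lintegral_prod_left'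
  have hLEi : ∫⁻ z, LE z ≤ ENNReal.ofReal (c1 * (2 * V)) := by
    rw [hLE]
    rw [lintegral_lintegral_swap]
    · exact hloc
    · exact (hjm.comp measurable_swap).aemeasurable
  -- the bounding functions
  obtain ⟨b0, hb0⟩ : ∃ b0 : E d → ℝ≥0∞, b0 = fun z =>
    ENNReal.ofReal ((1 + τ) ^ 3 * r ^ a / 2) * LE z +
    (ENNReal.ofReal (A * (l / r) ^ (-a) * (1 + l ^ (-a) * (N * mf f l z) ^ 2)) +
    ENNReal.ofReal (κ * (N * mf g l z))) := ⟨_, rfl⟩
  have hmfm : Measurable (mf f l) := mf_meas f hf.measurable l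
  have hmgm : Measurable (mf g l) := mf_meas g hgm l
  have mm2 : Measurable (fun z : E d =>
      ENNReal.ofReal (A * (l / r) ^ (-a) * (1 + l ^ (-a) * (N * mf f l z) ^ 2))) :=
    (((((hmfm.const_mul _).pow_const 2).const_mul _).const_add 1).const_mul _).ennreal_ofReal
  have mm3 : Measurable (fun z : E d => ENNReal.ofReal (κ * (N * mf g l z))) :=
    ((hmgm.const_mul _).const_mul _).ennreal_ofReal
  have mm1 : Measurable (fun z : E d => ENNReal.ofReal ((1 + τ) ^ 3 * r ^ a / 2) * LE z) :=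
    hLEm.const_mul _
  have hb0m : Measurable b0 := by
    rw [hb0]
    exact mm1.add (mm2.add mm3)
  have hzm : Measurable (zsh (d := d) l (l / r)) := zsh_meas _ _
  obtain ⟨b, hb⟩ : ∃ b : E d → ℝ≥0∞, b = (shl d (l / r) h).indicator
    (fun t => b0 (zsh l (l / r) t)) := ⟨_, rfl⟩
  obtain ⟨m, hmd⟩ : ∃ m : E d → ℝ≥0∞, m = (shl d (l / r) h).indicator
    (fun t => ENNReal.ofReal (N * mf f l (zsh l (l / r) t))) := ⟨_, rfl⟩
  have hbm : Measurable b := by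
    rw [hb]
    exact (hb0m.comp hzm).indicator (shl_meas d _ _)
  have hmm : Measurable m := by
    rw [hmd]
    exact ((hmfm.const_mul _).ennreal_ofReal.comp hzm).indicator (shl_meas d _ _)
  -- finite sets of cells
  have hfinJ : ∀ θ : E d, {j : Fin (d + 1) → ℤ | θ + lv j ∈ shl d (l / r) h}.Finite := by
    intro θ
    refine (lv_norm_finite (d + 1) θ (l / r + h)).subset fun j hj => ?_
    have h3 := abs_le.1 (show |‖θ + lv j‖ - l / r| ≤ h from hj)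
    show ‖θ + lv j‖ ≤ l / r + h
    linarith [h3.2]
  have hsumle : ∀ (θ : E d) (J : Finset (Fin (d + 1) → ℤ)),
      (∀ j ∈ J, θ + lv j ∈ shl d (l / r) h) →
      ∑ j ∈ J, mcell d N f l r (θ + lv j) ≤ (n : ℝ≥0∞) • sg d := by
    intro θ J hJ
    have h4 := sum_le_sg (l / r) θ (n : ℝ≥0∞) J (fun j => mcell d N f l r (θ + lv j)) ?_
    · exact h4
    · intro j hj
      have h5 := hmle (θ + lv j) (by rw [← hh]; exact hJ j hj)
      rw [hn, ENNReal.ofReal_natCast] at h5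
      exact h5
  have hsg := sg_prob d
  have hmn : ∀ θ : E d, ∑' j : Fin (d + 1) → ℤ, m (θ + lv j) ≤ (n : ℝ≥0∞) := by
    intro θ
    rw [tsum_eq_sum (s := (hfinJ θ).toFinset)]
    · calc ∑ j ∈ (hfinJ θ).toFinset, m (θ + lv j)
          = ∑ j ∈ (hfinJ θ).toFinset, mcell d N f l r (θ + lv j) univ := by
            refine Finset.sum_congr rfl fun j hj => ?_
            have hj' : θ + lv j ∈ shl d (l / r) h := by simpa using hj
            rw [hmd, Set.indicator_of_mem hj', mcell_mass d N f hf.measurable hf0 hf1 l r hr]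
        _ = (∑ j ∈ (hfinJ θ).toFinset, mcell d N f l r (θ + lv j)) univ := by
            rw [Measure.finset_sum_apply]
        _ ≤ ((n : ℝ≥0∞) • sg d) univ := by
            apply hsumle θ
            intro j hj
            simpa using hj
        _ = n := by rw [Measure.smul_apply, measure_univ, smul_eq_mul, mul_one]
    · intro j hj
      have hj' : θ + lv j ∉ shl d (l / r) h := by simpa using hj
      rw [hmd, Set.indicator_of_notMem hj']
  obtain ⟨θ, -, hθ⟩ := exists_theta (d + 1) b m hbm hmm n (ENNReal.natCast_ne_top n) hmn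
    (ENNReal.ofReal κ)
  -- integrals
  have hib : ∫⁻ t, b t ≤ ENNReal.ofReal (
      (1 + τ) ^ 3 * r ^ a / 2 * (((1 - Real.sqrt ((d:ℝ) + 1) / l) ^ d)⁻¹ * r ^ (-(d:ℝ)) *
      (c1 * (2 * V)))
    + A * (l / r) ^ (-a) * (C3 * (l / r) ^ d + l ^ (-a) * (N ^ 2 *
        (((1 - Real.sqrt ((d:ℝ) + 1) / l) ^ d)⁻¹ * r ^ (-(d:ℝ)) * (Cm * l ^ (-(d:ℝ))))))
    + κ * (N * (((1 - Real.sqrt ((d:ℝ) + 1) / l) ^ d)⁻¹ * r ^ (-(d:ℝ)) * δ'))) := by
    have hx : 0 < 1 - Real.sqrt ((d:ℝ) + 1) / l := by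
      rw [sub_pos, div_lt_one hl0]; exact hl1
    have e2 := int_b2 f hf.measurable hf0 hf1 hi3 Cm hCm C3 hC3 l r hl hr hr1 hm hs
      (A * (l / r) ^ (-a)) (l ^ (-a)) (by positivity) (by positivity) N
    have e3 := int_b3 g hgm hg0 hg1 δ' hi2' l r κ hl1 hr hr1 hκ N
    have e1 := (jac d _ l r h0 hl1 hr hr1 LE hLEm).1
    rw [hb, lintegral_indicator (shl_meas d _ _), hb0, hh]
    have s1 : ∫⁻ t in shl d (l / r) (Real.sqrt ((d:ℝ) + 1)),
        (ENNReal.ofReal ((1 + τ) ^ 3 * r ^ a / 2) * LE (zsh l (l / r) t) +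
        (ENNReal.ofReal (A * (l / r) ^ (-a) *
          (1 + l ^ (-a) * (N * mf f l (zsh l (l / r) t)) ^ 2)) +
        ENNReal.ofReal (κ * (N * mf g l (zsh l (l / r) t))))) =
        ENNReal.ofReal ((1 + τ) ^ 3 * r ^ a / 2) *
          (∫⁻ t in shl d (l / r) (Real.sqrt ((d:ℝ) + 1)), LE (zsh l (l / r) t)) +
        ((∫⁻ t in shl d (l / r) (Real.sqrt ((d:ℝ) + 1)), ENNReal.ofReal (A * (l / r) ^ (-a) *
          (1 + l ^ (-a) * (N * mf f l (zsh l (l / r) t)) ^ 2))) +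
        ∫⁻ t in shl d (l / r) (Real.sqrt ((d:ℝ) + 1)),
          ENNReal.ofReal (κ * (N * mf g l (zsh l (l / r) t)))) := by
      have nn1 : Measurable (fun t : E d => ENNReal.ofReal ((1 + τ) ^ 3 * r ^ a / 2) *
          LE (zsh l (l / r) t)) := mm1.comp hzm
      have nn2 : Measurable (fun t : E d => ENNReal.ofReal (A * (l / r) ^ (-a) *
          (1 + l ^ (-a) * (N * mf f l (zsh l (l / r) t)) ^ 2))) := mm2.comp hzm
      rw [lintegral_add_left nn1, lintegral_add_left nn2,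
        lintegral_const_mul' _ _ ENNReal.ofReal_ne_top]
    refine (le_of_eq s1).trans ?_
    calc _ ≤ ENNReal.ofReal ((1 + τ) ^ 3 * r ^ a / 2) *
          (ENNReal.ofReal (((1 - Real.sqrt ((d:ℝ) + 1) / l) ^ d)⁻¹ * r ^ (-(d:ℝ))) *
            ENNReal.ofReal (c1 * (2 * V))) +
          (ENNReal.ofReal (A * (l / r) ^ (-a) * (C3 * (l / r) ^ d + l ^ (-a) * (N ^ 2 *
        (((1 - Real.sqrt ((d:ℝ) + 1) / l) ^ d)⁻¹ * r ^ (-(d:ℝ)) * (Cm * l ^ (-(d:ℝ))))))) +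
          ENNReal.ofReal
            (κ * (N * (((1 - Real.sqrt ((d:ℝ) + 1) / l) ^ d)⁻¹ * r ^ (-(d:ℝ)) * δ')))) := by
          refine add_le_add ?_ (add_le_add e2 e3)
          refine mul_le_mul_right ?_ _
          exact e1.trans (mul_le_mul_right hLEi _)
      _ = _ := by
          rw [← ENNReal.ofReal_mul (by positivity), ← ENNReal.ofReal_mul (by positivity),
            ← ENNReal.ofReal_add (by positivity) (by positivity),
            ← ENNReal.ofReal_add (by positivity) (by positivity)]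
          congr 1
          ring
  have him : ENNReal.ofReal ((1 - Real.sqrt ((d:ℝ) + 1) / l) ^ d * r ^ (-(d:ℝ)) *
      (N * (1 - δ'))) ≤ ∫⁻ t, m t := by
    rw [hmd, lintegral_indicator (shl_meas d _ _), hh]
    exact int_m f hf.measurable hf0 hf1 δ hδ hfδ δ' hδ1 hi1 l r hl1 hr hr1 N
  -- the finite family
  obtain ⟨J, hJ⟩ : ∃ J : Finset (Fin (d + 1) → ℤ), J = (hfinJ θ).toFinset := ⟨_, rfl⟩
  have hJmem : ∀ j ∈ J, θ + lv j ∈ shl d (l / r) h := by
    intro j hj; rw [hJ] at hj; simpa using hj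
  obtain ⟨B, hB⟩ : ∃ B : (Fin (d + 1) → ℤ) → ℝ, B = fun j =>
      (1 + τ) ^ 3 * r ^ a / 2 * (∫ ω, locE Φ f a κ1 (muC (fun i => rot (G ω) (x i)))
              (nuC d N) l (zsh l (l / r) (θ + lv j)) ∂P)
          + A * (l / r) ^ (-a) * (1 + l ^ (-a) * (N * mf f l (zsh l (l / r) (θ + lv j))) ^ 2)
          + κ * (N * mf g l (zsh l (l / r) (θ + lv j))) := ⟨_, rfl⟩
  have hBpos : ∀ j, 0 ≤ B j := by
    intro j
    rw [hB]
    have p1 : 0 ≤ ∫ ω, locE Φ f a κ1 (muC (fun i => rot (G ω) (x i)))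
              (nuC d N) l (zsh l (l / r) (θ + lv j)) ∂P :=
      integral_nonneg fun _ => locE_nonneg Φ f a κ1 hκ1 _ _ l hl0 _
    have p2 := mf_nonneg g hg0 l (zsh l (l / r) (θ + lv j))
    positivity
  have hBle : ∀ j ∈ J, ENNReal.ofReal (B j) ≤ b (θ + lv j) := by
    intro j hj
    rw [hb, Set.indicator_of_mem (hJmem j hj), hb0, hB]
    have p1 : 0 ≤ ∫ ω, locE Φ f a κ1 (muC (fun i => rot (G ω) (x i)))
              (nuC d N) l (zsh l (l / r) (θ + lv j)) ∂P :=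
      integral_nonneg fun _ => locE_nonneg Φ f a κ1 hκ1 _ _ l hl0 _
    have p2 := mf_nonneg g hg0 l (zsh l (l / r) (θ + lv j))
    show ENNReal.ofReal (_ + _ + _) ≤ _ + (_ + _)
    rw [ENNReal.ofReal_add (by positivity) (by positivity),
      ENNReal.ofReal_add (by positivity) (by positivity), add_assoc,
      ENNReal.ofReal_mul (p := (1 + τ) ^ 3 * r ^ a / 2) (by positivity)]
    have p3 : ENNReal.ofReal (∫ ω, locE Φ f a κ1 (muC (fun i => rot (G ω) (x i)))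
              (nuC d N) l (zsh l (l / r) (θ + lv j)) ∂P) ≤ LE (zsh l (l / r) (θ + lv j)) := by
      rw [hLE]
      exact ofReal_int_le P _ fun _ => locE_nonneg Φ f a κ1 hκ1 _ _ l hl0 _
    exact add_le_add (mul_le_mul_right p3 _) le_rfl
  have hsumB : ENNReal.ofReal (∑ j ∈ J, B j) ≤ ∑' j : Fin (d + 1) → ℤ, b (θ + lv j) := by
    rw [ENNReal.ofReal_sum_of_nonneg (fun j _ => hBpos j)]
    exact (Finset.sum_le_sum hBle).trans (ENNReal.sum_le_tsum J)
  have hsumm : ∑' j : Fin (d + 1) → ℤ, m (θ + lv j) =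
      ENNReal.ofReal (∑ j ∈ J, (mcell d N f l r (θ + lv j)).real univ) := by
    rw [tsum_eq_sum (s := J), ENNReal.ofReal_sum_of_nonneg (fun j _ => measureReal_nonneg)]
    · refine Finset.sum_congr rfl fun j hj => ?_
      rw [hmd, Set.indicator_of_mem (hJmem j hj), hmr]
    · intro j hj
      have hj' : θ + lv j ∉ shl d (l / r) h := by rw [hJ] at hj; simpa using hj
      rw [hmd, Set.indicator_of_notMem hj']
  have hMn : ∑ j ∈ J, (mcell d N f l r (θ + lv j)).real univ ≤ n := by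
    have := hmn θ
    rw [hsumm] at this
    have h6 : ENNReal.ofReal (∑ j ∈ J, (mcell d N f l r (θ + lv j)).real univ) ≤
        ENNReal.ofReal (n:ℝ) := by rw [ENNReal.ofReal_natCast]; exact this
    exact (ENNReal.ofReal_le_ofReal_iff (Nat.cast_nonneg n)).1 h6
  -- conclusion
  obtain ⟨s, hs1, hs2⟩ := assemble d hd a ha ha2 had Φ hΦ Cp hpool n J
    (fun j => mcell d N f l r (θ + lv j)) (hsumle θ J hJmem) κ hκ B (by
      intro j hj e
      obtain ⟨s, ρ, q1, q2, q3⟩ := hcell (θ + lv j) (by rw [← hh]; exact hJmem j hj) e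
      refine ⟨s, ρ, q1, q2, q3.trans (le_of_eq ?_)⟩
      rw [hB, hmr, hg]
      show _ = ‖e‖ ^ 2 + (_ + _ + _)
      unfold mf
      ring) X hX
  refine ⟨s, hs1, hs2.trans ?_⟩
  have hfinal : ENNReal.ofReal (∑ j ∈ J, B j +
      κ * (n - ∑ j ∈ J, (mcell d N f l r (θ + lv j)).real univ)) ≤
      ENNReal.ofReal (TT d a τ A κ δ' Cm C3 c1 V l r N n) := by
    have hx : 0 < 1 - Real.sqrt ((d:ℝ) + 1) / l := by
      rw [sub_pos, div_lt_one hl0]; exact hl1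
    have hx1 : (1 - Real.sqrt ((d:ℝ) + 1) / l) ^ d ≤ 1 := by
      apply pow_le_one₀ hx.le
      have : 0 ≤ Real.sqrt ((d:ℝ) + 1) / l := by positivity
      linarith
    have hT2 : (1 - Real.sqrt ((d:ℝ) + 1) / l) ^ d * r ^ (-(d:ℝ)) * (N * (1 - δ')) ≤ n := by
      rw [← hn]
      calc (1 - Real.sqrt ((d:ℝ) + 1) / l) ^ d * r ^ (-(d:ℝ)) * (N * (1 - δ'))
          = ((1 - Real.sqrt ((d:ℝ) + 1) / l) ^ d * (1 - δ')) * (N * r ^ (-(d:ℝ))) := by ring
        _ ≤ 1 * (N * r ^ (-(d:ℝ))) := by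
            apply mul_le_mul_of_nonneg_right _ (by positivity)
            calc (1 - Real.sqrt ((d:ℝ) + 1) / l) ^ d * (1 - δ') ≤ 1 * 1 :=
                  mul_le_mul hx1 (by linarith) (by linarith) (by norm_num)
              _ = 1 := one_mul 1
        _ = _ := one_mul _
    calc ENNReal.ofReal (∑ j ∈ J, B j +
        κ * (n - ∑ j ∈ J, (mcell d N f l r (θ + lv j)).real univ))
        = ENNReal.ofReal (∑ j ∈ J, B j) + ENNReal.ofReal κ * ((n : ℝ≥0∞) -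
          ENNReal.ofReal (∑ j ∈ J, (mcell d N f l r (θ + lv j)).real univ)) := by
          rw [ENNReal.ofReal_add (Finset.sum_nonneg fun j _ => hBpos j)
            (mul_nonneg hκ (by linarith)), ENNReal.ofReal_mul hκ,
            ENNReal.ofReal_sub _ (Finset.sum_nonneg fun j _ => measureReal_nonneg),
            ENNReal.ofReal_natCast]
      _ ≤ (∑' j : Fin (d + 1) → ℤ, b (θ + lv j)) + ENNReal.ofReal κ * ((n : ℝ≥0∞) -
          ∑' j : Fin (d + 1) → ℤ, m (θ + lv j)) := by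
          rw [hsumm]
          exact add_le_add hsumB le_rfl
      _ ≤ (∫⁻ t, b t) + ENNReal.ofReal κ * ((n : ℝ≥0∞) - ∫⁻ t, m t) := hθ
      _ ≤ _ + ENNReal.ofReal κ * ((n : ℝ≥0∞) - ENNReal.ofReal
          ((1 - Real.sqrt ((d:ℝ) + 1) / l) ^ d * r ^ (-(d:ℝ)) * (N * (1 - δ')))) := by
          refine add_le_add hib ?_
          refine mul_le_mul_right ?_ _
          exact tsub_le_tsub_left him _
      _ = _ := by
          rw [← ENNReal.ofReal_natCast, ← ENNReal.ofReal_sub _ (by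
              have : 0 ≤ 1 - δ' := by linarith
              positivity), ← ENNReal.ofReal_mul hκ,
            ← ENNReal.ofReal_add (by positivity) (mul_nonneg hκ (by linarith))]
          rfl
  have hTT : 0 ≤ TT d a τ A κ δ' Cm C3 c1 V l r N n := by
    have hx : 0 < 1 - Real.sqrt ((d:ℝ) + 1) / l := by
      rw [sub_pos, div_lt_one hl0]; exact hl1
    have hx1 : (1 - Real.sqrt ((d:ℝ) + 1) / l) ^ d ≤ 1 := by
      apply pow_le_one₀ hx.le
      have : 0 ≤ Real.sqrt ((d:ℝ) + 1) / l := by positivity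
      linarith
    have hT2 : (1 - Real.sqrt ((d:ℝ) + 1) / l) ^ d * r ^ (-(d:ℝ)) * (N * (1 - δ')) ≤ n := by
      rw [← hn]
      calc (1 - Real.sqrt ((d:ℝ) + 1) / l) ^ d * r ^ (-(d:ℝ)) * (N * (1 - δ'))
          = ((1 - Real.sqrt ((d:ℝ) + 1) / l) ^ d * (1 - δ')) * (N * r ^ (-(d:ℝ))) := by ring
        _ ≤ 1 * (N * r ^ (-(d:ℝ))) := by
            apply mul_le_mul_of_nonneg_right _ (by positivity)
            calc (1 - Real.sqrt ((d:ℝ) + 1) / l) ^ d * (1 - δ') ≤ 1 * 1 :=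
                  mul_le_mul hx1 (by linarith) (by linarith) (by norm_num)
              _ = 1 := one_mul 1
        _ = _ := one_mul _
    unfold TT
    have : 0 ≤ κ * (n - (1 - Real.sqrt ((d:ℝ) + 1) / l) ^ d * r ^ (-(d:ℝ)) * (N * (1 - δ'))) :=
      mul_nonneg hκ (by linarith)
    positivity
  have := (ENNReal.ofReal_le_ofReal_iff hTT).1 hfinal
  linarith

end Pool.Agent.TH331.RZ
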