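import Pool.Agent.TH331.RZ.Step2
import Pool.Agent.TH331.RZ.Cut
import Pool.Agent.TH331.RZ.Loc6
import Pool.Agent.Helper88.SE.P_exists_haar

set_option autoImplicit false

open MeasureTheory Set Filter Topology
open scoped ENNReal Real FourierTransform

namespace Pool.Agent.TH331.RZ

open Pool.Agent.Helper88.SE

/-- normalised form of `TT` -/
theorem TT_alg (d : ℕ) (a τ A κ0 δ' Cm C3 c1 V p q R : ℝ) (N n : ℕ) (hp : 0 < p) (hq : 0 < q)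
    (hR : 0 < R) (hN : (N:ℝ) = p ^ (d:ℝ)) (hn : (n:ℝ) = q ^ (d:ℝ)) :
    TT d a τ A (κ0 * q ^ (-a)) δ' Cm C3 c1 V (p / R) (p / q) N n =
      q ^ ((d:ℝ) - a) * ((1 + τ) ^ 3 * ((1 - Real.sqrt ((d:ℝ) + 1) / (p / R)) ^ d)⁻¹ * c1 *
        (V / p ^ ((d:ℝ) - a)) +
        A * (C3 * R ^ (a - (d:ℝ)) + ((1 - Real.sqrt ((d:ℝ) + 1) / (p / R)) ^ d)⁻¹ * Cm *
          R ^ (a + (d:ℝ)) * (p / R) ^ (-a)) +
        κ0 * (((1 - Real.sqrt ((d:ℝ) + 1) / (p / R)) ^ d)⁻¹ * δ' + 1 -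
          (1 - Real.sqrt ((d:ℝ) + 1) / (p / R)) ^ d * (1 - δ'))) := by
  unfold TT
  obtain ⟨J, hJ⟩ : ∃ J : ℝ, J = ((1 - Real.sqrt ((d:ℝ) + 1) / (p / R)) ^ d)⁻¹ := ⟨_, rfl⟩
  obtain ⟨J', hJ'⟩ : ∃ J : ℝ, J = (1 - Real.sqrt ((d:ℝ) + 1) / (p / R)) ^ d := ⟨_, rfl⟩
  rw [← hJ, ← hJ']
  have e0 : p / R / (p / q) = q / R := by field_simp
  rw [e0]
  obtain ⟨P, hP⟩ : ∃ P : ℝ, P = p ^ a := ⟨_, rfl⟩
  obtain ⟨Pd, hPd⟩ : ∃ P : ℝ, P = p ^ (d:ℝ) := ⟨_, rfl⟩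
  obtain ⟨Q, hQ⟩ : ∃ P : ℝ, P = q ^ a := ⟨_, rfl⟩
  obtain ⟨Qd, hQd⟩ : ∃ P : ℝ, P = q ^ (d:ℝ) := ⟨_, rfl⟩
  obtain ⟨Ra, hRa⟩ : ∃ P : ℝ, P = R ^ a := ⟨_, rfl⟩
  obtain ⟨Rd, hRd⟩ : ∃ P : ℝ, P = R ^ (d:ℝ) := ⟨_, rfl⟩
  have hP0 : 0 < P := by rw [hP]; positivity
  have hPd0 : 0 < Pd := by rw [hPd]; positivity
  have hQ0 : 0 < Q := by rw [hQ]; positivity
  have hQd0 : 0 < Qd := by rw [hQd]; positivity
  have hRa0 : 0 < Ra := by rw [hRa]; positivity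
  have hRd0 : 0 < Rd := by rw [hRd]; positivity
  have f1 : (p / q) ^ a = P / Q := by rw [Real.div_rpow hp.le hq.le, hP, hQ]
  have f2 : (p / q) ^ (-(d:ℝ)) = Qd / Pd := by
    rw [Real.div_rpow hp.le hq.le, Real.rpow_neg hp.le, Real.rpow_neg hq.le, ← hPd, ← hQd]
    field_simp
  have f3 : (q / R) ^ (-a) = Ra / Q := by
    rw [Real.div_rpow hq.le hR.le, Real.rpow_neg hq.le, Real.rpow_neg hR.le, ← hQ, ← hRa]
    field_simp
  have f4 : (q / R) ^ d = Qd / Rd := by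
    rw [← Real.rpow_natCast, Real.div_rpow hq.le hR.le, hQd, hRd]
  have f5 : (p / R) ^ (-(d:ℝ)) = Rd / Pd := by
    rw [Real.div_rpow hp.le hR.le, Real.rpow_neg hp.le, Real.rpow_neg hR.le, ← hPd, ← hRd]
    field_simp
  have f6 : q ^ ((d:ℝ) - a) = Qd / Q := by rw [Real.rpow_sub hq, hQd, hQ]
  have f7 : p ^ ((d:ℝ) - a) = Pd / P := by rw [Real.rpow_sub hp, hPd, hP]
  have f8 : R ^ (a - (d:ℝ)) = Ra / Rd := by rw [Real.rpow_sub hR, hRa, hRd]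
  have f9 : R ^ (a + (d:ℝ)) = Ra * Rd := by rw [Real.rpow_add hR, hRa, hRd]
  have f10 : q ^ (-a) = 1 / Q := by rw [Real.rpow_neg hq.le, ← hQ, one_div]
  obtain ⟨la, hla⟩ : ∃ l : ℝ, l = (p / R) ^ (-a) := ⟨_, rfl⟩
  rw [f1, f2, f3, f4, f5, f6, f7, f8, f9, f10, ← hla, hN, hn, ← hPd, ← hQd]
  field_simp
  ring

theorem choose_scale {d : ℕ} {H : Type} [NormedAddCommGroup H] [InnerProductSpace ℝ H]
    [CompleteSpace H] (Φ : E d → H) (hΦc : Continuous Φ) (f : E d → ℝ) (hf : Continuous f)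
    (a κ : ℝ) {Ω : Type} [MeasurableSpace Ω] (P : Measure Ω) [IsProbabilityMeasure P]
    (G : Ω → Iso d) (hG : Measurable (fun p : Ω × S d => rot (G p.1) p.2)) {N : ℕ}
    (x : Fin N → S d) (l0 T : ℝ) (K : ℕ) (hK : 1 ≤ K) (hT : 0 ≤ T)
    (hloc : ∀ ω, ∑ k ∈ Finset.range K, ∫⁻ z : E d, ENNReal.ofReal
      (locE Φ f a κ (muC (fun i => rot (G ω) (x i))) (nuC d N) (2 ^ k * l0) z) ≤
      ENNReal.ofReal T) :
    ∃ k < K, ∫⁻ ω, (∫⁻ z : E d, ENNReal.ofReal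
      (locE Φ f a κ (muC (fun i => rot (G ω) (x i))) (nuC d N) (2 ^ k * l0) z)) ∂P ≤
      ENNReal.ofReal (T / K) := by
  by_contra hcon
  push Not at hcon
  have hKR : (0:ℝ) < K := by exact_mod_cast hK
  have hmeas : ∀ k : ℕ, Measurable (fun ω => ∫⁻ z : E d, ENNReal.ofReal
      (locE Φ f a κ (muC (fun i => rot (G ω) (x i))) (nuC d N) (2 ^ k * l0) z)) := by
    intro k
    exact (locE_meas Φ hΦc f hf a κ G hG x (2 ^ k * l0)).ennreal_ofReal.lintegral_prod_right'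
  have h1 : ∑ k ∈ Finset.range K, ∫⁻ ω, (∫⁻ z : E d, ENNReal.ofReal
      (locE Φ f a κ (muC (fun i => rot (G ω) (x i))) (nuC d N) (2 ^ k * l0) z)) ∂P ≤
      ENNReal.ofReal T := by
    rw [← lintegral_finset_sum _ (fun k _ => hmeas k)]
    calc _ ≤ ∫⁻ _, ENNReal.ofReal T ∂P := lintegral_mono hloc
      _ = ENNReal.ofReal T := by simp
  have h2 : ∑ _k ∈ Finset.range K, ENNReal.ofReal (T / K) <
      ∑ k ∈ Finset.range K, ∫⁻ ω, (∫⁻ z : E d, ENNReal.ofReal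
      (locE Φ f a κ (muC (fun i => rot (G ω) (x i))) (nuC d N) (2 ^ k * l0) z)) ∂P := by
    apply ENNReal.sum_lt_sum_of_nonempty
    · exact Finset.nonempty_range_iff.2 (by omega)
    · intro k hk
      exact hcon k (Finset.mem_range.1 hk)
  have h3 : ∑ _k ∈ Finset.range K, ENNReal.ofReal (T / K) = ENNReal.ofReal T := by
    rw [Finset.sum_const, Finset.card_range, nsmul_eq_mul, ← ENNReal.ofReal_natCast,
      ← ENNReal.ofReal_mul hKR.le]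
    congr 1
    field_simp
  rw [h3] at h2
  exact absurd h1 (not_le.2 h2)

theorem tend_facts (d : ℕ) (a A Cm R2 η e1 : ℝ) (ha : 0 < a) (hη : 0 < η) (he1 : 0 < e1) :
    ∃ L : ℝ, ∀ l : ℝ, L ≤ l → Real.sqrt ((d:ℝ) + 1) + 1 ≤ l ∧
      ((1 - Real.sqrt ((d:ℝ) + 1) / l) ^ d)⁻¹ ≤ 1 + η ∧
      1 - η ≤ (1 - Real.sqrt ((d:ℝ) + 1) / l) ^ d ∧
      A * ((1 + η) * Cm * R2 * l ^ (-a)) ≤ e1 := by
  have t1 : Tendsto (fun l : ℝ => (1 - Real.sqrt ((d:ℝ) + 1) / l) ^ d) atTop (𝓝 1) := by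
    have h1 : Tendsto (fun l : ℝ => Real.sqrt ((d:ℝ) + 1) / l) atTop (𝓝 0) :=
      tendsto_const_nhds.div_atTop tendsto_id
    have h2 : Tendsto (fun l : ℝ => (1 - Real.sqrt ((d:ℝ) + 1) / l) ^ d) atTop
        (𝓝 ((1 - 0) ^ d)) := (tendsto_const_nhds.sub h1).pow d
    simpa using h2
  have t2 : Tendsto (fun l : ℝ => ((1 - Real.sqrt ((d:ℝ) + 1) / l) ^ d)⁻¹) atTop (𝓝 1) := by
    have := t1.inv₀ one_ne_zero
    simpa using this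
  have t3 : Tendsto (fun l : ℝ => A * ((1 + η) * Cm * R2 * l ^ (-a))) atTop (𝓝 0) := by
    have h1 := tendsto_rpow_neg_atTop ha
    have h2 := (h1.const_mul ((1 + η) * Cm * R2)).const_mul A
    simpa using h2
  have ev := ((eventually_ge_atTop (Real.sqrt ((d:ℝ) + 1) + 1)).and
    ((t2.eventually (eventually_le_nhds (show (1:ℝ) < 1 + η by linarith))).and
    ((t1.eventually (eventually_ge_nhds (show 1 - η < (1:ℝ) by linarith))).and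
    (t3.eventually (eventually_le_nhds he1)))))
  obtain ⟨L, hL⟩ := eventually_atTop.1 ev
  exact ⟨L, hL⟩

end Pool.Agent.TH331.RZ
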