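import Pool.Agent.TH331.RZ.Step3

set_option autoImplicit false

open MeasureTheory Set Filter Topology
open scoped ENNReal Real FourierTransform

namespace Pool.Agent.TH331.RZ

open Pool.Agent.Helper88.SE

theorem fin_alg (ε τ J J' c1 v AA κ0 δ' w1 w2 : ℝ) (hε : 0 < ε) (hε1 : ε ≤ 1)
    (hτ : τ = ε / 20) (hv : 0 ≤ v) (hJ : J ≤ 1 + ε / 5) (hJ0 : 0 ≤ J) (hc1 : c1 ≤ 1 + ε / 5)
    (hc10 : 0 ≤ c1)
    (hw : AA * (w1 + w2) ≤ 2 * (ε / 5))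
    (hk : κ0 * (J * δ' + 1 - J' * (1 - δ')) ≤ ε / 5) :
    (1 + τ) ^ 3 * J * c1 * v + AA * (w1 + w2) + κ0 * (J * δ' + 1 - J' * (1 - δ')) + ε / 5 ≤
      (1 + ε) * v + ε := by
  have h1 : (1 + τ) ^ 3 ≤ 1 + ε / 5 := by
    rw [hτ]
    nlinarith [mul_pos hε hε, mul_pos (mul_pos hε hε) hε]
  have h2 : (1 + τ) ^ 3 * J * c1 ≤ 1 + ε := by
    have hτ0 : 0 ≤ (1 + τ) ^ 3 := by rw [hτ]; positivity
    calc (1 + τ) ^ 3 * J * c1 ≤ (1 + ε / 5) * (1 + ε / 5) * (1 + ε / 5) := by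
          apply mul_le_mul _ hc1 hc10 (by positivity)
          exact mul_le_mul h1 hJ hJ0 (by positivity)
      _ ≤ 1 + ε := by nlinarith [mul_pos hε hε, mul_pos (mul_pos hε hε) hε]
  have h3 := mul_le_mul_of_nonneg_right h2 hv
  linarith

theorem step_neg (d : ℕ) (hd : 1 ≤ d) (a : ℝ) (ha : 0 < a) (ha2 : a < 2) (had : a < d)
    {H : Type} [NormedAddCommGroup H] [InnerProductSpace ℝ H] [CompleteSpace H]
    (Φ : E d → H) (hΦ : ∀ u v, ‖Φ u - Φ v‖ ^ 2 = ‖u - v‖ ^ a)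
    (ε : ℝ) (hε : 0 < ε) (hε1 : ε ≤ 1) :
    ∃ N0 : ℕ, 1 ≤ N0 ∧ ∀ N : ℕ, N0 ≤ N → ∀ (x : Fin N → S d) (n : ℕ), N ≤ n →
      ∃ s : Multiset (S d), Multiset.card s = n ∧
        ‖(s.map (fun x : S d => Φ x)).sum - (n:ℝ) • ∫ x : S d, Φ x ∂(sg d)‖ ^ 2 ≤
          ((1 + ε) * (‖dI (muC x) (nuC d N) Φ‖ ^ 2 / (N:ℝ) ^ (1 - a / d)) + ε) *
            (n:ℝ) ^ (1 - a / d) := by
  have hd0 : (0:ℝ) < d := by exact_mod_cast hd
  have hβ : 0 < 1 - a / d := by rw [sub_pos, div_lt_one hd0]; exact had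
  have hβ1 : 1 - a / d < 1 := by
    have : 0 < a / d := by positivity
    linarith
  have hΦc : Continuous Φ := feat_cont ha Φ hΦ
  -- constants
  obtain ⟨Cp, hCp, hpool⟩ := pool_round d hd a ha ha2 had Φ hΦ
  obtain ⟨κ0, hκ0, hyoung⟩ := young Cp (1 - a / d) (ε / 5) hCp hβ hβ1 (by positivity)
  obtain ⟨η, hη⟩ : ∃ η : ℝ, η = ε / (20 * (κ0 + 1)) := ⟨_, rfl⟩
  have hη0 : 0 < η := by rw [hη]; positivity
  have hηε : η ≤ ε / 20 := by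
    rw [hη, div_le_div_iff₀ (by positivity) (by norm_num)]
    nlinarith
  have hκη : κ0 * η ≤ ε / 20 := by
    rw [hη, ← mul_div_assoc, div_le_div_iff₀ (by positivity) (by norm_num)]
    nlinarith
  obtain ⟨δ, f, hδ, hf, hfc, hf0, hf1, hfδ, hi1, hi2, hi3, hi4⟩ :=
    cut_facts d η hη0 (by linarith)
  obtain ⟨τ, hτ⟩ : ∃ τ : ℝ, τ = ε / 20 := ⟨_, rfl⟩
  have hτ0 : 0 < τ := by rw [hτ]; positivity
  obtain ⟨A, κ1, l1, hA, hκ1, hl1, hcell⟩ :=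
    cell_t d hd a ha ha2 Φ hΦ f hf.continuous hf0 hf1 δ hδ hfδ τ hτ0 (by linarith) κ0 hκ0
  obtain ⟨l2, hl2, hmle⟩ := mcell_le d hd f hf.continuous hf0 hf1 δ hδ hfδ
  obtain ⟨Cl, hCl, hloc⟩ := loc d a ha ha2 Φ hΦ f hf hfc hi4 (ε / 10) (by positivity) κ1 hκ1
  obtain ⟨K, hK1, hK2⟩ : ∃ K : ℕ, 1 ≤ K ∧ Cl / K ≤ ε / 10 := by
    obtain ⟨K, hK⟩ := exists_nat_gt (Cl / (ε / 10))
    refine ⟨K + 1, by omega, ?_⟩
    rw [div_le_iff₀ (by positivity)]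
    rw [div_lt_iff₀ (by positivity)] at hK
    push_cast
    nlinarith
  obtain ⟨Cm, hCm, hmfb⟩ := mf_bound d (Real.sqrt ((d:ℝ) + 1)) (Real.sqrt_nonneg _)
  obtain ⟨C3, hC3, hshl⟩ := shl_vol d (Real.sqrt ((d:ℝ) + 1)) (Real.sqrt_nonneg _)
  obtain ⟨R1, hR1, hR1'⟩ : ∃ R1 : ℝ, 1 ≤ R1 ∧ ∀ R : ℝ, R1 ≤ R →
      A * (C3 * R ^ (a - (d:ℝ))) ≤ ε / 5 := by
    have t : Tendsto (fun R : ℝ => A * (C3 * R ^ (a - (d:ℝ)))) atTop (𝓝 0) := by
      have h1 : Tendsto (fun R : ℝ => R ^ (a - (d:ℝ))) atTop (𝓝 0) := by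
        have := tendsto_rpow_neg_atTop (show 0 < (d:ℝ) - a by linarith)
        refine this.congr fun R => ?_
        congr 1; ring
      have := (h1.const_mul C3).const_mul A
      simpa using this
    obtain ⟨R1, h⟩ := eventually_atTop.1
      (t.eventually (eventually_le_nhds (show (0:ℝ) < ε / 5 by positivity)))
    exact ⟨max R1 1, le_max_right _ _, fun R hR => h R (le_trans (le_max_left _ _) hR)⟩
  obtain ⟨R2, hR2⟩ : ∃ R2 : ℝ, R2 = R1 * 2 ^ K := ⟨_, rfl⟩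
  have hR20 : 0 < R2 := by rw [hR2]; positivity
  obtain ⟨L, hL⟩ := tend_facts d a A Cm (R2 ^ (a + (d:ℝ))) η (ε / 5) ha hη0 (by positivity)
  -- N0
  obtain ⟨N0, hN0⟩ : ∃ N0 : ℕ, ((max L (max l1 l2)) * R2) ^ (d:ℝ) ≤ N0 := exists_nat_ge _
  refine ⟨max N0 1, le_max_right _ _, ?_⟩
  intro N hN x n hNn
  have hN1 : 1 ≤ N := le_trans (le_max_right _ _) hN
  have hNN0 : N0 ≤ N := le_trans (le_max_left _ _) hN
  have hNpos : (0:ℝ) < N := by exact_mod_cast hN1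
  have hnpos : (0:ℝ) < n := by exact_mod_cast (lt_of_lt_of_le hN1 hNn)
  have hNnR : (N:ℝ) ≤ n := by exact_mod_cast hNn
  obtain ⟨p, hp⟩ : ∃ p : ℝ, p = (N:ℝ) ^ (1 / (d:ℝ)) := ⟨_, rfl⟩
  obtain ⟨q, hq⟩ : ∃ q : ℝ, q = (n:ℝ) ^ (1 / (d:ℝ)) := ⟨_, rfl⟩
  have hp0 : 0 < p := by rw [hp]; positivity
  have hq0 : 0 < q := by rw [hq]; positivity
  have hNp : (N:ℝ) = p ^ (d:ℝ) := by
    rw [hp, ← Real.rpow_mul hNpos.le, one_div, inv_mul_cancel₀ hd0.ne', Real.rpow_one]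
  have hnq : (n:ℝ) = q ^ (d:ℝ) := by
    rw [hq, ← Real.rpow_mul hnpos.le, one_div, inv_mul_cancel₀ hd0.ne', Real.rpow_one]
  have hpq : p ≤ q := by
    rw [hp, hq]
    exact Real.rpow_le_rpow hNpos.le hNnR (by positivity)
  have hNβ : (N:ℝ) ^ (1 - a / d) = p ^ ((d:ℝ) - a) := by
    rw [hNp, ← Real.rpow_mul hp0.le]
    congr 1; field_simp
  have hnβ : (n:ℝ) ^ (1 - a / d) = q ^ ((d:ℝ) - a) := by
    rw [hnq, ← Real.rpow_mul hq0.le]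
    congr 1; field_simp
  have hMp : max L (max l1 l2) ≤ p / R2 := by
    rw [le_div_iff₀ hR20]
    rcases le_or_gt (max L (max l1 l2)) 0 with h | h
    · have : max L (max l1 l2) * R2 ≤ 0 := mul_nonpos_of_nonpos_of_nonneg h hR20.le
      linarith
    · have h2 : ((max L (max l1 l2)) * R2) ^ (d:ℝ) ≤ p ^ (d:ℝ) := by
        rw [← hNp]
        exact hN0.trans (by exact_mod_cast hNN0)
      exact (Real.rpow_le_rpow_iff (by positivity) hp0.le hd0).1 h2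
  obtain ⟨V, hV⟩ : ∃ V : ℝ, V = ‖dI (muC x) (nuC d N) Φ‖ ^ 2 := ⟨_, rfl⟩
  have hV0 : 0 ≤ V := by rw [hV]; positivity
  -- Haar measure
  obtain ⟨Ω, mΩ, P, G, hP, hG, hlaw⟩ := exists_haar d
  -- scale
  have hT0 : 0 ≤ ((1 + ε / 10) * K + Cl) * (2 * V) := by positivity
  obtain ⟨k, hkK, hk⟩ := choose_scale Φ hΦc f hf.continuous a κ1 P G hG x (p / R2)
    (((1 + ε / 10) * K + Cl) * (2 * V)) K hK1 hT0 (by
      intro ω
      have h := hloc K (p / R2) (by positivity) (muC (fun i => rot (G ω) (x i))) (nuC d N)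
        (muC_ball _) (nuC_ball _) (by rw [muC_univ, nuC_univ])
      rw [energy_rot ha Φ hΦ x (G ω), ← hV] at h
      exact h)
  have hKR : (0:ℝ) < K := by exact_mod_cast hK1
  obtain ⟨c1, hc1⟩ : ∃ c1 : ℝ, c1 = 1 + ε / 10 + Cl / K := ⟨_, rfl⟩
  have hc10 : 0 ≤ c1 := by rw [hc1]; positivity
  have hc1' : c1 ≤ 1 + ε / 5 := by rw [hc1]; linarith
  have hTK : ((1 + ε / 10) * K + Cl) * (2 * V) / K = c1 * (2 * V) := by
    rw [hc1]; field_simp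
  rw [hTK] at hk
  obtain ⟨R, hR⟩ : ∃ R : ℝ, R = R2 / 2 ^ k := ⟨_, rfl⟩
  have hR0 : 0 < R := by rw [hR]; positivity
  have hlR : 2 ^ k * (p / R2) = p / R := by rw [hR]; field_simp
  rw [hlR] at hk
  have hRR1 : R1 ≤ R := by
    rw [hR, hR2, le_div_iff₀ (by positivity)]
    apply mul_le_mul_of_nonneg_left _ (by linarith)
    exact pow_le_pow_right₀ (by norm_num) hkK.le
  have hR1R : 1 ≤ R := hR1.trans hRR1
  have hRR2 : R ≤ R2 := by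
    rw [hR]
    exact div_le_self hR20.le (one_le_pow₀ (by norm_num))
  have hlbig : max L (max l1 l2) ≤ p / R := hMp.trans (by
    apply div_le_div_of_nonneg_left hp0.le hR0 hRR2)
  have hLl : L ≤ p / R := (le_max_left _ _).trans hlbig
  have hl1l : l1 ≤ p / R := ((le_max_left _ _).trans (le_max_right _ _)).trans hlbig
  have hl2l : l2 ≤ p / R := ((le_max_right _ _).trans (le_max_right _ _)).trans hlbig
  obtain ⟨hLa, hLb, hLc, hLd⟩ := hL (p / R) hLl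
  have hl0 : 0 < p / R := by positivity
  have hr0 : 0 < p / q := by positivity
  have hr1 : p / q ≤ 1 := by rw [div_le_one hq0]; exact hpq
  have hlr : p / R / (p / q) = q / R := by field_simp
  obtain ⟨κ, hκ⟩ : ∃ κ : ℝ, κ = κ0 * q ^ (-a) := ⟨_, rfl⟩
  have hκ' : 0 ≤ κ := by rw [hκ]; positivity
  have hκle : κ ≤ κ0 * (p / R / (p / q)) ^ (-a) := by
    rw [hκ, hlr]
    apply mul_le_mul_of_nonneg_left _ hκ0
    rw [Real.rpow_neg hq0.le, Real.rpow_neg (by positivity)]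
    apply inv_anti₀ (by positivity)
    exact Real.rpow_le_rpow (by positivity) (div_le_self hq0.le hR1R) ha.le
  have hnr : (N:ℝ) * (p / q) ^ (-(d:ℝ)) = n := by
    rw [hNp, hnq, Real.div_rpow hp0.le hq0.le, Real.rpow_neg hp0.le, Real.rpow_neg hq0.le]
    have h1 : p ^ (d:ℝ) ≠ 0 := (Real.rpow_pos_of_pos hp0 _).ne'
    have h2 : q ^ (d:ℝ) ≠ 0 := (Real.rpow_pos_of_pos hq0 _).ne'
    field_simp
  have hX : ∀ k : ℕ, Cp * (k:ℝ) ^ (1 - a / d) ≤ κ * k + ε / 5 * q ^ ((d:ℝ) - a) := by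
    intro k
    have h := hyoung ((k:ℝ) / n) (by positivity)
    rw [Real.div_rpow (Nat.cast_nonneg k) hnpos.le, hnβ] at h
    have hQ : 0 < q ^ ((d:ℝ) - a) := by positivity
    have h2 := mul_le_mul_of_nonneg_right h hQ.le
    have e1 : Cp * ((k:ℝ) ^ (1 - a / d) / q ^ ((d:ℝ) - a)) * q ^ ((d:ℝ) - a) =
        Cp * (k:ℝ) ^ (1 - a / d) := by field_simp
    rw [e1] at h2
    refine h2.trans (le_of_eq ?_)
    rw [hκ, hnq, Real.rpow_sub hq0, Real.rpow_neg hq0.le]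
    have h3 : q ^ (d:ℝ) ≠ 0 := (Real.rpow_pos_of_pos hq0 _).ne'
    have h4 : q ^ a ≠ 0 := (Real.rpow_pos_of_pos hq0 _).ne'
    field_simp
  have hq1 : Real.sqrt ((d:ℝ) + 1) + 1 ≤ p / R / (p / q) := by
    refine hLa.trans ?_
    rw [le_div_iff₀ hr0]
    nlinarith
  obtain ⟨s, hs1, hs2⟩ := step_fixed d hd a ha ha2 had Φ hΦ f hf.continuous hf0 hf1 δ hδ hfδ
    η hη0.le (by linarith) hi1 hi2 hi3 Cm hCm C3 hC3 τ A κ1 hτ0 hA hκ1 Cp hpool P G hG N x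
    (p / R) (p / q) hLa hr0 hr1
    (hmfb f hf.continuous.measurable hf0 hf1 (fun y hy => supp_norm f δ hδ hfδ y hy) (p / R) hl0)
    (hshl _ hq1) n hnr κ hκ'
    (fun t ht => hmle N (p / R) (p / q) hl2l hr0 hr1 t ht)
    (fun t ht e => hcell Ω P G hG hlaw N x (p / R) (p / q) hl1l hr0 hr1 t ht κ hκ' hκle e)
    c1 V hc10 hV0 hk (ε / 5 * q ^ ((d:ℝ) - a)) hX
  refine ⟨s, hs1, hs2.trans ?_⟩
  rw [hκ, TT_alg d a τ A κ0 η Cm C3 c1 V p q R N n hp0 hq0 hR0 hNp hnq, ← hV, hNβ, hnβ]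
  have hQ : 0 < q ^ ((d:ℝ) - a) := by positivity
  obtain ⟨J, hJ⟩ : ∃ J : ℝ, J = ((1 - Real.sqrt ((d:ℝ) + 1) / (p / R)) ^ d)⁻¹ := ⟨_, rfl⟩
  obtain ⟨J', hJ'⟩ : ∃ J : ℝ, J = (1 - Real.sqrt ((d:ℝ) + 1) / (p / R)) ^ d := ⟨_, rfl⟩
  rw [← hJ, ← hJ']
  rw [← hJ] at hLb
  rw [← hJ'] at hLc
  have hx : 0 < 1 - Real.sqrt ((d:ℝ) + 1) / (p / R) := by
    rw [sub_pos, div_lt_one hl0]; linarith
  have hJ0 : 0 ≤ J := by rw [hJ]; positivity
  have hJ1 : J ≤ 1 + ε / 5 := by linarith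
  have hw : A * (C3 * R ^ (a - (d:ℝ)) + J * Cm * R ^ (a + (d:ℝ)) * (p / R) ^ (-a)) ≤
      2 * (ε / 5) := by
    have w1 := hR1' R hRR1
    have w2 : A * (J * Cm * R ^ (a + (d:ℝ)) * (p / R) ^ (-a)) ≤ ε / 5 := by
      refine le_trans ?_ hLd
      apply mul_le_mul_of_nonneg_left _ hA
      apply mul_le_mul_of_nonneg_right _ (by positivity)
      apply mul_le_mul _ _ (by positivity) (by positivity)
      · exact mul_le_mul_of_nonneg_right hLb hCm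
      · exact Real.rpow_le_rpow hR0.le hRR2 (by positivity)
    linarith
  have hk2 : κ0 * (J * η + 1 - J' * (1 - η)) ≤ ε / 5 := by
    have h1 : J * η ≤ 2 * η := mul_le_mul_of_nonneg_right (by linarith) hη0.le
    have h2 : (1 - η) * (1 - η) ≤ J' * (1 - η) :=
      mul_le_mul_of_nonneg_right hLc (by linarith)
    have h3 : J * η + 1 - J' * (1 - η) ≤ 4 * η := by nlinarith
    have h4 := mul_le_mul_of_nonneg_left h3 hκ0
    linarith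
  have hv0 : 0 ≤ V / p ^ ((d:ℝ) - a) := by positivity
  have hfa := fin_alg ε τ J J' c1 (V / p ^ ((d:ℝ) - a)) A κ0 η (C3 * R ^ (a - (d:ℝ)))
    (J * Cm * R ^ (a + (d:ℝ)) * (p / R) ^ (-a)) hε hε1 hτ hv0 hJ1 hJ0 hc1' hc10 hw hk2
  have := mul_le_mul_of_nonneg_right hfa hQ.le
  linarith

end Pool.Agent.TH331.RZ
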