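import Pool.Agent.TH331.RZ.Defs
import Pool.Agent.TH429.J232
import Pool.Agent.TH279.J233
import Pool.Agent.TH365.J234
import Pool.Agent.TH429.J235
import Pool.Agent.TH596.J236

/-!
Lemmas proved in other files, under the names used in this project.
-/

set_option autoImplicit false

namespace Pool.Agent.TH331.RZ

alias mult_est := Pool.Agent.TH279.J233.mult_est
alias fixed_freq := Pool.Agent.TH365.J234.fixed_freq
alias pool_round := Pool.Agent.TH596.J236.pool_round

end Pool.Agent.TH331.RZ
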